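import Pool.Agent.H98.AM.Targets

/-!
# Critical almost Mathieu operator (MP_29bb0a_mp): basic lemmas (helper36)
-/

open Polynomial
open scoped ComplexConjugate

noncomputable section

namespace Pool.Agent.H36.AM

open Pool.Agent.H98.AM

/-! ## phases -/

theorem ex_add (s t : ℝ) : ex (s + t) = ex s * ex t := by
  unfold ex
  rw [← Complex.exp_add]
  congr 1
  push_cast
  ring

theorem ex_int (k : ℤ) : ex k = 1 := by
  unfold ex
  rw [Complex.exp_eq_one_iff]
  refine ⟨k, ?_⟩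
  push_cast
  ring

theorem ex_zero : ex 0 = 1 := by simpa using ex_int 0

theorem ex_int_add (k : ℤ) (t : ℝ) : ex (k + t) = ex t := by
  rw [ex_add, ex_int, one_mul]

theorem norm_ex (t : ℝ) : ‖ex t‖ = 1 := by
  unfold ex
  rw [show (2 * (Real.pi : ℂ) * t * Complex.I) = ((2 * Real.pi * t : ℝ) : ℂ) * Complex.I by
    push_cast; ring]
  exact Complex.norm_exp_ofReal_mul_I _

theorem ex_ne_zero (t : ℝ) : ex t ≠ 0 := by
  intro h
  have := norm_ex t
  rw [h] at this
  simp at this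

theorem conj_ex (t : ℝ) : conj (ex t) = ex (-t) := by
  unfold ex
  rw [← Complex.exp_conj]
  congr 1
  simp only [map_mul, Complex.conj_ofReal, Complex.conj_I, map_ofNat]
  push_cast
  ring

theorem norm_one_sub_ex (t : ℝ) : ‖1 - ex t‖ ≤ 2 * Real.pi * |t| := by
  have h : ex t = Complex.exp (Complex.I * ((2 * Real.pi * t : ℝ) : ℂ)) := by
    unfold ex
    congr 1
    push_cast
    ring
  rw [h, norm_sub_rev]
  refine (Real.norm_exp_I_mul_ofReal_sub_one_le (x := 2 * Real.pi * t)).trans ?_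
  rw [Real.norm_eq_abs, abs_mul, abs_of_pos (by positivity : (0 : ℝ) < 2 * Real.pi)]

theorem norm_ex_sub_ex (s t : ℝ) : ‖ex s - ex t‖ ≤ 2 * Real.pi * |s - t| := by
  have h : ex s - ex t = -(ex t * (1 - ex (s - t))) := by
    have : ex s = ex t * ex (s - t) := by rw [← ex_add]; congr 1; ring
    rw [this]; ring
  rw [h, norm_neg, norm_mul, norm_ex, one_mul]
  exact norm_one_sub_ex _

theorem norm_bnd_le (β θ : ℝ) (n : ℤ) : ‖bnd β θ n‖ ≤ 2 := by
  unfold bnd
  refine (norm_sub_le _ _).trans ?_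
  rw [norm_ex]
  norm_num

/-! ## sums and inner products on a ring -/

section ring
variable {N : ℕ} [NeZero N]

@[simp] theorem bop_apply (a : ZMod N → ℂ) (f : Rg N) (n : ZMod N) :
    bop a f n = a n * f (n - 1) + conj (a (n + 1)) * f (n + 1) := rfl

@[simp] theorem mop_apply (g : ZMod N → ℂ) (f : Rg N) (n : ZMod N) : mop g f n = g n * f n := rfl

theorem inner_eq_sum (f g : Rg N) : inner ℂ f g = ∑ n, conj (f n) * g n := by
  rw [PiLp.inner_apply]
  refine Finset.sum_congr rfl fun n _ => ?_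
  rw [RCLike.inner_apply, mul_comm]

theorem norm_sq_eq_sum (f : Rg N) : ‖f‖ ^ 2 = ∑ n, ‖f n‖ ^ 2 := EuclideanSpace.norm_sq_eq f

theorem sum_sub_one {α : Type*} [AddCommMonoid α] (F : ZMod N → α) :
    ∑ n, F (n - 1) = ∑ n, F n :=
  Equiv.sum_comp (Equiv.subRight (1 : ZMod N)) F

theorem sum_add_one {α : Type*} [AddCommMonoid α] (F : ZMod N → α) :
    ∑ n, F (n + 1) = ∑ n, F n :=
  Equiv.sum_comp (Equiv.addRight (1 : ZMod N)) F

/-- the ring operators are symmetric -/
theorem bop_symm (a : ZMod N → ℂ) (f g : Rg N) :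
    inner ℂ (bop a f) g = inner ℂ f (bop a g) := by
  rw [inner_eq_sum, inner_eq_sum]
  simp only [bop_apply, map_add, map_mul, Complex.conj_conj, add_mul, mul_add,
    Finset.sum_add_distrib]
  have h1 : ∑ n, conj (a n) * conj (f (n - 1)) * g n
      = ∑ n, conj (f n) * (conj (a (n + 1)) * g (n + 1)) := by
    rw [← sum_add_one (fun n => conj (a n) * conj (f (n - 1)) * g n)]
    refine Finset.sum_congr rfl fun n _ => ?_
    rw [add_sub_cancel_right]
    ring
  have h2 : ∑ n, a (n + 1) * conj (f (n + 1)) * g n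
      = ∑ n, conj (f n) * (a n * g (n - 1)) := by
    rw [← sum_add_one (fun n => conj (f n) * (a n * g (n - 1)))]
    refine Finset.sum_congr rfl fun n _ => ?_
    rw [add_sub_cancel_right]
    ring
  rw [h1, h2, add_comm]

theorem mop_symm (g : ZMod N → ℝ) (f h : Rg N) :
    inner ℂ (mop (fun n => (g n : ℂ)) f) h = inner ℂ f (mop (fun n => (g n : ℂ)) h) := by
  rw [inner_eq_sum, inner_eq_sum]
  refine Finset.sum_congr rfl fun n _ => ?_
  simp only [mop_apply, map_mul, Complex.conj_ofReal]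
  ring

theorem norm_mop_le (g : ZMod N → ℂ) (c : ℝ) (hc : 0 ≤ c) (hg : ∀ n, ‖g n‖ ≤ c) (f : Rg N) :
    ‖mop g f‖ ≤ c * ‖f‖ := by
  have h : ‖mop g f‖ ^ 2 ≤ (c * ‖f‖) ^ 2 := by
    rw [norm_sq_eq_sum, mul_pow, norm_sq_eq_sum, Finset.mul_sum]
    refine Finset.sum_le_sum fun n _ => ?_
    rw [mop_apply, norm_mul, mul_pow]
    exact mul_le_mul_of_nonneg_right (pow_le_pow_left₀ (norm_nonneg _) (hg n) 2) (sq_nonneg _)
  exact le_of_sq_le_sq h (by positivity) 

end ring

/-! ## reduction mod `y` -/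

section red
variable {M y : ℕ} [NeZero y] [NeZero M]

/-- reduction mod `y` -/
def red (M y : ℕ) : ZMod (M * y) →+* ZMod y := ZMod.castHom (dvd_mul_left y M) (ZMod y)

theorem red_val (n : ZMod (M * y)) : (red M y n).val = n.val % y := by
  have h : red M y n = ((n.val : ℕ) : ZMod y) := by
    rw [red, ZMod.castHom_apply, ZMod.cast_eq_val]
  rw [h, ZMod.val_natCast]

theorem val_sub_one_of_ne (m : ZMod y) (h : m ≠ 0) : (m - 1).val = m.val - 1 := by
  have h1 : 1 ≤ m.val := Nat.one_le_iff_ne_zero.mpr (by rwa [Ne, ZMod.val_eq_zero])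
  have h2 : m - 1 = ((m.val - 1 : ℕ) : ZMod y) := by
    rw [Nat.cast_sub h1, ZMod.natCast_zmod_val, Nat.cast_one]
  rw [h2, ZMod.val_natCast, Nat.mod_eq_of_lt]
  have := ZMod.val_lt m
  omega

theorem val_neg_one' : ((0 : ZMod y) - 1).val = y - 1 := by
  have h1 : 1 ≤ y := Nat.one_le_iff_ne_zero.mpr (NeZero.ne y)
  have h2 : (0 : ZMod y) - 1 = ((y - 1 : ℕ) : ZMod y) := by
    rw [Nat.cast_sub h1, ZMod.natCast_self, Nat.cast_one]
  rw [h2, ZMod.val_natCast, Nat.mod_eq_of_lt (by omega)]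

theorem mod_sub_one_of_ne (n : ZMod (M * y)) (h : n.val % y ≠ 0) :
    (n - 1).val % y = n.val % y - 1 := by
  rw [← red_val, ← red_val, map_sub, map_one, val_sub_one_of_ne]
  intro h0
  rw [← red_val, h0, ZMod.val_zero] at h
  exact h rfl

theorem mod_sub_one_of_eq (n : ZMod (M * y)) (h : n.val % y = 0) :
    (n - 1).val % y = y - 1 := by
  rw [← red_val] at h
  rw [← red_val, map_sub, map_one, (ZMod.val_eq_zero _).mp h, val_neg_one']

theorem mod_sub_one_eq_iff (hy : 2 ≤ y) (n : ZMod (M * y)) :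
    (n - 1).val % y = y - 1 ↔ n.val % y = 0 := by
  constructor
  · intro h
    by_contra h0
    rw [mod_sub_one_of_ne n h0] at h
    have := Nat.mod_lt n.val (show 0 < y by omega)
    omega
  · exact mod_sub_one_of_eq n

/-- the bond function only depends on the residue mod `y` -/
theorem rb_mod (p : ℤ) (θ : ℝ) (n : ZMod (M * y)) :
    rb (p / y) θ (M * y) n = bnd (p / y) θ ((n.val % y : ℕ) : ℤ) := by
  unfold rb bnd
  congr 1
  have hy : (y : ℝ) ≠ 0 := by exact_mod_cast NeZero.ne y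
  obtain ⟨k, hk⟩ : ∃ k : ℕ, k = n.val / y := ⟨_, rfl⟩
  obtain ⟨r, hr⟩ : ∃ r : ℕ, r = n.val % y := ⟨_, rfl⟩
  have hn : n.val = y * k + r := by rw [hk, hr]; exact (Nat.div_add_mod n.val y).symm
  rw [← hr, hn]
  have h : ((((y * k + r : ℕ) : ℤ) : ℝ)) * ((p : ℝ) / y) + θ
      = (((k : ℤ) * p : ℤ) : ℝ) + ((((r : ℕ) : ℤ) : ℝ) * ((p : ℝ) / y) + θ) := by
    push_cast
    field_simp
    ring
  rw [h, ex_int_add]

theorem rb_weak (p : ℤ) (θ : ℝ) (n : ZMod (M * y)) (h : n.val % y = 0) :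
    rb (p / y) θ (M * y) n = 1 - ex θ := by
  rw [rb_mod, h]
  unfold bnd
  simp

end red

end Pool.Agent.H36.AM
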