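import Pool.Agent.H36.AM.Base

/-!
# Critical almost Mathieu operator (MP_29bb0a_mp): quasi-periodic extensions (helper36)
-/


open scoped ComplexConjugate

noncomputable section

namespace Pool.Agent.H36.AM

open Pool.Agent.H98.AM

/-! ## periodic functions on the integers -/

theorem per_apply {α : Type*} (N : ℕ) (F : ℤ → α) (hF : ∀ m, F (m + N) = F m) (a b : ℤ)
    (h : (a : ZMod N) = (b : ZMod N)) : F a = F b := by
  rw [ZMod.intCast_eq_intCast_iff] at h
  obtain ⟨t, ht⟩ := h.dvd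
  have hp : Function.Periodic F (N : ℤ) := hF
  have h1 := hp.int_mul t a
  have : a + t * (N : ℤ) = b := by linarith
  rw [← this]
  exact h1.symm

theorem val_sub_one_cast (N : ℕ) [NeZero N] (x : ZMod N) :
    (((x - 1).val : ℤ) : ZMod N) = (((x.val : ℤ) - 1 : ℤ) : ZMod N) := by
  push_cast
  rw [ZMod.natCast_zmod_val, ZMod.natCast_zmod_val]

theorem val_add_one_cast (N : ℕ) [NeZero N] (x : ZMod N) :
    (((x + 1).val : ℤ) : ZMod N) = (((x.val : ℤ) + 1 : ℤ) : ZMod N) := by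
  push_cast
  rw [ZMod.natCast_zmod_val, ZMod.natCast_zmod_val]

/-- phases of rational flux are periodic -/
theorem ex_per (p : ℤ) (s : ℕ) [NeZero s] (θ : ℝ) (m : ℤ) :
    ex (((m + s : ℤ) : ℝ) * (p / s) + θ) = ex ((m : ℝ) * (p / s) + θ) := by
  have hs : (s : ℝ) ≠ 0 := by exact_mod_cast NeZero.ne s
  have h : ((m + s : ℤ) : ℝ) * ((p : ℝ) / s) + θ = ((p : ℤ) : ℝ) + ((m : ℝ) * (p / s) + θ) := by
    push_cast
    field_simp
    ring
  rw [h, ex_int_add]

theorem bnd_per (p : ℤ) (s : ℕ) [NeZero s] (θ : ℝ) (m : ℤ) :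
    bnd (p / s) θ (m + s) = bnd (p / s) θ m := by
  unfold bnd
  rw [ex_per]

/-- the line operator of a bond function -/
def lopb (b : ℤ → ℂ) (ψ : ℤ → ℂ) (n : ℤ) : ℂ := b n * ψ (n - 1) + conj (b (n + 1)) * ψ (n + 1)

/-- the twisted fibre bond function -/
def tw (s : ℕ) (ζ : ℂ) (b : ℤ → ℂ) (n : ZMod s) : ℂ := (if n = 0 then ζ else 1) * b (n.val : ℤ)

section
variable {s : ℕ} [NeZero s]

theorem ext_eq (ζ : ℂ) (f : ZMod s → ℂ) (q r : ℤ) (h0 : 0 ≤ r) (h1 : r < s) :
    ext s ζ f (s * q + r) = (conj ζ) ^ q * f (r : ZMod s) := by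
  unfold ext
  have hs : (0 : ℤ) < s := by exact_mod_cast Nat.pos_of_ne_zero (NeZero.ne s)
  have h2 : ((s : ℤ) * q + r) / (s : ℤ) = q := by
    rw [add_comm, Int.add_mul_ediv_left _ _ hs.ne', Int.ediv_eq_zero_of_lt h0 h1, zero_add]
  rw [h2]
  congr 2
  push_cast
  rw [ZMod.natCast_self, zero_mul, zero_add]

theorem ext_add_period (ζ : ℂ) (hζ : ‖ζ‖ = 1) (f : ZMod s → ℂ) (n q : ℤ) :
    ext s ζ f (n + s * q) = (conj ζ) ^ q * ext s ζ f n := by
  have hs : (0 : ℤ) < s := by exact_mod_cast Nat.pos_of_ne_zero (NeZero.ne s)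
  have h0 := Int.emod_nonneg n hs.ne'
  have h1 := Int.emod_lt_of_pos n hs
  have h2 := Int.mul_ediv_add_emod n s
  have hz : (conj ζ) ≠ 0 := by
    intro h
    rw [← RCLike.norm_conj (K := ℂ), h] at hζ
    simp at hζ
  have e1 : n + s * q = s * (n / s + q) + n % s := by rw [mul_add]; linarith
  rw [e1, ext_eq ζ f _ _ h0 h1]
  conv_rhs => rw [← h2, ext_eq ζ f _ _ h0 h1]
  rw [zpow_add₀ hz]
  ring

theorem intCast_val_emod (n : ℤ) : (((n : ZMod s)).val : ℤ) = n % s := ZMod.val_intCast n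

/-- quasi-periodic extension intertwines the twisted fibre and the line -/
theorem ext_bop (ζ : ℂ) (hζ : ‖ζ‖ = 1) (b : ℤ → ℂ) (hb : ∀ m, b (m + s) = b m) (f : Rg s) (n : ℤ) :
    lopb b (ext s ζ f) n = ext s ζ (bop (tw s ζ b) f) n := by
  have hs : (0 : ℤ) < s := by exact_mod_cast Nat.pos_of_ne_zero (NeZero.ne s)
  have hz1 : ζ * conj ζ = 1 := by
    rw [Complex.mul_conj, Complex.normSq_eq_norm_sq, hζ]; simp
  have hz : (conj ζ) ≠ 0 := by
    intro h
    rw [h, mul_zero] at hz1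
    exact zero_ne_one hz1
  have hbv : ∀ m : ℤ, b (((m : ZMod s).val : ℤ)) = b m := by
    intro m
    apply per_apply s b hb
    push_cast
    rw [ZMod.natCast_zmod_val]
  have hdiv : ∀ m : ℤ, ((m : ZMod s) = 0 → (m - 1) / (s : ℤ) = m / s - 1) ∧
      ((m : ZMod s) ≠ 0 → (m - 1) / (s : ℤ) = m / s) := by
    intro m
    have h0 := Int.emod_nonneg m hs.ne'
    have h1 := Int.emod_lt_of_pos m hs
    have h2 := Int.mul_ediv_add_emod m s
    constructor
    · intro h
      rw [ZMod.intCast_zmod_eq_zero_iff_dvd] at h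
      have h3 := Int.emod_eq_zero_of_dvd h
      rw [Int.ediv_eq_iff_of_pos hs]
      constructor <;> nlinarith
    · intro h
      rw [Ne, ZMod.intCast_zmod_eq_zero_iff_dvd] at h
      have h3 : m % s ≠ 0 := fun h4 => h (Int.dvd_of_emod_eq_zero h4)
      have h4 : 1 ≤ m % s := by omega
      rw [Int.ediv_eq_iff_of_pos hs]
      constructor <;> nlinarith
  have T1 : b n * ext s ζ f (n - 1) = (conj ζ) ^ (n / (s : ℤ)) *
      (tw s ζ b (n : ZMod s) * f ((n : ZMod s) - 1)) := by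
    unfold ext tw
    rw [hbv n]
    push_cast
    by_cases h : (n : ZMod s) = 0
    · rw [(hdiv n).1 h, if_pos h, zpow_sub₀ hz, zpow_one]
      have : (conj ζ)⁻¹ = ζ := inv_eq_of_mul_eq_one_left hz1
      rw [div_eq_mul_inv, this]
      ring
    · rw [(hdiv n).2 h, if_neg h]
      ring
  have T2 : conj (b (n + 1)) * ext s ζ f (n + 1) = (conj ζ) ^ (n / (s : ℤ)) *
      (conj (tw s ζ b ((n : ZMod s) + 1)) * f ((n : ZMod s) + 1)) := by
    unfold ext tw
    have e : ((n : ZMod s) + 1) = ((n + 1 : ℤ) : ZMod s) := by push_cast; rfl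
    rw [e, hbv (n + 1)]
    by_cases h : ((n + 1 : ℤ) : ZMod s) = 0
    · have h1 := (hdiv (n + 1)).1 h
      rw [add_sub_cancel_right] at h1
      have h2 : (n + 1) / (s : ℤ) = n / s + 1 := by linarith
      rw [h2, if_pos h, zpow_add₀ hz, zpow_one, map_mul]
      ring
    · have h1 := (hdiv (n + 1)).2 h
      rw [add_sub_cancel_right] at h1
      rw [← h1, if_neg h, map_mul, map_one]
      ring
  unfold lopb
  rw [T1, T2]
  unfold ext
  rw [bop_apply]
  ring

end

section ring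
variable {M s : ℕ} [NeZero s] [NeZero M]

/-- the extension to the ring with `M` cells -/
def ering (M s : ℕ) [NeZero s] [NeZero M] (ζ : ℂ) : Rg s →ₗ[ℂ] Rg (M * s) where
  toFun f := WithLp.toLp 2 fun n => ext s ζ f (n.val : ℤ)
  map_add' f g := by
    ext n
    change ext s ζ (f + g) _ = ext s ζ f _ + ext s ζ g _
    unfold ext
    rw [← mul_add]
    rfl
  map_smul' c f := by
    ext n
    change ext s ζ (c • f) _ = c * ext s ζ f _
    unfold ext
    rw [mul_left_comm]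
    rfl

@[simp] theorem ering_apply (ζ : ℂ) (f : Rg s) (n : ZMod (M * s)) :
    ering M s ζ f n = ext s ζ f (n.val : ℤ) := rfl

theorem ext_ring_per (ζ : ℂ) (hζ : ‖ζ‖ = 1) (hM : ζ ^ M = 1) (f : ZMod s → ℂ) (m : ℤ) :
    ext s ζ f (m + ((M * s : ℕ) : ℤ)) = ext s ζ f m := by
  have : m + ((M * s : ℕ) : ℤ) = m + s * (M : ℤ) := by push_cast; ring
  rw [this, ext_add_period ζ hζ, zpow_natCast, ← map_pow, hM, map_one, one_mul]

/-- the extension intertwines ring operators and fibres -/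
theorem ering_bop (ζ : ℂ) (hζ : ‖ζ‖ = 1) (hM : ζ ^ M = 1) (b : ℤ → ℂ) (hb : ∀ m, b (m + s) = b m)
    (f : Rg s) :
    bop (fun n : ZMod (M * s) => b (n.val : ℤ)) (ering M s ζ f) = ering M s ζ (bop (tw s ζ b) f) := by
  ext n
  rw [ering_apply, ← ext_bop ζ hζ b hb f, bop_apply, ering_apply, ering_apply]
  unfold lopb
  have hbN : ∀ m, b (m + ((M * s : ℕ) : ℤ)) = b m := by
    intro m
    have hp : Function.Periodic b (s : ℤ) := hb
    have := hp.int_mul (M : ℤ) m
    rw [← this]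
    congr 1
  rw [per_apply (M * s) (ext s ζ f) (ext_ring_per ζ hζ hM f) _ _ (val_sub_one_cast (M * s) n),
    per_apply (M * s) (ext s ζ f) (ext_ring_per ζ hζ hM f) _ _ (val_add_one_cast (M * s) n),
    per_apply (M * s) b hbN _ _ (val_add_one_cast (M * s) n)]

end ring

end Pool.Agent.H36.AM
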