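import Pool.Agent.H4.AM.Targets

/-! Modules F0, F1, F2 of MP_657073_al. -/

set_option linter.unusedSectionVars false

open scoped Classical

namespace Pool.Agent.H36.AM

open AMx

variable {ℓ : ℕ} {X T : Type} [Group X] [Group T] (F : Fr ℓ X T)

/-- `x ∈ V · io(T)` -/
def Sp (x : X) : Prop := ∃ v ∈ F.V, ∃ t, x = v * F.io t

theorem conj_mem {v : X} (hv : v ∈ F.V) (g : X) : g * v * g⁻¹ ∈ F.V :=
  F.norm.conj_mem v hv g

theorem conj_mem' {v : X} (hv : v ∈ F.V) (g : X) : g⁻¹ * v * g ∈ F.V := by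
  have := F.norm.conj_mem v hv g⁻¹
  rwa [inv_inv] at this

/-- the subgroup `V · io(T)` -/
def SS : Subgroup X where
  carrier := {x | Sp F x}
  one_mem' := ⟨1, F.V.one_mem, 1, by simp⟩
  mul_mem' := by
    rintro x y ⟨v, hv, t, rfl⟩ ⟨w, hw, s, rfl⟩
    refine ⟨v * (F.io t * w * (F.io t)⁻¹), F.V.mul_mem hv (conj_mem F hw _), t * s, ?_⟩
    rw [map_mul]; group
  inv_mem' := by
    rintro x ⟨v, hv, t, rfl⟩
    refine ⟨(F.io t)⁻¹ * v⁻¹ * F.io t, conj_mem' F (F.V.inv_mem hv) _, t⁻¹, ?_⟩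
    rw [map_inv]; group

theorem mem_SS {x : X} : x ∈ SS F ↔ Sp F x := Iff.rfl

theorem Sp_iff (x : X) : Sp F x ↔ ∀ v ∈ F.V, F.lam (x * v * x⁻¹) = F.lam v :=
  (F.stab x).symm

theorem Sp_V {v : X} (hv : v ∈ F.V) : Sp F v := ⟨v, hv, 1, by simp⟩

theorem Sp_io (t : T) : Sp F (F.io t) := ⟨1, F.V.one_mem, t, by simp⟩

/-- `V × T ≃ V · io(T)` -/
noncomputable def eS : F.V × T ≃ SS F :=
  Equiv.ofBijective (fun p => ⟨(p.1 : X) * F.io p.2, ⟨p.1, p.1.2, p.2, rfl⟩⟩) (by
    constructor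
    · rintro ⟨v, t⟩ ⟨w, s⟩ h
      have h1 : (v : X) * F.io t = w * F.io s := congrArg Subtype.val h
      have h2 : F.io (t * s⁻¹) ∈ F.V := by
        have : F.io (t * s⁻¹) = (v : X)⁻¹ * w := by
          rw [map_mul, map_inv, mul_inv_eq_iff_eq_mul, mul_assoc, ← h1]; group
        rw [this]
        exact F.V.mul_mem (F.V.inv_mem v.2) w.2
      have h3 : t = s := by
        have := F.disj _ h2
        exact mul_inv_eq_one.1 this
      subst h3
      have h4 : (v : X) = w := mul_right_cancel h1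
      rw [Subtype.ext h4]
    · rintro ⟨x, v, hv, t, rfl⟩
      exact ⟨(⟨v, hv⟩, t), rfl⟩)

theorem card_SS : Nat.card (SS F) = Nat.card F.V * Nat.card T := by
  rw [← Nat.card_congr (eS F), Nat.card_prod]

theorem lam_mul_left {v : X} (hv : v ∈ F.V) (x : X) : F.lam (v * x) = F.lam v * F.lam x := by
  by_cases hx : x ∈ F.V
  · exact F.lam_mul v hv x hx
  · rw [F.lam_off x hx, mul_zero]
    exact F.lam_off _ (fun h => hx (by
      have := F.V.mul_mem (F.V.inv_mem hv) h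
      rwa [inv_mul_cancel_left] at this))

theorem lam_mul_right {v : X} (hv : v ∈ F.V) (x : X) : F.lam (x * v) = F.lam x * F.lam v := by
  by_cases hx : x ∈ F.V
  · exact F.lam_mul x hx v hv
  · rw [F.lam_off x hx, zero_mul]
    exact F.lam_off _ (fun h => hx (by
      have := F.V.mul_mem h (F.V.inv_mem hv)
      rwa [mul_inv_cancel_right] at this))

theorem lam_inv {v : X} (hv : v ∈ F.V) : F.lam v * F.lam v⁻¹ = 1 := by
  rw [← F.lam_mul v hv _ (F.V.inv_mem hv), mul_inv_cancel, F.lam_one]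

theorem lam_inv' {v : X} (hv : v ∈ F.V) : F.lam v⁻¹ * F.lam v = 1 := by
  rw [mul_comm, lam_inv F hv]

theorem mem_inv_off {x : X} (hx : x ∉ F.V) : F.lam x⁻¹ = 0 :=
  F.lam_off _ (fun h => hx (by simpa using F.V.inv_mem h))

/-- `lam` is invariant under conjugation by `V · io(T)` -/
theorem lam_conj {y : X} (hy : Sp F y) (x : X) : F.lam (y * x * y⁻¹) = F.lam x := by
  by_cases hx : x ∈ F.V
  · exact (Sp_iff F y).1 hy x hx
  · rw [F.lam_off x hx]
    refine F.lam_off _ (fun h => hx ?_)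
    have := conj_mem' F h y
    have e : y⁻¹ * (y * x * y⁻¹) * y = x := by group
    rwa [e] at this

theorem lam_pow {v : X} (hv : v ∈ F.V) (n : ℕ) : F.lam (v ^ n) = F.lam v ^ n := by
  induction n with
  | zero => simp [F.lam_one]
  | succ n ih => rw [pow_succ, lam_mul_right F hv, ih, pow_succ]

theorem lam_int [Finite X] {v : X} (hv : v ∈ F.V) : IsIntegral ℤ (F.lam v) := by
  have h1 : v ^ (Nat.card F.V) = 1 := by
    have := pow_card_eq_one' (G := F.V) (x := ⟨v, hv⟩)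
    exact congrArg Subtype.val this
  have h2 : F.lam v ^ (Nat.card F.V) = 1 := by rw [← lam_pow F hv, h1, F.lam_one]
  refine IsIntegral.of_pow (n := Nat.card F.V) Nat.card_pos ?_
  rw [h2]
  exact isIntegral_one

theorem lam_int' [Finite X] (x : X) : IsIntegral ℤ (F.lam x) := by
  by_cases hx : x ∈ F.V
  · exact lam_int F hx
  · rw [F.lam_off x hx]; exact isIntegral_zero

section fin

variable [Fintype X] [Fintype T]

theorem ix_mul : F.ix * (Nat.card F.V * Nat.card T) = Nat.card X := by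
  rw [Fr.ix, ← card_SS]
  exact Nat.div_mul_cancel (Subgroup.card_subgroup_dvd_card _)

theorem ix_pos : 0 < F.ix := by
  have h := ix_mul F
  have h1 : 0 < Nat.card X := Nat.card_pos
  rcases Nat.eq_zero_or_pos F.ix with h2 | h2
  · rw [h2, zero_mul] at h; omega
  · exact h2

theorem th_mul_io (ψ : T → ℂ) {v : X} (hv : v ∈ F.V) (t : T) :
    F.th ψ (v * F.io t) = F.lam v * ψ t := by
  unfold Fr.th
  rw [Finset.sum_eq_single t]
  · rw [mul_inv_cancel_right]
  · intro s _ hs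
    rw [F.lam_off, zero_mul]
    intro h
    apply hs
    have h2 : F.io (t * s⁻¹) ∈ F.V := by
      have e : F.io (t * s⁻¹) = v⁻¹ * (v * F.io t * (F.io s)⁻¹) := by
        rw [map_mul, map_inv]; group
      rw [e]
      exact F.V.mul_mem (F.V.inv_mem hv) h
    exact (mul_inv_eq_one.1 (F.disj _ h2)).symm
  · intro h; exact absurd (Finset.mem_univ _) h

theorem th_io (ψ : T → ℂ) (t : T) : F.th ψ (F.io t) = ψ t := by
  have := th_mul_io F ψ F.V.one_mem t
  rwa [one_mul, F.lam_one, one_mul] at this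

theorem th_off (ψ : T → ℂ) {x : X} (hx : ¬ Sp F x) : F.th ψ x = 0 := by
  unfold Fr.th
  refine Finset.sum_eq_zero (fun s _ => ?_)
  rw [F.lam_off, zero_mul]
  intro h
  exact hx ⟨_, h, s, by group⟩

theorem th_mul_left (ψ : T → ℂ) {v : X} (hv : v ∈ F.V) (x : X) :
    F.th ψ (v * x) = F.lam v * F.th ψ x := by
  unfold Fr.th
  rw [Finset.mul_sum]
  refine Finset.sum_congr rfl (fun s _ => ?_)
  rw [mul_assoc v, lam_mul_left F hv, mul_assoc]

theorem th_conj {ψ : T → ℂ} (hψ : CF ψ) {y : X} (hy : Sp F y) (x : X) :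
    F.th ψ (y * x * y⁻¹) = F.th ψ x := by
  by_cases hx : Sp F x
  · obtain ⟨v, hv, t, rfl⟩ := hy
    obtain ⟨w, hw, s, rfl⟩ := hx
    have e : v * F.io t * (w * F.io s) * (v * F.io t)⁻¹ =
        (v * (F.io t * w * (F.io t)⁻¹) *
          (F.io (t * s * t⁻¹) * v⁻¹ * (F.io (t * s * t⁻¹))⁻¹)) * F.io (t * s * t⁻¹) := by
      simp only [map_mul, map_inv]; group
    have m1 : F.io t * w * (F.io t)⁻¹ ∈ F.V := conj_mem F hw _
    have m2 : F.io (t * s * t⁻¹) * v⁻¹ * (F.io (t * s * t⁻¹))⁻¹ ∈ F.V :=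
      conj_mem F (F.V.inv_mem hv) _
    rw [e, th_mul_io F ψ (F.V.mul_mem (F.V.mul_mem hv m1) m2), th_mul_io F ψ hw,
      F.lam_mul _ (F.V.mul_mem hv m1) _ m2, F.lam_mul _ hv _ m1, lam_conj F (Sp_io F t),
      lam_conj F (Sp_io F _), hψ t s]
    have := lam_inv F hv
    linear_combination (F.lam w * ψ s) * this
  · rw [th_off F ψ hx, th_off F ψ]
    intro h
    apply hx
    have h1 : y⁻¹ * (y * x * y⁻¹) * y ∈ SS F :=
      (SS F).mul_mem ((SS F).mul_mem ((SS F).inv_mem hy) h) hy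
    have e : y⁻¹ * (y * x * y⁻¹) * y = x := by group
    rwa [e] at h1

end fin

/-- Module F0. -/
theorem f0 : T_F0 := by
  intro ℓ X T _ _ _ _ F
  exact ⟨ix_mul F, ix_pos F, fun v hv => ⟨lam_int F hv, lam_inv F hv⟩,
    fun ψ v hv t => th_mul_io F ψ hv t, fun ψ x hx => th_off F ψ hx,
    fun ψ v hv x => th_mul_left F ψ hv x, fun ψ hψ y x hy => th_conj F hψ hy x⟩

end Pool.Agent.H36.AM
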