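import Pool.Agent.H36.AM.F0

/-! Module F1 of MP_657073_al: induction. -/

set_option linter.unusedSectionVars false

open scoped Classical

namespace Pool.Agent.H36.AM

open AMx

variable {ℓ : ℕ} {X T : Type} [Group X] [Group T] [Fintype X] [Fintype T] (F : Fr ℓ X T)

theorem cc_ne : ((Nat.card F.V : ℂ) * Nat.card T) ≠ 0 := by
  have h1 : (Nat.card F.V : ℂ) ≠ 0 := by
    have : 0 < Nat.card F.V := Nat.card_pos
    exact_mod_cast this.ne'
  have h2 : (Nat.card T : ℂ) ≠ 0 := by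
    have : 0 < Nat.card T := Nat.card_pos
    exact_mod_cast this.ne'
  exact mul_ne_zero h1 h2

theorem ix_mul' : (F.ix : ℂ) * ((Nat.card F.V : ℂ) * Nat.card T) = Nat.card X := by
  have := ix_mul F
  exact_mod_cast this

theorem sum_mem_card {G : Type} [Group G] [Fintype G] (S : Subgroup G) :
    ∑ y : G, (if y ∈ S then (1 : ℂ) else 0) = Nat.card S := by
  rw [Finset.sum_boole, Nat.card_eq_fintype_card, Fintype.card_subtype]

theorem ind_CF (ψ : T → ℂ) : CF (F.ind ψ) := by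
  intro g x
  unfold Fr.ind
  congr 1
  refine Fintype.sum_equiv (Equiv.mulRight g) _ _ (fun y => ?_)
  simp only [Equiv.coe_mulRight, mul_inv_rev, mul_assoc]

theorem ind_one (ψ : T → ℂ) : F.ind ψ 1 = F.ix * ψ 1 := by
  unfold Fr.ind
  have h1 : ∀ y : X, F.th ψ (y * 1 * y⁻¹) = ψ 1 := by
    intro y
    rw [mul_one, mul_inv_cancel, ← map_one F.io, th_io]
  simp only [h1]
  rw [Finset.sum_const, Finset.card_univ, nsmul_eq_mul, ← Nat.card_eq_fintype_card, ← ix_mul' F,
    div_eq_iff (cc_ne F)]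
  ring

theorem sum_th (ψ : T → ℂ) (a : X → ℂ) :
    ∑ x, a x * F.th ψ x = ∑ t, F.ph a t * ψ t := by
  unfold Fr.th Fr.ph
  simp only [Finset.mul_sum, Finset.sum_mul]
  rw [Finset.sum_comm]
  refine Finset.sum_congr rfl (fun t _ => ?_)
  refine Fintype.sum_equiv (Equiv.mulRight (F.io t)⁻¹) _ _ (fun x => ?_)
  simp only [Equiv.coe_mulRight]
  rw [inv_mul_cancel_right]
  ring

theorem sum_ind (ψ : T → ℂ) {a : X → ℂ} (ha : CF a) :
    ∑ x, a x * F.ind ψ x = F.ix * ∑ t, F.ph a t * ψ t := by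
  rw [← sum_th]
  have h1 : ∑ x, a x * F.ind ψ x =
      (∑ x, ∑ y, a x * F.th ψ (y * x * y⁻¹)) / ((Nat.card F.V : ℂ) * Nat.card T) := by
    unfold Fr.ind
    rw [Finset.sum_div]
    refine Finset.sum_congr rfl (fun x _ => ?_)
    rw [← Finset.mul_sum, mul_div_assoc]
  have h2 : ∀ y : X, ∑ x, a x * F.th ψ (y * x * y⁻¹) = ∑ x, a x * F.th ψ x := by
    intro y
    refine Fintype.sum_equiv (MulAut.conj y).toEquiv _ _ (fun x => ?_)
    have : (MulAut.conj y).toEquiv x = y * x * y⁻¹ := rfl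
    rw [this, ha y x]
  rw [h1, Finset.sum_comm]
  simp only [h2]
  rw [Finset.sum_const, Finset.card_univ, nsmul_eq_mul, ← Nat.card_eq_fintype_card, ← ix_mul' F,
    div_eq_iff (cc_ne F)]
  ring

/-- orthogonality -/
theorem orth (y : X) : ∑ x, F.lam x⁻¹ * F.lam (y * x * y⁻¹) =
    if y ∈ SS F then (Nat.card F.V : ℂ) else 0 := by
  split_ifs with hy
  · rw [← sum_mem_card]
    refine Finset.sum_congr rfl (fun x _ => ?_)
    rw [lam_conj F hy]
    split_ifs with hx
    · exact lam_inv' F hx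
    · rw [F.lam_off x hx, mul_zero]
  · have h0 : ¬ ∀ v ∈ F.V, F.lam (y * v * y⁻¹) = F.lam v := fun h => hy ((Sp_iff F y).2 h)
    push Not at h0
    obtain ⟨v, hv, hne⟩ := h0
    have hv' := conj_mem F hv y
    have h1 : ∑ x, F.lam x⁻¹ * F.lam (y * x * y⁻¹) =
        (F.lam v⁻¹ * F.lam (y * v * y⁻¹)) * ∑ x, F.lam x⁻¹ * F.lam (y * x * y⁻¹) := by
      rw [Finset.mul_sum]
      refine (Fintype.sum_equiv (Equiv.mulLeft v) _ _ (fun x => ?_)).symm
      simp only [Equiv.coe_mulLeft]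
      rw [mul_inv_rev, lam_mul_right F (F.V.inv_mem hv),
        show y * (v * x) * y⁻¹ = (y * v * y⁻¹) * (y * x * y⁻¹) by group, lam_mul_left F hv']
      ring
    by_contra hO
    have h2 : F.lam v⁻¹ * F.lam (y * v * y⁻¹) = 1 := by
      have h3 : (1 - F.lam v⁻¹ * F.lam (y * v * y⁻¹)) *
          (∑ x, F.lam x⁻¹ * F.lam (y * x * y⁻¹)) = 0 := by linear_combination h1
      rcases mul_eq_zero.1 h3 with h | h
      · linear_combination -h
      · exact absurd h hO
    apply hne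
    have h4 := lam_inv F hv
    linear_combination (F.lam v) * h2 - (F.lam (y * v * y⁻¹)) * h4

theorem recover {ψ : T → ℂ} (hψ : CF ψ) (t : T) :
    ∑ x, F.lam x⁻¹ * F.ind ψ (x * F.io t) = Nat.card F.V * ψ t := by
  have h1 : ∑ x, F.lam x⁻¹ * F.ind ψ (x * F.io t) =
      (∑ x, ∑ y, F.lam x⁻¹ * F.th ψ (y * (x * F.io t) * y⁻¹)) /
        ((Nat.card F.V : ℂ) * Nat.card T) := by
    unfold Fr.ind
    rw [Finset.sum_div]
    refine Finset.sum_congr rfl (fun x _ => ?_)
    rw [← Finset.mul_sum, mul_div_assoc]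
  have h2 : ∀ y : X, ∑ x, F.lam x⁻¹ * F.th ψ (y * (x * F.io t) * y⁻¹) =
      (if y ∈ SS F then (1 : ℂ) else 0) * (Nat.card F.V * ψ t) := by
    intro y
    have h3 : ∀ x, F.lam x⁻¹ * F.th ψ (y * (x * F.io t) * y⁻¹) =
        (F.lam x⁻¹ * F.lam (y * x * y⁻¹)) * F.th ψ (y * F.io t * y⁻¹) := by
      intro x
      by_cases hx : x ∈ F.V
      · rw [show y * (x * F.io t) * y⁻¹ = (y * x * y⁻¹) * (y * F.io t * y⁻¹) by group,
          th_mul_left F ψ (conj_mem F hx y)]
        ring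
      · rw [mem_inv_off F hx]; ring
    simp only [h3]
    rw [← Finset.sum_mul, orth]
    split_ifs with hy
    · rw [th_conj F hψ hy, th_io]; ring
    · ring
  rw [h1, Finset.sum_comm]
  simp only [h2]
  rw [← Finset.sum_mul, sum_mem_card, card_SS, div_eq_iff (cc_ne F)]
  push_cast
  ring

theorem ph_CF {a : X → ℂ} (ha : CF a) : CF (F.ph a) := by
  intro s t
  unfold Fr.ph
  refine (Fintype.sum_equiv (MulAut.conj (F.io s)).toEquiv _ _ (fun x => ?_)).symm
  have : (MulAut.conj (F.io s)).toEquiv x = F.io s * x * (F.io s)⁻¹ := rfl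
  rw [this, lam_conj F (Sp_io F s), ← ha (F.io s) (x * F.io t)]
  congr 2
  simp only [map_mul, map_inv]; group

theorem th_int {ψ : T → ℂ} (hψ : ∀ t, IsIntegral ℤ (ψ t)) (x : X) : IsIntegral ℤ (F.th ψ x) := by
  unfold Fr.th
  exact IsIntegral.sum _ (fun t _ => (lam_int' F _).mul (hψ t))

/-- a sum over the group of a function invariant under a subgroup -/
theorem sum_div_int {G : Type} [Group G] [Fintype G] (S : Subgroup G) (h : G → ℂ)
    (hi : ∀ y, IsIntegral ℤ (h y)) (hS : ∀ y, ∀ s ∈ S, h (y * s) = h y) :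
    IsIntegral ℤ ((∑ y, h y) / Nat.card S) := by
  have h1 : ∑ y, h y = Nat.card S * ∑ q : G ⧸ S, h q.out := by
    rw [← Finset.sum_fiberwise (s := Finset.univ) (g := fun y : G => (y : G ⧸ S)), Finset.mul_sum]
    refine Finset.sum_congr rfl (fun q _ => ?_)
    have h2 : ∀ y ∈ Finset.univ.filter (fun y : G => (y : G ⧸ S) = q), h y = h q.out := by
      intro y hy
      have hq : (y : G ⧸ S) = q := (Finset.mem_filter.1 hy).2
      obtain ⟨s, hs⟩ := QuotientGroup.mk_out_eq_mul S y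
      rw [← hq, hs, hS y s s.2]
    rw [Finset.sum_congr rfl h2, Finset.sum_const, nsmul_eq_mul]
    congr 1
    have h3 := QuotientGroup.card_preimage_mk S {q}
    have h4 : Nat.card ({q} : Set (G ⧸ S)) = 1 := by simp
    rw [h4, mul_one] at h3
    rw [← h3, Nat.card_eq_fintype_card, Fintype.card_subtype]
    congr 1
    refine congrArg Finset.card (Finset.ext (fun y => ?_))
    simp
  have h0 : (Nat.card S : ℂ) ≠ 0 := by
    have : 0 < Nat.card S := Nat.card_pos
    exact_mod_cast this.ne'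
  rw [h1, mul_div_cancel_left₀ _ h0]
  exact IsIntegral.sum _ (fun q _ => hi _)

theorem ind_int {ψ : T → ℂ} (hψ : ∀ t, IsIntegral ℤ (ψ t)) (hc : CF ψ) (x : X) :
    IsIntegral ℤ (F.ind ψ x) := by
  have h1 := sum_div_int (SS F) (fun y => F.th ψ (y⁻¹ * x * y)) (fun y => th_int F hψ _) (by
    intro y s hs
    have hs' : Sp F s⁻¹ := (SS F).inv_mem hs
    have := th_conj F hc hs' (y⁻¹ * x * y)
    rw [← this]
    congr 1
    group)
  have h2 : ∑ y, F.th ψ (y⁻¹ * x * y) = ∑ y, F.th ψ (y * x * y⁻¹) := by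
    refine Fintype.sum_equiv (Equiv.inv X) _ _ (fun y => ?_)
    simp only [Equiv.inv_apply, inv_inv]
  rw [h2, card_SS] at h1
  unfold Fr.ind
  push_cast at h1
  exact h1

/-- Module F1. -/
theorem f1 : T_F1 := by
  intro ℓ X T _ _ _ _ F
  exact ⟨ind_CF F, ind_one F, fun ψ a ha => sum_ind F ψ ha, fun ψ hψ t => recover F hψ t,
    fun a ha => ph_CF F ha, fun ψ h1 h2 x => ind_int F h1 h2 x⟩

end Pool.Agent.H36.AM
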