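import Pool.Agent.H36.AM.F1

/-! Module F2 of MP_657073_al: `ph` is multiplicative on class functions. -/

set_option linter.unusedSectionVars false

open scoped Classical

namespace Pool.Agent.H36.AM

open AMx

variable {ℓ : ℕ} {X T : Type} [Group X] [Group T] [Fintype X] [Fintype T] (F : Fr ℓ X T)

/-- `∑_u lam(u) a(u y)` -/
noncomputable def Aa (a : X → ℂ) (y : X) : ℂ := ∑ u, F.lam u * a (u * y)

theorem Aa_mul (a : X → ℂ) {v : X} (hv : v ∈ F.V) (y : X) :
    Aa F a (v * y) = F.lam v⁻¹ * Aa F a y := by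
  unfold Aa
  rw [Finset.mul_sum]
  refine Fintype.sum_equiv (Equiv.mulRight v) _ _ (fun u => ?_)
  simp only [Equiv.coe_mulRight]
  rw [lam_mul_right F hv, mul_assoc u v y]
  have := lam_inv F hv
  linear_combination (-(F.lam u) * a (u * (v * y))) * this

theorem Aa_io (a : X → ℂ) (s : T) : Aa F a (F.io s) = F.ph a s := by
  unfold Aa Fr.ph
  exact Finset.sum_congr rfl (fun u _ => mul_comm _ _)

/-- claim (Z) -/
theorem Aa_off {a : X → ℂ} (ha : CF a) {y : X} (hy : ¬ Sp F y) : Aa F a y = 0 := by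
  have h0 : ¬ ∀ v ∈ F.V, F.lam (y * v * y⁻¹) = F.lam v := fun h => hy ((Sp_iff F y).2 h)
  push Not at h0
  obtain ⟨w, hw, hne⟩ := h0
  have hw' := conj_mem F hw y
  have hc : w * (y * w * y⁻¹)⁻¹ ∈ F.V := F.V.mul_mem hw (F.V.inv_mem hw')
  have h1 := Aa_mul F a hc y
  have h2 : Aa F a (w * (y * w * y⁻¹)⁻¹ * y) = Aa F a y := by
    unfold Aa
    refine Finset.sum_congr rfl (fun u _ => ?_)
    by_cases hu : u ∈ F.V
    · congr 1
      have e : u * (w * (y * w * y⁻¹)⁻¹ * y) = w * (u * y) * w⁻¹ := by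
        have := F.comm u hu w hw
        calc u * (w * (y * w * y⁻¹)⁻¹ * y) = (u * w) * y * w⁻¹ := by group
          _ = w * (u * y) * w⁻¹ := by rw [this]; group
      rw [e, ha]
    · rw [F.lam_off u hu]; ring
  rw [h2] at h1
  have h3 : (w * (y * w * y⁻¹)⁻¹)⁻¹ = (y * w * y⁻¹) * w⁻¹ := by group
  rw [h3, F.lam_mul _ hw' _ (F.V.inv_mem hw)] at h1
  by_contra hA
  have h4 : F.lam (y * w * y⁻¹) * F.lam w⁻¹ = 1 := by
    have h5 : (1 - F.lam (y * w * y⁻¹) * F.lam w⁻¹) * Aa F a y = 0 := by linear_combination h1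
    rcases mul_eq_zero.1 h5 with h | h
    · linear_combination -h
    · exact absurd h hA
  apply hne
  have h6 := lam_inv' F hw
  linear_combination (F.lam w) * h4 - (F.lam (y * w * y⁻¹)) * h6

/-- a sum supported on `V · io(T)` -/
theorem sum_SS (f : X → ℂ) (hf : ∀ y, ¬ Sp F y → f y = 0) :
    ∑ y, f y = ∑ v : F.V, ∑ s : T, f (v * F.io s) := by
  have h1 : ∑ y, f y = ∑ y : SS F, f y := by
    have h2 : ∑ y, f y = ∑ y ∈ Finset.univ.filter (fun y => y ∈ SS F), f y := by
      rw [Finset.sum_filter]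
      refine Finset.sum_congr rfl (fun y _ => ?_)
      split_ifs with h
      · rfl
      · exact hf y h
    rw [h2]
    exact Finset.sum_subtype _ (fun y => by simp) f
  rw [h1, ← Finset.sum_product', ← Equiv.sum_comp (eS F)]
  rfl

theorem ph_conv {a b : X → ℂ} (ha : CF a) :
    F.ph (conv a b) = conv (F.ph a) (F.ph b) := by
  funext t
  set B : X → ℂ := fun y => ∑ x, F.lam x * b (y⁻¹ * x * F.io t) with hB
  have hV : (Nat.card F.V : ℂ) ≠ 0 := by
    have : 0 < Nat.card F.V := Nat.card_pos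
    exact_mod_cast this.ne'
  -- for every `u ∈ V`
  have h1 : ∀ u ∈ F.V, F.ph (conv a b) t = ∑ y, (F.lam u * a (u * y)) * B y := by
    intro u hu
    unfold Fr.ph conv
    have e1 : ∀ x, (∑ y, a y * b (y⁻¹ * (x * F.io t))) * F.lam x =
        ∑ y, F.lam x * (a (u * y) * b (y⁻¹ * u⁻¹ * x * F.io t)) := by
      intro x
      rw [Finset.sum_mul]
      refine (Fintype.sum_equiv (Equiv.mulLeft u) _ _ (fun y => ?_)).symm
      simp only [Equiv.coe_mulLeft, mul_inv_rev, mul_assoc]
      ring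
    rw [Finset.sum_congr rfl (fun x _ => e1 x), Finset.sum_comm]
    refine Finset.sum_congr rfl (fun y _ => ?_)
    simp only [hB]
    rw [Finset.mul_sum]
    refine (Fintype.sum_equiv (Equiv.mulLeft u) _ _ (fun x => ?_)).symm
    simp only [Equiv.coe_mulLeft]
    rw [lam_mul_left F hu, show y⁻¹ * u⁻¹ * (u * x) * F.io t = y⁻¹ * x * F.io t by group]
    ring
  -- sum over `V`
  have h2 : (Nat.card F.V : ℂ) * F.ph (conv a b) t = ∑ y, Aa F a y * B y := by
    have e1 : (Nat.card F.V : ℂ) * F.ph (conv a b) t =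
        ∑ u, (if u ∈ F.V then F.ph (conv a b) t else 0) := by
      rw [← sum_mem_card, Finset.sum_mul]
      refine Finset.sum_congr rfl (fun u _ => ?_)
      split_ifs
      · rw [one_mul]
      · rw [zero_mul]
    have e2 : ∀ u, (if u ∈ F.V then F.ph (conv a b) t else 0) =
        ∑ y, (F.lam u * a (u * y)) * B y := by
      intro u
      split_ifs with hu
      · exact h1 u hu
      · simp only [F.lam_off u hu, zero_mul, Finset.sum_const_zero]
    rw [e1, Finset.sum_congr rfl (fun u _ => e2 u), Finset.sum_comm]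
    refine Finset.sum_congr rfl (fun y _ => ?_)
    rw [← Finset.sum_mul]
    rfl
  have h3 : ∀ v ∈ F.V, ∀ s, B (v * F.io s) = F.lam v * F.ph b (s⁻¹ * t) := by
    intro v hv s
    simp only [hB]
    unfold Fr.ph
    rw [Finset.mul_sum]
    -- x = v * (io s * x' * io s⁻¹)
    refine (Fintype.sum_equiv ((MulAut.conj (F.io s)).toEquiv.trans (Equiv.mulLeft v)) _ _
      (fun x => ?_)).symm
    have e0 : ((MulAut.conj (F.io s)).toEquiv.trans (Equiv.mulLeft v)) x =
        v * (F.io s * x * (F.io s)⁻¹) := rfl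
    rw [e0, lam_mul_left F hv, lam_conj F (Sp_io F s)]
    have e1 : (v * F.io s)⁻¹ * (v * (F.io s * x * (F.io s)⁻¹)) * F.io t =
        x * F.io (s⁻¹ * t) := by
      simp only [map_mul, map_inv]; group
    rw [e1]
    ring
  have h4 : ∑ y, Aa F a y * B y = (Nat.card F.V : ℂ) * conv (F.ph a) (F.ph b) t := by
    rw [sum_SS F _ (fun y hy => by rw [Aa_off F ha hy, zero_mul])]
    have e1 : ∀ v : F.V, ∑ s : T, Aa F a (v * F.io s) * B (v * F.io s) =
        conv (F.ph a) (F.ph b) t := by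
      intro v
      unfold conv
      refine Finset.sum_congr rfl (fun s _ => ?_)
      rw [Aa_mul F a v.2, Aa_io, h3 v v.2]
      have := lam_inv' F v.2
      linear_combination (F.ph a s * F.ph b (s⁻¹ * t)) * this
    rw [Finset.sum_congr rfl (fun v _ => e1 v), Finset.sum_const, Finset.card_univ,
      nsmul_eq_mul, ← Nat.card_eq_fintype_card]
  rw [h4] at h2
  exact mul_left_cancel₀ hV h2

/-- Module F2. -/
theorem f2 : T_F2 := by
  intro ℓ X T _ _ _ _ F a b ha hb
  exact ph_conv F ha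

end Pool.Agent.H36.AM
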