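import Pool.Agent.H36.AM.Ext

/-!
# Critical almost Mathieu operator (MP_29bb0a_mp), module K1: little weight at the weak sites (helper36)
-/

open Polynomial
open scoped ComplexConjugate

noncomputable section

namespace Pool.Agent.H36.AM

open Pool.Agent.H98.AM

section chain
variable {x : ℕ} [NeZero x]

/-- the eigenvalues of the open chain are the roots of the discriminant, without repetition -/
theorem ev_roots (hC1 : T_C1) (hC5 : T_C5) (hD1 : T_D1) (px : ℤ) (hcop : IsCoprime px (x : ℤ))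
    (hx : 3 ≤ x) {ι : Type} [Fintype ι] (φ : OrthonormalBasis ι ℂ (Rg x)) (e : ι → ℝ)
    (hEB : IsEB (Fi px x 0 1) φ e) :
    (∀ i, (Dl px x).eval (e i) = 0) ∧ Function.Injective e := by
  classical
  have h1 := hC1 px x 0 1 ι φ e hcop hx (by simp) hEB
  have htt : tt x 0 1 = 0 := by
    unfold tt
    rw [mul_zero, ex_zero]
    simp
  have hpoly : Dl px x = ∏ i, (X - C (e i)) := by
    have hinj : Function.Injective (Complex.ofRealHom : ℝ →+* ℂ) := Complex.ofRealHom.injective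
    apply Polynomial.map_injective _ hinj
    apply Polynomial.funext
    intro z
    rw [Polynomial.eval_map, Polynomial.map_prod, Polynomial.eval_prod]
    have h2 := h1 z
    rw [htt] at h2
    simp only [Complex.ofReal_zero, sub_zero] at h2
    rw [Polynomial.aeval_def] at h2
    change eval₂ (algebraMap ℝ ℂ) z (Dl px x) = _
    rw [← h2]
    refine Finset.prod_congr rfl fun i _ => ?_
    simp
  refine ⟨fun i => ?_, fun i j hij => ?_⟩
  · rw [hpoly, Polynomial.eval_prod]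
    apply Finset.prod_eq_zero (Finset.mem_univ i)
    simp
  · by_contra hne
    have hroot : (Dl px x).eval (e i) = 0 := by
      rw [hpoly, Polynomial.eval_prod]
      apply Finset.prod_eq_zero (Finset.mem_univ i)
      simp
    apply hD1 x (Dl px x) (hC5 px x hcop hx) (by omega) (e i) hroot
    have hdvd : (X - C (e i)) ^ 2 ∣ Dl px x := by
      rw [hpoly, ← Finset.mul_prod_erase Finset.univ _ (Finset.mem_univ i),
        ← Finset.mul_prod_erase (Finset.univ.erase i) _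
          (Finset.mem_erase.mpr ⟨Ne.symm hne, Finset.mem_univ j⟩), ← hij, ← mul_assoc, ← pow_two]
      exact dvd_mul_right _ _
    obtain ⟨q, hq⟩ := hdvd
    rw [hq]
    simp [Polynomial.derivative_mul, Polynomial.derivative_pow]

open Classical in
/-- sum of the end weights over a window without heavy roots -/
theorem near_sum (hC1 : T_C1) (hC5 : T_C5) (hD1 : T_D1) (hD9 : T_D9) (px : ℤ)
    (hcop : IsCoprime px (x : ℤ)) (hx : 3 ≤ x) {ι : Type} [Fintype ι]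
    (φ : OrthonormalBasis ι ℂ (Rg x)) (e : ι → ℝ) (hEB : IsEB (Fi px x 0 1) φ e) (E : ℝ)
    (hNH : NoHeavy px x E ((x : ℝ) ^ (-(7 / 4) : ℝ))) :
    ∑ i ∈ Finset.univ.filter (fun i => e i ∈ win E ((x : ℝ) ^ (-(7 / 4) : ℝ))),
      (x : ℝ) * om (Dl px x) (e i) ≤ 2 * (x : ℝ) ^ (-(1 / 4) : ℝ) := by
  classical
  obtain ⟨hr, hinj⟩ := ev_roots hC1 hC5 hD1 px hcop hx φ e hEB
  have hx0 : (0 : ℝ) < x := by exact_mod_cast (show 0 < x by omega)
  have hx1 : (1 : ℝ) ≤ x := by exact_mod_cast (show 1 ≤ x by omega)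
  set ρ : ℝ := (x : ℝ) ^ (-(7 / 4) : ℝ) with hρ
  have hρ0 : 0 < ρ := Real.rpow_pos_of_pos hx0 _
  have hD : Disc x (Dl px x) := hC5 px x hcop hx
  have hDne : Dl px x ≠ 0 := hD.mon.ne_zero
  set w : ℝ := (x : ℝ) ^ (-(5 / 4) : ℝ) with hw
  have h9 := hD9 x (Dl px x) hD (by omega)
    ((Finset.univ.filter (fun i => e i ∈ win E ρ)).image e) (E - ρ) (E + ρ) w ?_ (by linarith)
    (Real.rpow_nonneg hx0.le _)
  · rw [Finset.sum_image (fun i _ j _ hij => hinj hij)] at h9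
    rw [← Finset.mul_sum]
    calc (x : ℝ) * ∑ i ∈ Finset.univ.filter (fun i => e i ∈ win E ρ), om (Dl px x) (e i)
        ≤ x * ((E + ρ - (E - ρ)) / 4 + w) := mul_le_mul_of_nonneg_left h9 hx0.le
      _ = (x * ρ) / 2 + x * w := by ring
      _ = (x : ℝ) ^ (-(3 / 4) : ℝ) / 2 + (x : ℝ) ^ (-(1 / 4) : ℝ) := by
        congr 1
        · rw [hρ]
          nth_rewrite 1 [← Real.rpow_one (x : ℝ)]
          rw [← Real.rpow_add hx0]
          norm_num
        · rw [hw]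
          nth_rewrite 1 [← Real.rpow_one (x : ℝ)]
          rw [← Real.rpow_add hx0]
          norm_num
      _ ≤ 2 * (x : ℝ) ^ (-(1 / 4) : ℝ) := by
        have h1 : (x : ℝ) ^ (-(3 / 4) : ℝ) ≤ (x : ℝ) ^ (-(1 / 4) : ℝ) :=
          Real.rpow_le_rpow_of_exponent_le hx1 (by norm_num)
        have h2 : 0 ≤ (x : ℝ) ^ (-(1 / 4) : ℝ) := Real.rpow_nonneg hx0.le _
        linarith
  · intro z hz
    rw [Finset.mem_image] at hz
    obtain ⟨i, hi, rfl⟩ := hz
    rw [Finset.mem_filter] at hi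
    have hi2 : |e i - E| ≤ ρ := hi.2
    refine ⟨hr i, ?_, ?_, ?_⟩
    · linarith [(abs_le.mp hi2).1]
    · linarith [(abs_le.mp hi2).2]
    · by_contra hc
      push Not at hc
      have h3 : e i ∈ (Dl px x).roots := by
        rw [Polynomial.mem_roots hDne]
        exact hr i
      have h4 := hNH (e i) h3 (by
        have : (x : ℝ) ^ (-(1 / 4) : ℝ) = x * w := by
          rw [hw]
          nth_rewrite 2 [← Real.rpow_one (x : ℝ)]
          rw [← Real.rpow_add hx0]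
          norm_num
        rw [this]
        exact mul_le_mul_of_nonneg_left hc.le hx0.le)
      rw [abs_sub_comm] at h4
      linarith

/-- value at an end of the chain -/
theorem end_value (hC1 : T_C1) (hC5 : T_C5) (hD1 : T_D1) (hD9 : T_D9) (hG1 : T_G1) (px : ℤ)
    (hcop : IsCoprime px (x : ℤ)) (hx : 3 ≤ x) {ι : Type} [Fintype ι]
    (φ : OrthonormalBasis ι ℂ (Rg x)) (e : ι → ℝ) (hEB : IsEB (Fi px x 0 1) φ e) (E : ℝ)
    (hNH : NoHeavy px x E ((x : ℝ) ^ (-(7 / 4) : ℝ))) (j : ZMod x)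
    (hj : ∀ i, ‖φ i j‖ ^ 2 = x * om (Dl px x) (e i)) (f : Rg x) :
    ‖f j‖ ^ 2 ≤ 4 * (x : ℝ) ^ (-(1 / 4) : ℝ) * ‖f‖ ^ 2
      + 2 * (x : ℝ) ^ (7 / 2 : ℝ) * ‖Fi px x 0 1 f - (E : ℂ) • f‖ ^ 2 := by
  classical
  have hx0 : (0 : ℝ) < x := by exact_mod_cast (show 0 < x by omega)
  set ρ : ℝ := (x : ℝ) ^ (-(7 / 4) : ℝ) with hρ
  have hρ0 : 0 < ρ := Real.rpow_pos_of_pos hx0 _
  obtain ⟨-, -, -, -, -, hdec, -, -, hout, hcompl⟩ := hG1 _ ι _ φ e hEB
  have h1 := hdec (win E ρ) f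
  rw [hcompl] at h1
  set a := pj φ e (win E ρ) f with ha
  set b := pj φ e (wout E ρ) f with hb
  have hfj : f j = a j + b j := by
    rw [← h1]; rfl
  have hcoord : ∀ h : Rg x, ‖h j‖ ≤ ‖h‖ := fun h => PiLp.norm_apply_le h j
  have hbj : ‖b j‖ ^ 2 ≤ (x : ℝ) ^ (7 / 2 : ℝ) * ‖Fi px x 0 1 f - (E : ℂ) • f‖ ^ 2 := by
    have h2 := hout E ρ f hρ0.le
    rw [← hb] at h2
    have h3 : ‖b j‖ ^ 2 ≤ ‖b‖ ^ 2 := pow_le_pow_left₀ (norm_nonneg _) (hcoord b) 2
    have h4 : (ρ * ‖b‖) ^ 2 ≤ ‖Fi px x 0 1 f - (E : ℂ) • f‖ ^ 2 :=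
      pow_le_pow_left₀ (by positivity) h2 2
    have h5 : (x : ℝ) ^ (7 / 2 : ℝ) * ρ ^ 2 = 1 := by
      rw [hρ, ← Real.rpow_natCast ((x : ℝ) ^ (-(7 / 4) : ℝ)) 2, ← Real.rpow_mul hx0.le,
        ← Real.rpow_add hx0]
      norm_num
    calc ‖b j‖ ^ 2 ≤ ‖b‖ ^ 2 := h3
      _ = (x : ℝ) ^ (7 / 2 : ℝ) * (ρ * ‖b‖) ^ 2 := by
        rw [mul_pow, ← mul_assoc, h5, one_mul]
      _ ≤ _ := mul_le_mul_of_nonneg_left h4 (Real.rpow_nonneg hx0.le _)
  have haj : ‖a j‖ ^ 2 ≤ 2 * (x : ℝ) ^ (-(1 / 4) : ℝ) * ‖f‖ ^ 2 := by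
    have e1 : a j = ∑ i ∈ Finset.univ.filter (fun i => e i ∈ win E ρ), φ i j * inner ℂ (φ i) f := by
      rw [ha]
      unfold pj
      rw [WithLp.ofLp_sum, Finset.sum_apply, Finset.sum_filter]
      refine Finset.sum_congr rfl fun i _ => ?_
      split_ifs
      · rw [PiLp.smul_apply, smul_eq_mul, mul_comm]
      · rfl
    have e2 : ‖a j‖ ≤ ∑ i ∈ Finset.univ.filter (fun i => e i ∈ win E ρ), ‖φ i j‖ * ‖inner ℂ (φ i) f‖ := by
      rw [e1]
      refine (norm_sum_le _ _).trans (le_of_eq ?_)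
      refine Finset.sum_congr rfl fun i _ => ?_
      rw [norm_mul]
    have e3 := Finset.sum_mul_sq_le_sq_mul_sq (Finset.univ.filter (fun i => e i ∈ win E ρ))
      (fun i => ‖φ i j‖) (fun i => ‖inner ℂ (φ i) f‖)
    have e4 : ∑ i ∈ Finset.univ.filter (fun i => e i ∈ win E ρ), ‖φ i j‖ ^ 2
        ≤ 2 * (x : ℝ) ^ (-(1 / 4) : ℝ) := by
      rw [Finset.sum_congr rfl fun i _ => hj i]
      exact near_sum hC1 hC5 hD1 hD9 px hcop hx φ e hEB E hNH
    have e5 : ∑ i ∈ Finset.univ.filter (fun i => e i ∈ win E ρ), ‖inner ℂ (φ i) f‖ ^ 2 ≤ ‖f‖ ^ 2 := by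
      rw [← φ.sum_sq_norm_inner_right f]
      exact Finset.sum_le_sum_of_subset_of_nonneg (Finset.filter_subset _ _)
        (fun i _ _ => sq_nonneg _)
    calc ‖a j‖ ^ 2 ≤ (∑ i ∈ Finset.univ.filter (fun i => e i ∈ win E ρ),
          ‖φ i j‖ * ‖inner ℂ (φ i) f‖) ^ 2 := pow_le_pow_left₀ (norm_nonneg _) e2 2
      _ ≤ _ := e3
      _ ≤ _ := mul_le_mul e4 e5 (Finset.sum_nonneg fun i _ => sq_nonneg _)
        (by have := Real.rpow_nonneg hx0.le (-(1 / 4) : ℝ); positivity)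
  have h6 : ‖f j‖ ^ 2 ≤ 2 * ‖a j‖ ^ 2 + 2 * ‖b j‖ ^ 2 := by
    rw [hfj]
    have := norm_add_le (a j) (b j)
    have h7 : ‖a j + b j‖ ^ 2 ≤ (‖a j‖ + ‖b j‖) ^ 2 := pow_le_pow_left₀ (norm_nonneg _) this 2
    nlinarith [sq_nonneg (‖a j‖ - ‖b j‖)]
  linarith

end chain

section cell
variable {x M y : ℕ} [NeZero x] [NeZero y] [NeZero M]

/-- restriction to a cell -/
def cellf (x : ℕ) [NeZero x] (g : Rg (M * y)) (c : ZMod (M * y)) : Rg x :=
  WithLp.toLp 2 fun k => g (c + (k.val : ℕ))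

theorem cell_cmp (px : ℤ) (b : ZMod (M * y) → ℂ) (g : Rg (M * y)) (c : ZMod (M * y))
    (κ : ℝ) (hκ : ∀ k : ℕ, k ≤ x → ‖b (c + (k : ℕ)) - bnd (px / x) 0 (k : ℤ)‖ ≤ κ) (k : ZMod x) :
    ‖Fi px x 0 1 (cellf x g c) k - bop b g (c + (k.val : ℕ))‖
      ≤ κ * (‖g (c + (k.val : ℕ) - 1)‖ + ‖g (c + (k.val : ℕ) + 1)‖) := by
  have hx1 : 1 ≤ x := Nat.one_le_iff_ne_zero.mpr (NeZero.ne x)
  have hkx := ZMod.val_lt k
  have hfb : ∀ n : ZMod x, fb px x 0 1 n = bnd (px / x) 0 (n.val : ℤ) := by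
    intro n
    unfold fb
    split_ifs <;> simp
  have hb0 : bnd ((px : ℝ) / x) 0 0 = 0 := by
    unfold bnd
    simp [ex_zero]
  have hbx : bnd ((px : ℝ) / x) 0 (x : ℤ) = 0 := by
    unfold bnd
    have hx0 : (x : ℝ) ≠ 0 := by exact_mod_cast NeZero.ne x
    have : (((x : ℤ) : ℝ)) * ((px : ℝ) / x) + 0 = ((px : ℤ) : ℝ) := by
      rw [add_zero]
      push_cast
      field_simp
    rw [this, ex_int, sub_self]
  unfold Fi
  rw [bop_apply, bop_apply, hfb, hfb]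
  have T1 : ‖bnd (px / x) 0 (k.val : ℤ) * (cellf x g c) (k - 1)
      - b (c + (k.val : ℕ)) * g (c + (k.val : ℕ) - 1)‖ ≤ κ * ‖g (c + (k.val : ℕ) - 1)‖ := by
    by_cases h0 : k = 0
    · subst h0
      have h1 := hκ 0 (Nat.zero_le _)
      rw [ZMod.val_zero]
      simp only [Nat.cast_zero] at h1 ⊢
      rw [hb0] at h1 ⊢
      rw [sub_zero] at h1
      rw [zero_mul, zero_sub, norm_neg, norm_mul]
      exact mul_le_mul_of_nonneg_right h1 (norm_nonneg _)
    · have h1 : 1 ≤ k.val := Nat.one_le_iff_ne_zero.mpr (by rwa [Ne, ZMod.val_eq_zero])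
      have e1 : (cellf x g c) (k - 1) = g (c + (k.val : ℕ) - 1) := by
        change g (c + (((k - 1).val : ℕ) : ZMod (M * y))) = _
        have e2 : c + (((k - 1).val : ℕ) : ZMod (M * y)) = c + (k.val : ℕ) - 1 := by
          rw [val_sub_one_of_ne k h0, Nat.cast_sub h1, Nat.cast_one, add_sub_assoc]
        rw [e2]
      rw [e1, ← sub_mul, norm_mul, norm_sub_rev]
      exact mul_le_mul_of_nonneg_right (hκ _ hkx.le) (norm_nonneg _)
  have T2 : ‖conj (bnd (px / x) 0 ((k + 1).val : ℤ)) * (cellf x g c) (k + 1)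
      - conj (b (c + (k.val : ℕ) + 1)) * g (c + (k.val : ℕ) + 1)‖
      ≤ κ * ‖g (c + (k.val : ℕ) + 1)‖ := by
    have ecast : (c + (k.val : ℕ) + 1 : ZMod (M * y)) = c + ((k.val + 1 : ℕ) : ZMod (M * y)) := by
      push_cast
      ring
    by_cases h0 : k + 1 = 0
    · have hv : k.val + 1 = x := by
        have : k = 0 - 1 := by rw [← h0]; ring
        rw [this, val_neg_one']
        omega
      have h1 := hκ x le_rfl
      rw [hbx, sub_zero] at h1
      rw [h0, ZMod.val_zero, ecast, hv]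
      simp only [Nat.cast_zero]
      rw [hb0, map_zero, zero_mul, zero_sub, norm_neg, norm_mul, RCLike.norm_conj]
      exact mul_le_mul_of_nonneg_right h1 (norm_nonneg _)
    · have hv : (k + 1).val = k.val + 1 := by
        have h1 := val_sub_one_of_ne (k + 1) h0
        rw [add_sub_cancel_right] at h1
        have h2 : (k + 1).val ≠ 0 := by rwa [Ne, ZMod.val_eq_zero]
        omega
      have e1 : (cellf x g c) (k + 1) = g (c + ((k.val + 1 : ℕ) : ZMod (M * y))) := by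
        change g (c + (((k + 1).val : ℕ) : ZMod (M * y))) = _
        rw [hv]
      rw [e1, ecast, hv, ← sub_mul, norm_mul, ← map_sub, RCLike.norm_conj, norm_sub_rev]
      exact mul_le_mul_of_nonneg_right (hκ _ (by omega)) (norm_nonneg _)
  have e : ∀ a1 a2 b1 b2 : ℂ, a1 + a2 - (b1 + b2) = (a1 - b1) + (a2 - b2) := fun _ _ _ _ => by ring
  rw [e, mul_add]
  exact (norm_add_le _ _).trans (add_le_add T1 T2)

/-- sums over the cells at the weak sites -/
theorem cell_sum (hxy : x ≤ y) (F : ZMod (M * y) → ℝ) (hF : ∀ n, 0 ≤ F n) (c0 : ZMod (M * y)) :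
    ∑ n : ZMod (M * y), (if n.val % y = 0 then ∑ k : ZMod x, F (n + c0 + (k.val : ℕ)) else 0)
      ≤ ∑ n, F n := by
  classical
  have h1 : ∀ n : ZMod (M * y), (if n.val % y = 0 then ∑ k : ZMod x, F (n + c0 + (k.val : ℕ)) else 0)
      = ∑ k : ZMod x, (if n.val % y = 0 then F (n + c0 + (k.val : ℕ)) else 0) := by
    intro n
    split_ifs <;> simp
  rw [Finset.sum_congr rfl fun n _ => h1 n, Finset.sum_comm]
  have h2 : ∀ k : ZMod x, ∑ n : ZMod (M * y), (if n.val % y = 0 then F (n + c0 + (k.val : ℕ)) else 0)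
      = ∑ n : ZMod (M * y), (if red M y (n - c0) = ((k.val : ℕ) : ZMod y) then F n else 0) := by
    intro k
    rw [← Equiv.sum_comp (Equiv.addRight (c0 + (k.val : ℕ) : ZMod (M * y)))
      (fun n => if red M y (n - c0) = ((k.val : ℕ) : ZMod y) then F n else 0)]
    refine Finset.sum_congr rfl fun n _ => ?_
    simp only [Equiv.coe_addRight]
    have e1 : n + (c0 + (k.val : ℕ)) - c0 = n + ((k.val : ℕ) : ZMod (M * y)) := by ring
    rw [e1, map_add, map_natCast, ← add_assoc]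
    have e2 : (n.val % y = 0) ↔ (red M y n + ((k.val : ℕ) : ZMod y) = ((k.val : ℕ) : ZMod y)) := by
      rw [add_eq_right, ← red_val, ZMod.val_eq_zero]
    simp only [e2]
  rw [Finset.sum_congr rfl fun k _ => h2 k, Finset.sum_comm]
  refine Finset.sum_le_sum fun n _ => ?_
  by_cases h : ∃ k : ZMod x, red M y (n - c0) = ((k.val : ℕ) : ZMod y)
  · obtain ⟨k, hk⟩ := h
    rw [Finset.sum_eq_single k]
    · rw [if_pos hk]
    · intro k' _ hne
      rw [if_neg]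
      intro hk'
      apply hne
      rw [hk] at hk'
      have h3 := congrArg ZMod.val hk'
      rw [ZMod.val_natCast, ZMod.val_natCast, Nat.mod_eq_of_lt ((ZMod.val_lt k).trans_le hxy),
        Nat.mod_eq_of_lt ((ZMod.val_lt k').trans_le hxy)] at h3
      exact (ZMod.val_injective x h3).symm
    · intro h4
      exact absurd (Finset.mem_univ _) h4
  · push Not at h
    rw [Finset.sum_eq_zero]
    · exact hF n
    · intro k _
      rw [if_neg (h k)]

/-- norm of the projection on the weak sites -/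
theorem Qp_norm (hy : 3 ≤ y) (g : Rg (M * y)) :
    ‖Qp y g‖ ^ 2 = ∑ n : ZMod (M * y), (if n.val % y = 0 then ‖g n‖ ^ 2 + ‖g (n - 1)‖ ^ 2 else 0) := by
  rw [norm_sq_eq_sum]
  have h1 : ∀ n : ZMod (M * y), ‖(Qp y g : Rg (M * y)) n‖ ^ 2
      = (if n.val % y = 0 then ‖g n‖ ^ 2 else 0) + (if n.val % y = y - 1 then ‖g n‖ ^ 2 else 0) := by
    intro n
    unfold Qp
    rw [mop_apply]
    by_cases h0 : n.val % y = 0
    · simp [h0]
      intro h2
      omega
    · by_cases h1 : n.val % y = y - 1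
      · simp [h1]
        intro h2
        omega
      · simp [h0, h1]
  rw [Finset.sum_congr rfl fun n _ => h1 n, Finset.sum_add_distrib]
  rw [← sum_sub_one (fun n : ZMod (M * y) =>
    if n.val % y = y - 1 then ‖g n‖ ^ 2 else 0), ← Finset.sum_add_distrib]
  refine Finset.sum_congr rfl fun n _ => ?_
  simp only [mod_sub_one_eq_iff (show 2 ≤ y by omega) n]
  split_ifs <;> simp

/-- the bond function at an integer -/
theorem rb_int (p : ℤ) (θ : ℝ) (m : ℤ) :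
    rb (p / y) θ (M * y) (m : ZMod (M * y)) = bnd (p / y) θ m := by
  unfold rb
  apply per_apply (M * y)
  · intro k
    have hp : Function.Periodic (bnd ((p : ℝ) / y) θ) (y : ℤ) := bnd_per p y θ
    have := hp.int_mul (M : ℤ) k
    rw [← this]
    congr 1
  · push_cast
    rw [ZMod.natCast_zmod_val]

omit [NeZero M] in
theorem phase_cmp (px py : ℤ) (θ : ℝ) (hdet : |px * y - py * x| = 1) (hθ : |θ| ≤ 1 / y)
    (j q : ℤ) (hj : |j| ≤ x) :
    ‖bnd (py / y) θ (y * q + j) - bnd (px / x) 0 j‖ ≤ 13 / y := by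
  have hy0 : (0 : ℝ) < y := by exact_mod_cast Nat.pos_of_ne_zero (NeZero.ne y)
  have hx0 : (0 : ℝ) < x := by exact_mod_cast Nat.pos_of_ne_zero (NeZero.ne x)
  unfold bnd
  have e1 : (1 : ℂ) - ex (((y * q + j : ℤ) : ℝ) * (py / y) + θ) - (1 - ex ((j : ℝ) * (px / x) + 0))
      = ex ((j : ℝ) * (px / x)) - ex ((j : ℝ) * (py / y) + θ) := by
    have : ((y * q + j : ℤ) : ℝ) * ((py : ℝ) / y) + θ
        = ((q * py : ℤ) : ℝ) + ((j : ℝ) * (py / y) + θ) := by
      push_cast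
      field_simp
      ring
    rw [this, ex_int_add, add_zero]
    ring
  rw [e1]
  refine (norm_ex_sub_ex _ _).trans ?_
  have h1 : |(px : ℝ) / x - py / y| = 1 / (x * y) := by
    have h2 : (px : ℝ) / x - py / y = ((px * y - py * x : ℤ) : ℝ) / (x * y) := by
      push_cast
      field_simp
    rw [h2, abs_div, ← Int.cast_abs, hdet, abs_of_pos (by positivity : (0 : ℝ) < x * y)]
    norm_num
  have hjR : |(j : ℝ)| ≤ x := by exact_mod_cast hj
  have h3 : |(j : ℝ) * (px / x) - ((j : ℝ) * (py / y) + θ)| ≤ 2 / y := by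
    have : (j : ℝ) * (px / x) - ((j : ℝ) * (py / y) + θ) = j * (px / x - py / y) - θ := by ring
    rw [this]
    refine (abs_sub _ _).trans ?_
    rw [abs_mul, h1]
    have h4 : |(j : ℝ)| * (1 / (x * y)) ≤ 1 / y := by
      calc |(j : ℝ)| * (1 / (x * y)) ≤ x * (1 / (x * y)) :=
            mul_le_mul_of_nonneg_right hjR (by positivity)
        _ = 1 / y := by field_simp
    have h5 : (2 : ℝ) / y = 1 / y + 1 / y := by ring
    rw [h5]
    exact add_le_add h4 hθ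
  calc 2 * Real.pi * |(j : ℝ) * (px / x) - ((j : ℝ) * (py / y) + θ)| ≤ 2 * Real.pi * (2 / y) :=
        mul_le_mul_of_nonneg_left h3 (by positivity)
    _ = (4 * Real.pi) / y := by ring
    _ ≤ 13 / y := by
        rw [div_le_div_iff_of_pos_right hy0]
        linarith [Real.pi_lt_d2]

end cell

theorem k1 (hB4 : T_B4) (hC1 : T_C1) (hC4 : T_C4) (hC5 : T_C5) (hD1 : T_D1) (hD9 : T_D9)
    (hG1 : T_G1) : T_K1 := by
  intro C0 hC0
  refine ⟨20000 * C0 ^ 2, by nlinarith, ?_⟩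
  intro px x py y M _ _ θ E D ι _ u ev hAdj hKx hθ hEB hNH hD0 hD1' f
  classical
  have hxC : (20000 : ℝ) * C0 ≤ x := le_trans (by nlinarith) hKx
  have hx3 : 3 ≤ x := by
    have : (3 : ℝ) ≤ x := by linarith
    exact_mod_cast this
  have : NeZero x := ⟨by omega⟩
  have hx0 : (0 : ℝ) < x := by linarith
  have hx1 : (1 : ℝ) ≤ x := by linarith
  have hy0 : (0 : ℝ) < y := by exact_mod_cast Nat.pos_of_ne_zero (NeZero.ne y)
  have hxy : x ≤ y := by
    have h1 := hAdj.low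
    have h2 : (x : ℝ) ≤ y := by
      by_contra hc
      push Not at hc
      nlinarith
    exact_mod_cast h2
  have hy3 : 3 ≤ y := hx3.trans hxy
  obtain ⟨-, -, -, -, hpyth, -, -, hwin, -, -⟩ := hG1 _ ι _ u ev hEB
  set g := pj u ev (win E D) f with hg
  have hgf : ‖g‖ ^ 2 ≤ ‖f‖ ^ 2 := by
    have := hpyth (win E D) f
    rw [← hg] at this
    nlinarith [sq_nonneg ‖pj u ev (win E D)ᶜ f‖]
  set a := rb (py / y) θ (M * y) with ha
  set r : Rg (M * y) := bop a g - (E : ℂ) • g with hr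
  have hrn : ‖r‖ ≤ D * ‖g‖ := hwin E D f hD0
  obtain ⟨φ, e, hφ⟩ := (hB4 x (fb px x 0 1)).1
  have hφ' : IsEB (Fi px x 0 1) φ e := hφ
  have hw := hC4 px x (Fin x) φ e hAdj.cop hx3 hφ'
  set κ : ℝ := 13 / y with hκ
  have hκ0 : 0 ≤ κ := by positivity
  set α : ℝ := 4 * (x : ℝ) ^ (-(1 / 4) : ℝ) with hα
  set β : ℝ := 2 * (x : ℝ) ^ (7 / 2 : ℝ) with hβ
  have hα0 : 0 ≤ α := by have := Real.rpow_nonneg hx0.le (-(1 / 4) : ℝ); positivity
  have hβ0 : 0 ≤ β := by have := Real.rpow_nonneg hx0.le (7 / 2 : ℝ); positivity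
  let G : ZMod (M * y) → ℝ := fun m => α * ‖g m‖ ^ 2
    + β * (2 * ‖r m‖ ^ 2 + 4 * κ ^ 2 * (‖g (m - 1)‖ ^ 2 + ‖g (m + 1)‖ ^ 2))
  have hG0 : ∀ m, 0 ≤ G m := fun m => by positivity
  -- the estimate in one cell
  have hcell : ∀ (c : ZMod (M * y)) (j : ZMod x), (∀ i, ‖φ i j‖ ^ 2 = x * om (Dl px x) (e i)) →
      (∀ k : ℕ, k ≤ x → ‖a (c + (k : ℕ)) - bnd (px / x) 0 (k : ℤ)‖ ≤ κ) →
      ‖(cellf x g c) j‖ ^ 2 ≤ ∑ k : ZMod x, G (c + (k.val : ℕ)) := by
    intro c j hj hph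
    have h1 := end_value hC1 hC5 hD1 hD9 hG1 px hAdj.cop hx3 φ e hφ' E hNH j hj (cellf x g c)
    refine h1.trans ?_
    rw [norm_sq_eq_sum, norm_sq_eq_sum]
    have h2 : ∑ k : ZMod x, G (c + (k.val : ℕ)) = α * ∑ k : ZMod x, ‖(cellf x g c) k‖ ^ 2
        + β * ∑ k : ZMod x, (2 * ‖r (c + (k.val : ℕ))‖ ^ 2 + 4 * κ ^ 2 *
          (‖g (c + (k.val : ℕ) - 1)‖ ^ 2 + ‖g (c + (k.val : ℕ) + 1)‖ ^ 2)) := by
      rw [Finset.mul_sum, Finset.mul_sum, ← Finset.sum_add_distrib]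
      rfl
    rw [h2]
    refine add_le_add le_rfl (mul_le_mul_of_nonneg_left ?_ hβ0)
    refine Finset.sum_le_sum fun k _ => ?_
    have h3 := cell_cmp px a g c κ hph k
    have h4 : (Fi px x 0 1 (cellf x g c) - (E : ℂ) • cellf x g c) k
        = r (c + (k.val : ℕ)) + (Fi px x 0 1 (cellf x g c) k - bop a g (c + (k.val : ℕ))) := by
      rw [hr]
      simp only [PiLp.sub_apply, PiLp.smul_apply, smul_eq_mul]
      have : (cellf x g c) k = g (c + (k.val : ℕ)) := rfl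
      rw [this]
      ring
    rw [h4]
    set A := ‖g (c + (k.val : ℕ) - 1)‖
    set B := ‖g (c + (k.val : ℕ) + 1)‖
    set z := Fi px x 0 1 (cellf x g c) k - bop a g (c + (k.val : ℕ))
    have h5 : ‖r (c + (k.val : ℕ)) + z‖ ^ 2 ≤ (‖r (c + (k.val : ℕ))‖ + ‖z‖) ^ 2 :=
      pow_le_pow_left₀ (norm_nonneg _) (norm_add_le _ _) 2
    have h6 : ‖z‖ ^ 2 ≤ (κ * (A + B)) ^ 2 := pow_le_pow_left₀ (norm_nonneg _) h3 2
    have h7 : (κ * (A + B)) ^ 2 ≤ 2 * κ ^ 2 * (A ^ 2 + B ^ 2) := by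
      rw [mul_pow, mul_comm 2 (κ ^ 2), mul_assoc]
      exact mul_le_mul_of_nonneg_left (by nlinarith [sq_nonneg (A - B)]) (sq_nonneg κ)
    nlinarith [sq_nonneg (‖r (c + (k.val : ℕ))‖ - ‖z‖)]
  have hsumG : ∑ m, G m = α * ‖g‖ ^ 2 + β * (2 * ‖r‖ ^ 2 + 8 * κ ^ 2 * ‖g‖ ^ 2) := by
    simp only [G]
    rw [Finset.sum_add_distrib, ← Finset.mul_sum, ← Finset.mul_sum, Finset.sum_add_distrib,
      ← Finset.mul_sum, ← Finset.mul_sum, Finset.sum_add_distrib,
      sum_sub_one (fun m => ‖g m‖ ^ 2), sum_add_one (fun m => ‖g m‖ ^ 2), ← norm_sq_eq_sum,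
      ← norm_sq_eq_sum]
    ring
  -- weak sites as integers
  have hint : ∀ n : ZMod (M * y), n.val % y = 0 → ∃ q : ℤ, n = ((y * q : ℤ) : ZMod (M * y)) := by
    intro n hn
    refine ⟨(n.val / y : ℕ), ?_⟩
    have h1 : n.val = y * (n.val / y) := by
      have := Nat.div_add_mod n.val y
      omega
    have h2 : ((y : ℤ) * ((n.val / y : ℕ) : ℤ)) = (n.val : ℤ) := by
      conv_rhs => rw [h1]
      push_cast
      rfl
    rw [h2]
    push_cast
    rw [ZMod.natCast_zmod_val]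
  have hR : ∑ n : ZMod (M * y), (if n.val % y = 0 then ‖g n‖ ^ 2 else 0) ≤ ∑ m, G m := by
    refine le_trans ?_ (cell_sum hxy G hG0 0)
    refine Finset.sum_le_sum fun n _ => ?_
    split_ifs with hn
    · obtain ⟨q, hq⟩ := hint n hn
      have h1 := hcell n 0 (fun i => (hw i).1) (by
        intro k hk
        have e1 : n + ((k : ℕ) : ZMod (M * y)) = ((y * q + k : ℤ) : ZMod (M * y)) := by
          rw [hq]
          push_cast
          ring
        rw [ha, e1, rb_int]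
        exact phase_cmp px py θ hAdj.det hθ k q (by
          rw [abs_of_nonneg (by positivity)]
          exact_mod_cast hk))
      have h2 : (cellf x g n) 0 = g n := by
        change g (n + (((0 : ZMod x).val : ℕ) : ZMod (M * y))) = g n
        rw [ZMod.val_zero, Nat.cast_zero, add_zero]
      rw [h2] at h1
      simpa using h1
    · exact le_rfl
  have hL : ∑ n : ZMod (M * y), (if n.val % y = 0 then ‖g (n - 1)‖ ^ 2 else 0) ≤ ∑ m, G m := by
    refine le_trans ?_ (cell_sum hxy G hG0 (-(x : ZMod (M * y))))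
    refine Finset.sum_le_sum fun n _ => ?_
    split_ifs with hn
    · obtain ⟨q, hq⟩ := hint n hn
      have h1 := hcell (n + -(x : ZMod (M * y))) (-1) (fun i => (hw i).2) (by
        intro k hk
        have e1 : n + -(x : ZMod (M * y)) + ((k : ℕ) : ZMod (M * y))
            = ((y * q + (k - x) : ℤ) : ZMod (M * y)) := by
          rw [hq]
          push_cast
          ring
        have e2 : bnd ((px : ℝ) / x) 0 (k : ℤ) = bnd (px / x) 0 ((k : ℤ) - x) := by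
          have := bnd_per px x 0 ((k : ℤ) - x)
          rw [sub_add_cancel] at this
          exact this
        rw [ha, e1, rb_int, e2]
        exact phase_cmp px py θ hAdj.det hθ ((k : ℤ) - x) q (by
          rw [abs_le]
          constructor <;> omega))
      have h2 : (cellf x g (n + -(x : ZMod (M * y)))) (-1) = g (n - 1) := by
        change g (n + -(x : ZMod (M * y)) + (((-1 : ZMod x).val : ℕ) : ZMod (M * y))) = g (n - 1)
        have h3 : (-1 : ZMod x) = 0 - 1 := by ring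
        have h4 : n + -(x : ZMod (M * y)) + (((-1 : ZMod x).val : ℕ) : ZMod (M * y)) = n - 1 := by
          rw [h3, val_neg_one', Nat.cast_sub (by omega), Nat.cast_one]
          ring
        rw [h4]
      rw [h2] at h1
      exact h1
    · exact le_rfl
  -- conclusion
  have hQ : ‖Qp y g‖ ^ 2 ≤ 2 * ∑ m, G m := by
    rw [Qp_norm hy3]
    have : ∀ n : ZMod (M * y), (if n.val % y = 0 then ‖g n‖ ^ 2 + ‖g (n - 1)‖ ^ 2 else 0)
        = (if n.val % y = 0 then ‖g n‖ ^ 2 else 0) + (if n.val % y = 0 then ‖g (n - 1)‖ ^ 2 else 0) := by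
      intro n
      split_ifs <;> simp
    rw [Finset.sum_congr rfl fun n _ => this n, Finset.sum_add_distrib]
    linarith
  refine hQ.trans ?_
  rw [hsumG]
  have hr2 : ‖r‖ ^ 2 ≤ (1 / y) ^ 2 * ‖g‖ ^ 2 := by
    rw [← mul_pow]
    exact pow_le_pow_left₀ (norm_nonneg _)
      (hrn.trans (mul_le_mul_of_nonneg_right hD1' (norm_nonneg _))) 2
  have hκ2 : κ ^ 2 = 169 * (1 / y) ^ 2 := by
    rw [hκ]
    ring
  have h1 : 2 * ‖r‖ ^ 2 + 8 * κ ^ 2 * ‖g‖ ^ 2 ≤ 1354 * (1 / y) ^ 2 * ‖g‖ ^ 2 := by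
    rw [hκ2]
    nlinarith
  have h2 : β * (1 / y) ^ 2 ≤ 2 * C0 ^ 2 * (x : ℝ) ^ (-(1 / 4) : ℝ) := by
    have h3 : (1 : ℝ) / y ≤ C0 * (x : ℝ) ^ (-2 : ℝ) := by
      rw [div_le_iff₀ hy0]
      have h4 : (x : ℝ) ^ (-2 : ℝ) * (x : ℝ) ^ 2 = 1 := by
        rw [← Real.rpow_natCast (x : ℝ) 2, ← Real.rpow_add hx0]
        norm_num
      have h5 : 0 ≤ (x : ℝ) ^ (-2 : ℝ) := Real.rpow_nonneg hx0.le _
      have h6 := mul_le_mul_of_nonneg_left hAdj.low h5
      rw [h4] at h6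
      nlinarith
    have h4 : ((1 : ℝ) / y) ^ 2 ≤ (C0 * (x : ℝ) ^ (-2 : ℝ)) ^ 2 :=
      pow_le_pow_left₀ (by positivity) h3 2
    calc β * (1 / y) ^ 2 ≤ β * (C0 * (x : ℝ) ^ (-2 : ℝ)) ^ 2 :=
          mul_le_mul_of_nonneg_left h4 hβ0
      _ = 2 * C0 ^ 2 * ((x : ℝ) ^ (7 / 2 : ℝ) * ((x : ℝ) ^ (-2 : ℝ)) ^ 2) := by rw [hβ]; ring
      _ = 2 * C0 ^ 2 * (x : ℝ) ^ (-(1 / 2) : ℝ) := by
          rw [← Real.rpow_natCast ((x : ℝ) ^ (-2 : ℝ)) 2, ← Real.rpow_mul hx0.le,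
            ← Real.rpow_add hx0]
          norm_num
      _ ≤ 2 * C0 ^ 2 * (x : ℝ) ^ (-(1 / 4) : ℝ) := by
          apply mul_le_mul_of_nonneg_left _ (by positivity)
          exact Real.rpow_le_rpow_of_exponent_le hx1 (by norm_num)
  set X : ℝ := (x : ℝ) ^ (-(1 / 4) : ℝ) with hX
  have hX0 : 0 ≤ X := Real.rpow_nonneg hx0.le _
  have hg2 : 0 ≤ ‖g‖ ^ 2 := sq_nonneg _
  calc 2 * (α * ‖g‖ ^ 2 + β * (2 * ‖r‖ ^ 2 + 8 * κ ^ 2 * ‖g‖ ^ 2))
      ≤ 2 * (α * ‖g‖ ^ 2 + β * (1354 * (1 / y) ^ 2 * ‖g‖ ^ 2)) := by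
        have := mul_le_mul_of_nonneg_left h1 hβ0
        linarith
    _ = 2 * (4 * X + 1354 * (β * (1 / y) ^ 2)) * ‖g‖ ^ 2 := by rw [hα]; ring
    _ ≤ 2 * (4 * X + 1354 * (2 * C0 ^ 2 * X)) * ‖g‖ ^ 2 := by
        apply mul_le_mul_of_nonneg_right _ hg2
        linarith
    _ ≤ 20000 * C0 ^ 2 * X * ‖g‖ ^ 2 := by
        apply mul_le_mul_of_nonneg_right _ hg2
        have hC2 : 1 ≤ C0 ^ 2 := by nlinarith
        have h3 := mul_le_mul_of_nonneg_right hC2 hX0
        have h4 : 0 ≤ C0 ^ 2 * X := by positivity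
        linarith
    _ ≤ 20000 * C0 ^ 2 * X * ‖f‖ ^ 2 := mul_le_mul_of_nonneg_left hgf (by positivity)

end Pool.Agent.H36.AM
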