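import Pool.Agent.H36.AM.Base

/-!
# Critical almost Mathieu operator (MP_29bb0a_mp), module K2: the commutator bound (helper36)
-/

open Polynomial
open scoped ComplexConjugate

noncomputable section

namespace Pool.Agent.H36.AM

open Pool.Agent.H98.AM

section k2
variable {M y : ℕ} [NeZero y] [NeZero M]

/-- the position inside the cell -/
def pos (M y : ℕ) [NeZero y] [NeZero M] (n : ZMod (M * y)) : ℝ :=
  ((n.val % y : ℕ) : ℝ) - ((y : ℝ) - 1) / 2

theorem abs_pos_le (n : ZMod (M * y)) : |pos M y n| ≤ (y : ℝ) / 2 := by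
  have h := Nat.mod_lt n.val (Nat.pos_of_ne_zero (NeZero.ne y))
  have h1 : ((n.val % y : ℕ) : ℝ) + 1 ≤ y := by exact_mod_cast h
  have h2 : (0 : ℝ) ≤ ((n.val % y : ℕ) : ℝ) := Nat.cast_nonneg _
  unfold pos
  rw [abs_le]
  constructor <;> linarith

/-- position multiplication operator -/
def posOp (M y : ℕ) [NeZero y] [NeZero M] : Rg (M * y) →ₗ[ℂ] Rg (M * y) :=
  mop fun n => ((pos M y n : ℝ) : ℂ)

theorem norm_posOp (f : Rg (M * y)) : ‖posOp M y f‖ ≤ (y : ℝ) / 2 * ‖f‖ := by
  apply norm_mop_le _ _ (by positivity)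
  intro n
  rw [Complex.norm_real, Real.norm_eq_abs]
  exact abs_pos_le n

theorem pos_sub (hy : 3 ≤ y) (n : ZMod (M * y)) :
    pos M y (n - 1) - pos M y n = -1 + (if n.val % y = 0 then (y : ℝ) else 0) := by
  unfold pos
  by_cases h : n.val % y = 0
  · rw [mod_sub_one_of_eq n h, h, if_pos rfl]
    rw [Nat.cast_sub (by omega)]
    push_cast
    ring
  · rw [mod_sub_one_of_ne n h, if_neg h]
    rw [Nat.cast_sub (by omega)]
    push_cast
    ring

/-- the commutator of a ring operator with the position -/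
theorem comm_pos (hy : 3 ≤ y) (a : ZMod (M * y) → ℂ) (g : Rg (M * y)) (n : ZMod (M * y)) :
    bop (fun n => Complex.I * a n) g n
      = -Complex.I * ((bop a (posOp M y g) n - posOp M y (bop a g) n)
        - y * ((if n.val % y = 0 then a n * g (n - 1) else 0)
          - (if (n + 1).val % y = 0 then conj (a (n + 1)) * g (n + 1) else 0))) := by
  have h1 := pos_sub hy n
  have h2 := pos_sub hy (n + 1)
  rw [add_sub_cancel_right] at h2
  simp only [bop_apply, posOp, mop_apply, map_mul, Complex.conj_I]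
  have e1 : ((pos M y (n - 1) : ℝ) : ℂ) = (pos M y n : ℝ) - 1 + (if n.val % y = 0 then (y : ℂ) else 0) := by
    have : pos M y (n - 1) = pos M y n - 1 + (if n.val % y = 0 then (y : ℝ) else 0) := by linarith
    rw [this]
    push_cast
    split_ifs <;> simp
  have e2 : ((pos M y (n + 1) : ℝ) : ℂ)
      = (pos M y n : ℝ) + 1 - (if (n + 1).val % y = 0 then (y : ℂ) else 0) := by
    have : pos M y (n + 1) = pos M y n + 1 - (if (n + 1).val % y = 0 then (y : ℝ) else 0) := by
      linarith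
    rw [this]
    push_cast
    split_ifs <;> simp
  rw [e1, e2]
  split_ifs <;> ring_nf <;> simp only [Complex.I_sq] <;> ring

theorem k2 (hG1 : T_G1) : T_K2 := by
  intro py y M _ _ θ E D ι _ u ev hy hθ hEB hD f
  obtain ⟨-, -, -, -, hpyth, -, -, hwin, -, -⟩ := hG1 _ ι _ u ev hEB
  set g := pj u ev (win E D) f with hg
  have hgf : ‖g‖ ≤ ‖f‖ := by
    have := hpyth (win E D) f
    rw [← hg] at this
    exact le_of_sq_le_sq (by nlinarith [sq_nonneg ‖pj u ev (win E D)ᶜ f‖]) (norm_nonneg _)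
  set H := Tr (py / y) θ (M * y) with hH
  set a := rb (py / y) θ (M * y) with ha
  have hHa : H = bop a := rfl
  -- the boundary sum
  set R : ℂ := ∑ n, conj (g n) * ((if n.val % y = 0 then a n * g (n - 1) else 0)
          - (if (n + 1).val % y = 0 then conj (a (n + 1)) * g (n + 1) else 0)) with hR
  have hinner : inner ℂ g (bop (fun n => Complex.I * a n) g)
      = -Complex.I * ((inner ℂ g (H (posOp M y g)) - inner ℂ g (posOp M y (H g))) - y * R) := by
    rw [inner_eq_sum, inner_eq_sum, inner_eq_sum, hR, ← Finset.sum_sub_distrib, Finset.mul_sum,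
      ← Finset.sum_sub_distrib, Finset.mul_sum]
    refine Finset.sum_congr rfl fun n _ => ?_
    rw [comm_pos hy a g n, hHa]
    ring
  have hcomm : inner ℂ g (H (posOp M y g)) - inner ℂ g (posOp M y (H g))
      = inner ℂ (H g - (E : ℂ) • g) (posOp M y g) - inner ℂ (posOp M y g) (H g - (E : ℂ) • g) := by
    have h1 : inner ℂ g (H (posOp M y g)) = inner ℂ (H g) (posOp M y g) := (bop_symm a g _).symm
    have h2 : inner ℂ g (posOp M y (H g)) = inner ℂ (posOp M y g) (H g) :=
      (mop_symm (pos M y) g _).symm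
    have h3 : inner ℂ g (posOp M y g) = inner ℂ (posOp M y g) g := (mop_symm (pos M y) g _).symm
    rw [h1, h2, inner_sub_left, inner_sub_right, inner_smul_left, inner_smul_right, h3,
      Complex.conj_ofReal]
    ring
  have hD1 : ‖H g - (E : ℂ) • g‖ ≤ D * ‖g‖ := hwin E D f hD
  have hP : ‖posOp M y g‖ ≤ (y : ℝ) / 2 * ‖g‖ := norm_posOp g
  have hb1 : ‖inner ℂ g (H (posOp M y g)) - inner ℂ g (posOp M y (H g))‖ ≤ D * y * ‖g‖ ^ 2 := by
    rw [hcomm]
    refine (norm_sub_le _ _).trans ?_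
    have e1 := norm_inner_le_norm (𝕜 := ℂ) (H g - (E : ℂ) • g) (posOp M y g)
    have e2 := norm_inner_le_norm (𝕜 := ℂ) (posOp M y g) (H g - (E : ℂ) • g)
    have e3 : ‖H g - (E : ℂ) • g‖ * ‖posOp M y g‖ ≤ (D * ‖g‖) * ((y : ℝ) / 2 * ‖g‖) :=
      mul_le_mul hD1 hP (norm_nonneg _) (by positivity)
    nlinarith
  -- the boundary term
  have hRle : (y : ℝ) * ‖R‖ ≤ 7 * ‖Qp y g‖ ^ 2 := by
    have hy0 : (0 : ℝ) < y := by exact_mod_cast (show 0 < y by omega)
    have hRsplit : R = (∑ n, if n.val % y = 0 then conj (g n) * (a n * g (n - 1)) else 0)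
        - ∑ n, if n.val % y = 0 then conj (g (n - 1)) * (conj (a n) * g n) else 0 := by
      rw [hR]
      rw [← sum_add_one (fun n : ZMod (M * y) =>
        if n.val % y = 0 then conj (g (n - 1)) * (conj (a n) * g n) else 0),
        ← Finset.sum_sub_distrib]
      refine Finset.sum_congr rfl fun n _ => ?_
      rw [add_sub_cancel_right]
      split_ifs <;> ring
    have hbd : ‖R‖ ≤ ∑ n : ZMod (M * y), (if n.val % y = 0 then
        (2 * Real.pi / y) * (‖g n‖ ^ 2 + ‖g (n - 1)‖ ^ 2) else 0) := by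
      rw [hRsplit]
      refine (norm_sub_le _ _).trans ?_
      refine (add_le_add (norm_sum_le _ _) (norm_sum_le _ _)).trans ?_
      rw [← Finset.sum_add_distrib]
      refine Finset.sum_le_sum fun n _ => ?_
      by_cases h : n.val % y = 0
      · simp only [if_pos h]
        have hw : ‖a n‖ ≤ 2 * Real.pi / y := by
          rw [ha, rb_weak py θ n h]
          refine (norm_one_sub_ex θ).trans ?_
          rw [div_eq_mul_one_div]
          exact mul_le_mul_of_nonneg_left hθ (by positivity)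
        simp only [norm_mul, RCLike.norm_conj]
        have e1 : 2 * (‖g n‖ * ‖g (n - 1)‖) ≤ ‖g n‖ ^ 2 + ‖g (n - 1)‖ ^ 2 := by
          nlinarith [sq_nonneg (‖g n‖ - ‖g (n - 1)‖)]
        calc ‖g n‖ * (‖a n‖ * ‖g (n - 1)‖) + ‖g (n - 1)‖ * (‖a n‖ * ‖g n‖)
            = ‖a n‖ * (2 * (‖g n‖ * ‖g (n - 1)‖)) := by ring
          _ ≤ (2 * Real.pi / y) * (‖g n‖ ^ 2 + ‖g (n - 1)‖ ^ 2) :=
            mul_le_mul hw e1 (by positivity) (by positivity)
      · simp [if_neg h]
    have hQ : ∑ n : ZMod (M * y), (if n.val % y = 0 then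
        (2 * Real.pi / y) * (‖g n‖ ^ 2 + ‖g (n - 1)‖ ^ 2) else 0)
        = (2 * Real.pi / y) * ‖Qp y g‖ ^ 2 := by
      rw [norm_sq_eq_sum, Finset.mul_sum]
      have h1 : ∀ n : ZMod (M * y), (2 * Real.pi / y) * ‖(Qp y g : Rg (M * y)) n‖ ^ 2
          = (if n.val % y = 0 then (2 * Real.pi / y) * ‖g n‖ ^ 2 else 0)
            + (if n.val % y = y - 1 then (2 * Real.pi / y) * ‖g n‖ ^ 2 else 0) := by
        intro n
        unfold Qp
        rw [mop_apply]
        by_cases h0 : n.val % y = 0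
        · have h1 : n.val % y ≠ y - 1 := by omega
          simp [h0, h1]
          intro h2
          omega
        · by_cases h1 : n.val % y = y - 1
          · simp [h1]
            intro h2
            omega
          · simp [h0, h1]
      rw [Finset.sum_congr rfl fun n _ => h1 n, Finset.sum_add_distrib]
      rw [← sum_sub_one (fun n : ZMod (M * y) =>
        if n.val % y = y - 1 then (2 * Real.pi / y) * ‖g n‖ ^ 2 else 0), ← Finset.sum_add_distrib]
      refine Finset.sum_congr rfl fun n _ => ?_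
      simp only [mod_sub_one_eq_iff (show 2 ≤ y by omega) n]
      split_ifs <;> ring
    rw [hQ] at hbd
    have hpi : 2 * Real.pi ≤ 7 := by linarith [Real.pi_lt_d2]
    calc (y : ℝ) * ‖R‖ ≤ y * ((2 * Real.pi / y) * ‖Qp y g‖ ^ 2) :=
        mul_le_mul_of_nonneg_left hbd hy0.le
      _ = 2 * Real.pi * ‖Qp y g‖ ^ 2 := by field_simp
      _ ≤ 7 * ‖Qp y g‖ ^ 2 := mul_le_mul_of_nonneg_right hpi (sq_nonneg _)
  rw [hinner, norm_mul, norm_neg, Complex.norm_I, one_mul]
  refine (norm_sub_le _ _).trans ?_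
  have e1 : ‖(y : ℂ) * R‖ = y * ‖R‖ := by
    rw [norm_mul, Complex.norm_natCast]
  rw [e1]
  refine add_le_add (hb1.trans ?_) hRle
  have : ‖g‖ ^ 2 ≤ ‖f‖ ^ 2 := pow_le_pow_left₀ (norm_nonneg _) hgf 2
  exact mul_le_mul_of_nonneg_left this (by positivity)

end k2

end Pool.Agent.H36.AM
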