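import Pool.Agent.H36.AM.Ext

/-!
# Critical almost Mathieu operator (MP_29bb0a_mp), module K3: from rings of a low level to fibres of a
high level (helper36)
-/

open scoped ComplexConjugate

noncomputable section

namespace Pool.Agent.H36.AM

open Pool.Agent.H98.AM

/-! ## the tent function -/

/-- tent function -/
def tent (l : ℕ) (k : ℤ) : ℝ := max 0 (1 - |(k : ℝ)| / l)

theorem tent_nonneg (l : ℕ) (k : ℤ) : 0 ≤ tent l k := le_max_left _ _

theorem tent_le_one (l : ℕ) (k : ℤ) : tent l k ≤ 1 := by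
  unfold tent
  refine max_le zero_le_one ?_
  have : 0 ≤ |(k : ℝ)| / l := by positivity
  linarith

theorem tent_zero (l : ℕ) (hl : 1 ≤ l) (k : ℤ) (h : (l : ℤ) ≤ |k|) : tent l k = 0 := by
  unfold tent
  apply max_eq_left
  have hl0 : (0 : ℝ) < l := by exact_mod_cast hl
  have h1 : (l : ℝ) ≤ |(k : ℝ)| := by exact_mod_cast h
  have : 1 ≤ |(k : ℝ)| / l := by rw [le_div_iff₀ hl0]; linarith
  linarith

theorem tent_lip (l : ℕ) (hl : 1 ≤ l) (k k' : ℤ) (h : |k - k'| ≤ 1) :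
    |tent l k - tent l k'| ≤ 1 / l := by
  unfold tent
  have hl0 : (0 : ℝ) < l := by exact_mod_cast hl
  rw [max_comm 0, max_comm 0]
  refine (abs_max_sub_max_le_abs (1 - |(k : ℝ)| / l) (1 - |(k' : ℝ)| / l) 0).trans ?_
  have e : 1 - |(k : ℝ)| / l - (1 - |(k' : ℝ)| / l) = (|(k' : ℝ)| - |(k : ℝ)|) / l := by ring
  rw [e, abs_div, abs_of_pos hl0, div_le_div_iff_of_pos_right hl0]
  refine (abs_abs_sub_abs_le _ _).trans ?_
  rw [abs_sub_comm]
  exact_mod_cast h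

theorem tent_sum (l : ℕ) (hl : 2 ≤ l) :
    (l : ℝ) / 16 ≤ ∑ k ∈ Finset.Icc (-(l : ℤ)) l, tent l k * tent l (k - 1) := by
  have hl0 : (0 : ℝ) < l := by exact_mod_cast (show 0 < l by omega)
  have h1 : ∑ k ∈ Finset.Icc (1 : ℤ) ((l / 2 : ℕ) : ℤ), (1 / 4 : ℝ)
      ≤ ∑ k ∈ Finset.Icc (-(l : ℤ)) l, tent l k * tent l (k - 1) := by
    have hsub : Finset.Icc (1 : ℤ) ((l / 2 : ℕ) : ℤ) ⊆ Finset.Icc (-(l : ℤ)) l := by
      intro k hk
      rw [Finset.mem_Icc] at hk ⊢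
      omega
    refine le_trans ?_ (Finset.sum_le_sum_of_subset_of_nonneg hsub
      (fun k _ _ => mul_nonneg (tent_nonneg _ _) (tent_nonneg _ _)))
    refine Finset.sum_le_sum fun k hk => ?_
    rw [Finset.mem_Icc] at hk
    have hk2 : 2 * k ≤ l := by omega
    have hk2' : 2 * (k : ℝ) ≤ l := by exact_mod_cast hk2
    have hk1 : (1 : ℝ) ≤ k := by exact_mod_cast hk.1
    have e1 : 1 / 2 ≤ tent l k := by
      unfold tent
      refine le_trans ?_ (le_max_right _ _)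
      rw [abs_of_pos (by linarith)]
      have : (k : ℝ) / l ≤ 1 / 2 := by rw [div_le_iff₀ hl0]; linarith
      linarith
    have e2 : 1 / 2 ≤ tent l (k - 1) := by
      unfold tent
      refine le_trans ?_ (le_max_right _ _)
      push_cast
      rw [abs_of_nonneg (by linarith)]
      have : ((k : ℝ) - 1) / l ≤ 1 / 2 := by rw [div_le_iff₀ hl0]; linarith
      linarith
    nlinarith
  refine le_trans ?_ h1
  rw [Finset.sum_const, Int.card_Icc]
  have e3 : (((l / 2 : ℕ) : ℤ) + 1 - 1).toNat = l / 2 := by omega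
  rw [e3, nsmul_eq_mul]
  have h4 : (l : ℝ) ≤ 4 * ((l / 2 : ℕ) : ℝ) := by
    have : l ≤ 4 * (l / 2) := by omega
    exact_mod_cast this
  linarith

/-! ## sums -/

theorem avg_per {α : Type*} [AddCommMonoid α] (s : ℕ) [NeZero s] (P : ℤ → α)
    (hP : ∀ m, P (m + s) = P m) (k : ℤ) :
    ∑ x : ZMod s, P ((x.val : ℤ) + k) = ∑ x : ZMod s, P (x.val : ℤ) := by
  rw [← Equiv.sum_comp (Equiv.addRight (k : ZMod s)) (fun x => P (x.val : ℤ))]
  refine Finset.sum_congr rfl fun x _ => ?_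
  apply per_apply s P hP
  simp only [Equiv.coe_addRight]
  push_cast
  rw [ZMod.natCast_zmod_val, ZMod.natCast_zmod_val]

theorem sum_window {α : Type*} [AddCommMonoid α] (N : ℕ) [NeZero N] (c a : ℤ) (l : ℕ) (F : ℤ → α)
    (hF : ∀ n, (l : ℤ) < |n - a| → F n = 0) (h1 : c ≤ a - l) (h2 : a + l < c + N) :
    ∑ n : ZMod N, F (c + (n.val : ℤ)) = ∑ k ∈ Finset.Icc (-(l : ℤ)) l, F (a + k) := by
  symm
  have hval : ∀ k : ℤ, -(l : ℤ) ≤ k → k ≤ l → ((((a + k - c : ℤ) : ZMod N).val : ℕ) : ℤ) = a + k - c := by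
    intro k hk1 hk2
    rw [ZMod.val_intCast, Int.emod_eq_of_lt (by linarith) (by linarith)]
  apply Finset.sum_of_injOn (fun k : ℤ => ((a + k - c : ℤ) : ZMod N))
  · intro k hk k' hk' h
    rw [Finset.coe_Icc, Set.mem_Icc] at hk hk'
    have e1 := hval k hk.1 hk.2
    have e2 := hval k' hk'.1 hk'.2
    simp only at h
    rw [h, e2] at e1
    linarith
  · intro k _
    exact Finset.mem_coe.mpr (Finset.mem_univ _)
  · intro n _ hn
    apply hF
    by_contra hc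
    push Not at hc
    apply hn
    rw [abs_le] at hc
    refine ⟨c + n.val - a, ?_, ?_⟩
    · rw [Finset.coe_Icc, Set.mem_Icc]
      exact hc
    · simp only
      have : a + (c + (n.val : ℤ) - a) - c = (n.val : ℤ) := by ring
      rw [this]
      push_cast
      rw [ZMod.natCast_zmod_val]
  · intro k hk
    rw [Finset.mem_Icc] at hk
    rw [hval k hk.1 hk.2]
    congr 1
    ring

theorem inner_bop {N : ℕ} [NeZero N] (a : ZMod N → ℂ) (g : Rg N) :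
    inner ℂ g (bop a g) = ∑ n, conj (g n) * a n * g (n - 1) + conj (∑ n, conj (g n) * a n * g (n - 1)) := by
  rw [inner_eq_sum, map_sum]
  rw [← sum_add_one (fun n => conj (conj (g n) * a n * g (n - 1))), ← Finset.sum_add_distrib]
  refine Finset.sum_congr rfl fun n _ => ?_
  simp only [bop_apply, map_mul, Complex.conj_conj, add_sub_cancel_right]
  ring

/-! ## transplantation -/

section tr
variable {M y : ℕ} [NeZero y] [NeZero M]

/-- a function of the line moved to a ring -/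
def trp (M y : ℕ) [NeZero y] [NeZero M] (c : ℤ) (Φ : ℤ → ℂ) : Rg (M * y) :=
  WithLp.toLp 2 fun n => Φ (c + (n.val : ℤ))

@[simp] theorem trp_apply (c : ℤ) (Φ : ℤ → ℂ) (n : ZMod (M * y)) :
    trp M y c Φ n = Φ (c + (n.val : ℤ)) := rfl

theorem trp_sub_one (c : ℤ) (Φ : ℤ → ℂ) (h1 : Φ (c - 1) = 0)
    (h2 : Φ (c + ((M * y : ℕ) : ℤ) - 1) = 0) (n : ZMod (M * y)) :
    trp M y c Φ (n - 1) = Φ (c + (n.val : ℤ) - 1) := by
  rw [trp_apply]
  by_cases h : n = 0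
  · subst h
    rw [val_neg_one', ZMod.val_zero]
    have hN : 1 ≤ M * y := Nat.one_le_iff_ne_zero.mpr (NeZero.ne _)
    rw [Nat.cast_sub hN]
    have e1 : c + (((M * y : ℕ) : ℤ) - ((1 : ℕ) : ℤ)) = c + ((M * y : ℕ) : ℤ) - 1 := by
      push_cast
      ring
    rw [e1, h2]
    simp [h1]
  · have h3 : 1 ≤ n.val := Nat.one_le_iff_ne_zero.mpr (by rwa [Ne, ZMod.val_eq_zero])
    rw [val_sub_one_of_ne n h, Nat.cast_sub h3]
    congr 1
    push_cast
    ring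

theorem trp_add_one (c : ℤ) (Φ : ℤ → ℂ) (h1 : Φ c = 0)
    (h2 : Φ (c + ((M * y : ℕ) : ℤ)) = 0) (n : ZMod (M * y)) :
    trp M y c Φ (n + 1) = Φ (c + (n.val : ℤ) + 1) := by
  rw [trp_apply]
  by_cases h : n + 1 = 0
  · have hN : 1 ≤ M * y := Nat.one_le_iff_ne_zero.mpr (NeZero.ne _)
    have hv : n.val = M * y - 1 := by
      have : n = 0 - 1 := by rw [← h]; ring
      rw [this, val_neg_one']
    rw [h, ZMod.val_zero, hv, Nat.cast_sub hN]
    have e1 : c + (((M * y : ℕ) : ℤ) - ((1 : ℕ) : ℤ)) + 1 = c + ((M * y : ℕ) : ℤ) := by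
      push_cast
      ring
    rw [e1, h2]
    simpa using h1
  · have hv : (n + 1).val = n.val + 1 := by
      have h1 := val_sub_one_of_ne (n + 1) h
      rw [add_sub_cancel_right] at h1
      have h2 : (n + 1).val ≠ 0 := by rwa [Ne, ZMod.val_eq_zero]
      omega
    rw [hv]
    congr 1
    push_cast
    ring

/-- the bond function at an integer -/
theorem rb_int' (p : ℤ) (θ : ℝ) (m : ℤ) :
    rb (p / y) θ (M * y) (m : ZMod (M * y)) = bnd (p / y) θ m := by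
  unfold rb
  apply per_apply (M * y)
  · intro k
    have hp : Function.Periodic (bnd ((p : ℝ) / y) θ) (y : ℤ) := bnd_per p y θ
    have := hp.int_mul (M : ℤ) k
    rw [← this]
    congr 1
  · push_cast
    rw [ZMod.natCast_zmod_val]

theorem rb_val (p : ℤ) (θ : ℝ) (n : ZMod (M * y)) :
    rb (p / y) θ (M * y) n = bnd (p / y) θ (n.val : ℤ) := rfl

theorem rb_val_add (p : ℤ) (θ : ℝ) (n : ZMod (M * y)) :
    rb (p / y) θ (M * y) (n + 1) = bnd (p / y) θ ((n.val : ℤ) + 1) := by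
  rw [← rb_int' (M := M) p θ ((n.val : ℤ) + 1)]
  congr 1
  push_cast
  rw [ZMod.natCast_zmod_val]

theorem bnd_move (β θ θa : ℝ) (c m : ℤ) (hc : c * β + θ = θa + m) (j : ℤ) :
    bnd β θ (c + j) = bnd β θa j := by
  unfold bnd
  congr 1
  have : ((c + j : ℤ) : ℝ) * β + θ = (m : ℝ) + (j * β + θa) := by
    push_cast
    linarith
  rw [this, ex_int_add]

/-- comparison of the operators -/
theorem trp_cmp (py : ℤ) (β θ θa : ℝ) (c m : ℤ) (hc : c * β + θ = θa + m) (δ : ℝ)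
    (hδ : ∀ j : ℤ, 0 ≤ j → j ≤ ((M * y : ℕ) : ℤ) → ‖bnd β θa j - bnd (py / y) θa j‖ ≤ δ)
    (Φ : ℤ → ℂ) (h1 : Φ (c - 1) = 0) (h2 : Φ (c + ((M * y : ℕ) : ℤ) - 1) = 0) (h3 : Φ c = 0)
    (h4 : Φ (c + ((M * y : ℕ) : ℤ)) = 0) (n : ZMod (M * y)) :
    ‖bop (rb (py / y) θa (M * y)) (trp M y c Φ) n - lop β θ Φ (c + (n.val : ℤ))‖
      ≤ δ * (‖Φ (c + (n.val : ℤ) - 1)‖ + ‖Φ (c + (n.val : ℤ) + 1)‖) := by
  rw [bop_apply, trp_sub_one c Φ h1 h2, trp_add_one c Φ h3 h4, rb_val, rb_val_add]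
  unfold lop
  have hn := ZMod.val_lt n
  have e1 : bnd β θ (c + (n.val : ℤ)) = bnd β θa (n.val : ℤ) := bnd_move β θ θa c m hc _
  have e2 : bnd β θ (c + (n.val : ℤ) + 1) = bnd β θa ((n.val : ℤ) + 1) := by
    rw [add_assoc]
    exact bnd_move β θ θa c m hc _
  rw [e1, e2]
  have d1 := hδ (n.val : ℤ) (by positivity) (by exact_mod_cast hn.le)
  have d2 := hδ ((n.val : ℤ) + 1) (by positivity) (by
    have : n.val + 1 ≤ M * y := hn
    exact_mod_cast this)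
  have e : bnd (py / y) θa (n.val : ℤ) * Φ (c + (n.val : ℤ) - 1)
      + conj (bnd (py / y) θa ((n.val : ℤ) + 1)) * Φ (c + (n.val : ℤ) + 1)
      - (bnd β θa (n.val : ℤ) * Φ (c + (n.val : ℤ) - 1)
        + conj (bnd β θa ((n.val : ℤ) + 1)) * Φ (c + (n.val : ℤ) + 1))
      = -((bnd β θa (n.val : ℤ) - bnd (py / y) θa (n.val : ℤ)) * Φ (c + (n.val : ℤ) - 1)
        + conj (bnd β θa ((n.val : ℤ) + 1) - bnd (py / y) θa ((n.val : ℤ) + 1))
          * Φ (c + (n.val : ℤ) + 1)) := by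
    rw [map_sub]
    ring
  rw [e, norm_neg]
  refine (norm_add_le _ _).trans ?_
  rw [norm_mul, norm_mul, RCLike.norm_conj, mul_add]
  exact add_le_add (mul_le_mul_of_nonneg_right d1 (norm_nonneg _))
    (mul_le_mul_of_nonneg_right d2 (norm_nonneg _))

/-- comparison of the quadratic forms -/
theorem trp_form (py : ℤ) (β θ θa : ℝ) (c m : ℤ) (hc : c * β + θ = θa + m) (δ : ℝ)
    (hδ : ∀ j : ℤ, 0 ≤ j → j ≤ ((M * y : ℕ) : ℤ) → ‖bnd β θa j - bnd (py / y) θa j‖ ≤ δ)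
    (Φ : ℤ → ℂ) (h1 : Φ (c - 1) = 0) (h2 : Φ (c + ((M * y : ℕ) : ℤ) - 1) = 0) :
    ‖(∑ n : ZMod (M * y), conj (trp M y c Φ n) * (Complex.I * rb (py / y) θa (M * y) n)
          * trp M y c Φ (n - 1))
        - ∑ n : ZMod (M * y), conj (Φ (c + (n.val : ℤ))) * (Complex.I * bnd β θ (c + (n.val : ℤ)))
          * Φ (c + (n.val : ℤ) - 1)‖ ≤ δ * ‖trp M y c Φ‖ ^ 2 := by
  rw [← Finset.sum_sub_distrib]
  refine (norm_sum_le _ _).trans ?_
  have hpt : ∀ n : ZMod (M * y), ‖conj (trp M y c Φ n) * (Complex.I * rb (py / y) θa (M * y) n)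
          * trp M y c Φ (n - 1) - conj (Φ (c + (n.val : ℤ))) * (Complex.I * bnd β θ (c + (n.val : ℤ)))
          * Φ (c + (n.val : ℤ) - 1)‖
      ≤ δ * ((‖trp M y c Φ n‖ ^ 2 + ‖trp M y c Φ (n - 1)‖ ^ 2) / 2) := by
    intro n
    have hn := ZMod.val_lt n
    have e1 : bnd β θ (c + (n.val : ℤ)) = bnd β θa (n.val : ℤ) := bnd_move β θ θa c m hc _
    have d1 := hδ (n.val : ℤ) (by positivity) (by exact_mod_cast hn.le)
    rw [trp_sub_one c Φ h1 h2, rb_val, e1, trp_apply]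
    have e : conj (Φ (c + (n.val : ℤ))) * (Complex.I * bnd (py / y) θa (n.val : ℤ))
          * Φ (c + (n.val : ℤ) - 1) - conj (Φ (c + (n.val : ℤ))) * (Complex.I * bnd β θa (n.val : ℤ))
          * Φ (c + (n.val : ℤ) - 1)
        = -(conj (Φ (c + (n.val : ℤ))) * (Complex.I * (bnd β θa (n.val : ℤ)
          - bnd (py / y) θa (n.val : ℤ))) * Φ (c + (n.val : ℤ) - 1)) := by ring
    rw [e, norm_neg, norm_mul, norm_mul, norm_mul, RCLike.norm_conj, Complex.norm_I, one_mul]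
    set A := ‖Φ (c + (n.val : ℤ))‖
    set B := ‖Φ (c + (n.val : ℤ) - 1)‖
    have hδ0 : 0 ≤ δ := (norm_nonneg _).trans d1
    calc A * ‖bnd β θa (n.val : ℤ) - bnd (py / y) θa (n.val : ℤ)‖ * B ≤ A * δ * B := by
          gcongr
      _ = δ * (A * B) := by ring
      _ ≤ δ * ((A ^ 2 + B ^ 2) / 2) := by
          apply mul_le_mul_of_nonneg_left _ hδ0
          nlinarith [sq_nonneg (A - B)]
  refine (Finset.sum_le_sum fun n _ => hpt n).trans (le_of_eq ?_)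
  rw [← Finset.mul_sum, ← Finset.sum_div, Finset.sum_add_distrib,
    sum_sub_one (fun n => ‖trp M y c Φ n‖ ^ 2), ← norm_sq_eq_sum]
  ring

end tr

/-! ## one centre -/

section centre
variable {M y : ℕ} [NeZero y] [NeZero M]

/-- the function localised by the tent -/
def loc (l : ℕ) (a : ℤ) (ψ : ℤ → ℂ) (n : ℤ) : ℂ := (tent l (n - a) : ℂ) * ψ n

theorem loc_zero (l : ℕ) (hl : 1 ≤ l) (a : ℤ) (ψ : ℤ → ℂ) (n : ℤ) (h : (l : ℤ) ≤ |n - a|) :
    loc l a ψ n = 0 := by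
  unfold loc
  rw [tent_zero l hl _ h]
  simp

theorem norm_loc_le (l : ℕ) (a : ℤ) (ψ : ℤ → ℂ) (n : ℤ) : ‖loc l a ψ n‖ ≤ ‖ψ n‖ := by
  unfold loc
  rw [norm_mul, Complex.norm_real, Real.norm_eq_abs, abs_of_nonneg (tent_nonneg _ _)]
  exact mul_le_of_le_one_left (norm_nonneg _) (tent_le_one _ _)

/-- the localised function nearly satisfies the eigenvalue equation -/
theorem loc_eq (β θ E : ℝ) (l : ℕ) (hl : 1 ≤ l) (a : ℤ) (ψ ρ : ℤ → ℂ)
    (hψ : ∀ n, lop β θ ψ n = E * ψ n + ρ n) (n : ℤ) :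
    ‖lop β θ (loc l a ψ) n - E * loc l a ψ n‖ ≤ ‖ρ n‖ + 2 / l * (‖ψ (n - 1)‖ + ‖ψ (n + 1)‖) := by
  have hl0 : (0 : ℝ) < l := by exact_mod_cast hl
  have e : lop β θ (loc l a ψ) n - E * loc l a ψ n
      = (tent l (n - a) : ℂ) * ρ n
        + (bnd β θ n * ((tent l (n - 1 - a) - tent l (n - a) : ℝ) : ℂ) * ψ (n - 1)
        + conj (bnd β θ (n + 1)) * ((tent l (n + 1 - a) - tent l (n - a) : ℝ) : ℂ) * ψ (n + 1)) := by
    have h1 := hψ n
    unfold lop at h1 ⊢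
    unfold loc
    have h2 : ρ n = bnd β θ n * ψ (n - 1) + conj (bnd β θ (n + 1)) * ψ (n + 1) - E * ψ n := by
      rw [h1]; ring
    rw [h2]
    push_cast
    ring
  rw [e]
  refine (norm_add_le _ _).trans (add_le_add ?_ ?_)
  · rw [norm_mul, Complex.norm_real, Real.norm_eq_abs, abs_of_nonneg (tent_nonneg _ _)]
    exact mul_le_of_le_one_left (norm_nonneg _) (tent_le_one _ _)
  · refine (norm_add_le _ _).trans ?_
    rw [mul_add]
    refine add_le_add ?_ ?_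
    · rw [norm_mul, norm_mul, Complex.norm_real, Real.norm_eq_abs]
      apply mul_le_mul_of_nonneg_right _ (norm_nonneg _)
      calc ‖bnd β θ n‖ * |tent l (n - 1 - a) - tent l (n - a)| ≤ 2 * (1 / l) :=
            mul_le_mul (norm_bnd_le _ _ _) (tent_lip l hl _ _ (by
              have : n - 1 - a - (n - a) = -1 := by ring
              rw [this]; norm_num)) (abs_nonneg _) (by norm_num)
        _ = 2 / l := by ring
    · rw [norm_mul, norm_mul, Complex.norm_real, Real.norm_eq_abs, RCLike.norm_conj]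
      apply mul_le_mul_of_nonneg_right _ (norm_nonneg _)
      calc ‖bnd β θ (n + 1)‖ * |tent l (n + 1 - a) - tent l (n - a)| ≤ 2 * (1 / l) :=
            mul_le_mul (norm_bnd_le _ _ _) (tent_lip l hl _ _ (by
              have : n + 1 - a - (n - a) = 1 := by ring
              rw [this]; norm_num)) (abs_nonneg _) (by norm_num)
        _ = 2 / l := by ring

/-- outside the window nothing happens -/
theorem loc_out (β θ E : ℝ) (l : ℕ) (hl : 1 ≤ l) (a : ℤ) (ψ : ℤ → ℂ) (n : ℤ)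
    (h : (l : ℤ) < |n - a|) :
    loc l a ψ n = 0 ∧ loc l a ψ (n - 1) = 0 ∧ loc l a ψ (n + 1) = 0 ∧
      lop β θ (loc l a ψ) n - E * loc l a ψ n = 0 := by
  have h1 : loc l a ψ n = 0 := loc_zero l hl a ψ n h.le
  have h2 : loc l a ψ (n - 1) = 0 := by
    apply loc_zero l hl
    rcases abs_cases (n - a) with ⟨h3, h4⟩ | ⟨h3, h4⟩ <;>
      rcases abs_cases (n - 1 - a) with ⟨h5, h6⟩ | ⟨h5, h6⟩ <;> omega
  have h3 : loc l a ψ (n + 1) = 0 := by
    apply loc_zero l hl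
    rcases abs_cases (n - a) with ⟨h3, h4⟩ | ⟨h3, h4⟩ <;>
      rcases abs_cases (n + 1 - a) with ⟨h5, h6⟩ | ⟨h5, h6⟩ <;> omega
  refine ⟨h1, h2, h3, ?_⟩
  unfold lop
  rw [h1, h2, h3]
  ring

/-- the estimates at one centre -/
theorem centre (py : ℤ) (β θ θa E : ℝ) (c m : ℤ) (hc : c * β + θ = θa + m) (δ : ℝ)
    (hδ : ∀ j : ℤ, 0 ≤ j → j ≤ ((M * y : ℕ) : ℤ) → ‖bnd β θa j - bnd (py / y) θa j‖ ≤ δ)
    (l : ℕ) (hl : 1 ≤ l) (a : ℤ) (h1 : c + l + 1 ≤ a) (h2 : a + l + 1 < c + ((M * y : ℕ) : ℤ))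
    (ψ ρ : ℤ → ℂ) (hψ : ∀ n, lop β θ ψ n = E * ψ n + ρ n) :
    (‖trp M y c (loc l a ψ)‖ ^ 2 = ∑ k ∈ Finset.Icc (-(l : ℤ)) l, tent l k ^ 2 * ‖ψ (a + k)‖ ^ 2) ∧
    (‖bop (rb (py / y) θa (M * y)) (trp M y c (loc l a ψ)) - (E : ℂ) • trp M y c (loc l a ψ)‖ ^ 2
      ≤ ∑ k ∈ Finset.Icc (-(l : ℤ)) l, (2 * ‖ρ (a + k)‖ ^ 2
        + 4 * (2 / l + δ) ^ 2 * (‖ψ (a + k - 1)‖ ^ 2 + ‖ψ (a + k + 1)‖ ^ 2))) ∧
    (‖inner ℂ (trp M y c (loc l a ψ)) (bop (fun n => Complex.I * rb (py / y) θa (M * y) n)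
          (trp M y c (loc l a ψ)))
        - ((∑ k ∈ Finset.Icc (-(l : ℤ)) l, ((tent l k * tent l (k - 1) : ℝ) : ℂ)
            * (conj (ψ (a + k)) * (Complex.I * bnd β θ (a + k)) * ψ (a + k - 1)))
          + conj (∑ k ∈ Finset.Icc (-(l : ℤ)) l, ((tent l k * tent l (k - 1) : ℝ) : ℂ)
            * (conj (ψ (a + k)) * (Complex.I * bnd β θ (a + k)) * ψ (a + k - 1))))‖
      ≤ 2 * δ * ‖trp M y c (loc l a ψ)‖ ^ 2) := by
  set Φ := loc l a ψ with hΦ
  have hl0 : (0 : ℝ) < l := by exact_mod_cast hl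
  have z1 : Φ (c - 1) = 0 := (loc_out β θ E l hl a ψ (c - 1) (by
    rcases abs_cases (c - 1 - a) with ⟨h5, h6⟩ | ⟨h5, h6⟩ <;> omega)).1
  have z2 : Φ (c + ((M * y : ℕ) : ℤ) - 1) = 0 := (loc_out β θ E l hl a ψ _ (by
    rcases abs_cases (c + ((M * y : ℕ) : ℤ) - 1 - a) with ⟨h5, h6⟩ | ⟨h5, h6⟩ <;> omega)).1
  have z3 : Φ c = 0 := (loc_out β θ E l hl a ψ c (by
    rcases abs_cases (c - a) with ⟨h5, h6⟩ | ⟨h5, h6⟩ <;> omega)).1
  have z4 : Φ (c + ((M * y : ℕ) : ℤ)) = 0 := (loc_out β θ E l hl a ψ _ (by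
    rcases abs_cases (c + ((M * y : ℕ) : ℤ) - a) with ⟨h5, h6⟩ | ⟨h5, h6⟩ <;> omega)).1
  have hδ0 : 0 ≤ δ := (norm_nonneg _).trans (hδ 0 le_rfl (by positivity))
  have hz : ∀ n : ℤ, (l : ℤ) < |n - a| → Φ n = 0 := fun n hn => (loc_out β θ E l hl a ψ n hn).1
  refine ⟨?_, ?_, ?_⟩
  · rw [norm_sq_eq_sum]
    have := sum_window (M * y) c a l (fun n => ‖Φ n‖ ^ 2) (fun n hn => by
      rw [hz n hn]
      simp) (by linarith) (by linarith)
    simp only [trp_apply]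
    rw [this]
    refine Finset.sum_congr rfl fun k _ => ?_
    rw [hΦ]
    unfold loc
    rw [add_sub_cancel_left, norm_mul, Complex.norm_real, Real.norm_eq_abs, mul_pow, sq_abs]
  · rw [norm_sq_eq_sum]
    have hw := sum_window (M * y) c a l (fun n => if (l : ℤ) < |n - a| then 0 else
      (2 * ‖ρ n‖ ^ 2 + 4 * (2 / l + δ) ^ 2 * (‖ψ (n - 1)‖ ^ 2 + ‖ψ (n + 1)‖ ^ 2))) (fun n hn => by
      rw [if_pos hn]) (by linarith) (by linarith)
    have hw2 : ∑ k ∈ Finset.Icc (-(l : ℤ)) l, (if (l : ℤ) < |a + k - a| then 0 else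
        (2 * ‖ρ (a + k)‖ ^ 2
          + 4 * (2 / l + δ) ^ 2 * (‖ψ (a + k - 1)‖ ^ 2 + ‖ψ (a + k + 1)‖ ^ 2)))
        = ∑ k ∈ Finset.Icc (-(l : ℤ)) l, (2 * ‖ρ (a + k)‖ ^ 2
          + 4 * (2 / l + δ) ^ 2 * (‖ψ (a + k - 1)‖ ^ 2 + ‖ψ (a + k + 1)‖ ^ 2)) := by
      refine Finset.sum_congr rfl fun k hk => ?_
      rw [Finset.mem_Icc] at hk
      rw [if_neg]
      rw [add_sub_cancel_left, not_lt, abs_le]
      exact hk
    rw [← hw2, ← hw]
    refine Finset.sum_le_sum fun n _ => ?_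
    set N := c + (n.val : ℤ) with hN
    have hcmp := trp_cmp py β θ θa c m hc δ hδ Φ z1 z2 z3 z4 n
    rw [← hN] at hcmp
    have hval : (bop (rb (py / y) θa (M * y)) (trp M y c Φ) - (E : ℂ) • trp M y c Φ) n
        = (bop (rb (py / y) θa (M * y)) (trp M y c Φ) n - lop β θ Φ N) + (lop β θ Φ N - E * Φ N) := by
      simp only [PiLp.sub_apply, PiLp.smul_apply, smul_eq_mul, trp_apply]
      ring
    rw [hval]
    by_cases hout : (l : ℤ) < |N - a|
    · rw [if_pos hout]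
      obtain ⟨o1, o2, o3, o4⟩ := loc_out β θ E l hl a ψ N hout
      rw [← hΦ] at o1 o2 o3 o4
      rw [o2, o3, norm_zero, add_zero, mul_zero] at hcmp
      rw [o4, add_zero]
      have : ‖bop (rb (py / y) θa (M * y)) (trp M y c Φ) n - lop β θ Φ N‖ = 0 :=
        le_antisymm hcmp (norm_nonneg _)
      rw [this]
      norm_num
    · rw [if_neg hout]
      have e1 := loc_eq β θ E l hl a ψ ρ hψ N
      have b1 := norm_loc_le l a ψ (N - 1)
      have b2 := norm_loc_le l a ψ (N + 1)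
      rw [← hΦ] at e1 b1 b2
      have e2 : ‖bop (rb (py / y) θa (M * y)) (trp M y c Φ) n - lop β θ Φ N‖
          ≤ δ * (‖ψ (N - 1)‖ + ‖ψ (N + 1)‖) :=
        hcmp.trans (mul_le_mul_of_nonneg_left (add_le_add b1 b2) hδ0)
      have e3 : ‖(bop (rb (py / y) θa (M * y)) (trp M y c Φ) n - lop β θ Φ N)
          + (lop β θ Φ N - E * Φ N)‖ ≤ ‖ρ N‖ + (2 / l + δ) * (‖ψ (N - 1)‖ + ‖ψ (N + 1)‖) := by
        refine (norm_add_le _ _).trans ?_
        have : (2 / (l : ℝ) + δ) * (‖ψ (N - 1)‖ + ‖ψ (N + 1)‖)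
          = 2 / l * (‖ψ (N - 1)‖ + ‖ψ (N + 1)‖) + δ * (‖ψ (N - 1)‖ + ‖ψ (N + 1)‖) := by ring
        linarith
      set A := ‖ψ (N - 1)‖
      set B := ‖ψ (N + 1)‖
      set R := ‖ρ N‖
      set η := 2 / (l : ℝ) + δ
      have e4 := pow_le_pow_left₀ (norm_nonneg _) e3 2
      refine e4.trans ?_
      have e5 : (η * (A + B)) ^ 2 ≤ 2 * η ^ 2 * (A ^ 2 + B ^ 2) := by
        rw [mul_pow, mul_comm 2 (η ^ 2), mul_assoc]
        exact mul_le_mul_of_nonneg_left (by nlinarith [sq_nonneg (A - B)]) (sq_nonneg η)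
      nlinarith [sq_nonneg (R - η * (A + B))]
  · rw [inner_bop]
    have hf := trp_form py β θ θa c m hc δ hδ Φ z1 z2
    have hw := sum_window (M * y) c a l (fun n => conj (Φ n) * (Complex.I * bnd β θ n) * Φ (n - 1))
      (fun n hn => by
        rw [hz n hn]
        simp) (by linarith) (by linarith)
    rw [hw] at hf
    have hw2 : ∑ k ∈ Finset.Icc (-(l : ℤ)) l, conj (Φ (a + k)) * (Complex.I * bnd β θ (a + k))
        * Φ (a + k - 1) = ∑ k ∈ Finset.Icc (-(l : ℤ)) l, ((tent l k * tent l (k - 1) : ℝ) : ℂ)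
            * (conj (ψ (a + k)) * (Complex.I * bnd β θ (a + k)) * ψ (a + k - 1)) := by
      refine Finset.sum_congr rfl fun k _ => ?_
      rw [hΦ]
      unfold loc
      have e1 : a + k - a = k := by ring
      have e2 : a + k - 1 - a = k - 1 := by ring
      rw [e1, e2, map_mul, Complex.conj_ofReal]
      push_cast
      ring
    rw [hw2] at hf
    set Z := ∑ n : ZMod (M * y), conj (trp M y c Φ n) * (Complex.I * rb (py / y) θa (M * y) n)
          * trp M y c Φ (n - 1)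
    set W := ∑ k ∈ Finset.Icc (-(l : ℤ)) l, ((tent l k * tent l (k - 1) : ℝ) : ℂ)
            * (conj (ψ (a + k)) * (Complex.I * bnd β θ (a + k)) * ψ (a + k - 1))
    have e : Z + conj Z - (W + conj W) = (Z - W) + conj (Z - W) := by
      rw [map_sub]; ring
    rw [e]
    refine (norm_add_le _ _).trans ?_
    rw [RCLike.norm_conj]
    linarith

/-- the form of `C` on a nearly localised function -/
theorem ring_est (hB4 : T_B4) (hG1 : T_G1) (py : ℤ) (θa E D v0 : ℝ) (hD : 0 < D)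
    (hyp : ∀ (ι : Type) [Fintype ι] (u : OrthonormalBasis ι ℂ (Rg (M * y)))
      (ev : ι → ℝ), IsEB (Tr (py / y) θa (M * y)) u ev → ∀ f,
      ‖inner ℂ (pj u ev (win E D) f) (bop (fun n => Complex.I * rb (py / y) θa (M * y) n)
        (pj u ev (win E D) f))‖ ≤ v0 * ‖f‖ ^ 2) (G : Rg (M * y)) :
    ∃ A : ℝ, 0 ≤ A ∧ D * A ≤ ‖bop (rb (py / y) θa (M * y)) G - (E : ℂ) • G‖ ∧
    ‖inner ℂ G (bop (fun n => Complex.I * rb (py / y) θa (M * y) n) G)‖
      ≤ v0 * ‖G‖ ^ 2 + 8 * A * ‖G‖ := by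
  obtain ⟨φ, e, hφ⟩ := (hB4 (M * y) (rb (py / y) θa (M * y))).1
  obtain ⟨-, -, -, -, hpyth, hdec, -, -, hout, hcompl⟩ := hG1 _ _ _ φ e hφ
  have hC : ∀ f, ‖bop (fun n => Complex.I * rb (py / y) θa (M * y) n) f‖ ≤ 2 * 2 * ‖f‖ :=
    ((hB4 (M * y) (fun n => Complex.I * rb (py / y) θa (M * y) n)).2 2 (fun n => by
      rw [norm_mul, Complex.norm_I, one_mul]
      exact norm_bnd_le _ _ _)).1
  set C := bop (fun n => Complex.I * rb (py / y) θa (M * y) n) with hCdef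
  set P := pj φ e (win E D) G with hP
  set Q := pj φ e (wout E D) G with hQ
  have h1 : P + Q = G := by
    have := hdec (win E D) G
    rw [hcompl] at this
    exact this
  have h2 : ‖P‖ ≤ ‖G‖ := by
    have := hpyth (win E D) G
    exact le_of_sq_le_sq (by nlinarith [sq_nonneg ‖pj φ e (win E D)ᶜ G‖]) (norm_nonneg _)
  refine ⟨‖Q‖, norm_nonneg _, hout E D G hD.le, ?_⟩
  have h3 : inner ℂ G (C G) = inner ℂ P (C P) + inner ℂ Q (C P) + inner ℂ G (C Q) := by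
    have e1 : C G = C P + C Q := by rw [← map_add, h1]
    have e2 : inner ℂ G (C P) = inner ℂ P (C P) + inner ℂ Q (C P) := by
      rw [← inner_add_left, h1]
    rw [e1, inner_add_right, e2]
  rw [h3]
  have b1 := hyp _ φ e hφ G
  have b2 : ‖inner ℂ Q (C P)‖ ≤ ‖Q‖ * (4 * ‖G‖) := by
    refine (norm_inner_le_norm (𝕜 := ℂ) _ _).trans ?_
    apply mul_le_mul_of_nonneg_left _ (norm_nonneg _)
    refine (hC P).trans ?_
    linarith
  have b3 : ‖inner ℂ G (C Q)‖ ≤ ‖G‖ * (4 * ‖Q‖) := by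
    refine (norm_inner_le_norm (𝕜 := ℂ) _ _).trans ?_
    apply mul_le_mul_of_nonneg_left _ (norm_nonneg _)
    refine (hC Q).trans ?_
    linarith
  have b4 := norm_add_le (inner ℂ P (C P) + inner ℂ Q (C P)) (inner ℂ G (C Q))
  have b5 := norm_add_le (inner ℂ P (C P)) (inner ℂ Q (C P))
  linarith

end centre

theorem ext_val {s : ℕ} [NeZero s] (ζ : ℂ) (f : ZMod s → ℂ) (x : ZMod s) :
    ext s ζ f (x.val : ℤ) = f x := by
  unfold ext
  have h : ((x.val : ℤ) / (s : ℤ)) = 0 := by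
    apply Int.ediv_eq_zero_of_lt (by positivity)
    exact_mod_cast ZMod.val_lt x
  rw [h, zpow_zero, one_mul]
  push_cast
  rw [ZMod.natCast_zmod_val]

theorem k3 (hB4 : T_B4) (hG1 : T_G1) (hH6 : T_H6) : T_K3 := by
  intro C0 hC0
  obtain ⟨s0, hs0⟩ := hH6 C0 hC0
  refine ⟨10 ^ 7 * C0 ^ 2 + s0, by
    have : (0 : ℝ) ≤ s0 := Nat.cast_nonneg _
    nlinarith, ?_⟩
  intro py y _ ps s _ E v0 hAdj hKy hv0 hyp θ ζ ι _ u ev hζ hEB f
  have hs00 : (0 : ℝ) ≤ s0 := Nat.cast_nonneg _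
  have hC2 : 1 ≤ C0 ^ 2 := by nlinarith
  have hys0 : s0 ≤ y := by
    have : (s0 : ℝ) ≤ y := by nlinarith
    exact_mod_cast this
  have hyR : (10 ^ 7 : ℝ) * C0 ^ 2 ≤ y := by linarith
  have hy1 : (1 : ℝ) ≤ y := by nlinarith
  have hy0 : (0 : ℝ) < y := by linarith
  have hyn : 1 ≤ y := by exact_mod_cast hy1
  have hsR0 : (0 : ℝ) < s := by exact_mod_cast Nat.pos_of_ne_zero (NeZero.ne s)
  set w : ℝ := (y : ℝ) ^ (-(3 / 2) : ℝ) with hw
  set D : ℝ := (y : ℝ) ^ (-(11 / 8) : ℝ) with hD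
  set Y : ℝ := (y : ℝ) ^ (-(1 / 8) : ℝ) with hY
  have hw0 : 0 < w := Real.rpow_pos_of_pos hy0 _
  have hD0 : 0 < D := Real.rpow_pos_of_pos hy0 _
  have hY0 : 0 < Y := Real.rpow_pos_of_pos hy0 _
  have hwY : w ≤ Y := Real.rpow_le_rpow_of_exponent_le hy1 (by norm_num)
  obtain ⟨-, -, -, -, hpyth, -, -, hwin, -, -⟩ := hG1 _ ι _ u ev hEB
  set g := pj u ev (win E w) f with hg
  have hgf : ‖g‖ ^ 2 ≤ ‖f‖ ^ 2 := by
    have := hpyth (win E w) f
    rw [← hg] at this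
    nlinarith [sq_nonneg ‖pj u ev (win E w)ᶜ f‖]
  set r : Rg s := Fi ps s θ ζ g - (E : ℂ) • g with hr
  have hrn : ‖r‖ ≤ w * ‖g‖ := hwin E w f hw0.le
  set β : ℝ := (ps : ℝ) / s with hβ
  set ψ : ℤ → ℂ := ext s ζ g with hψdef
  set ρ : ℤ → ℂ := ext s ζ r with hρdef
  have hfb : fb ps s θ ζ = tw s ζ (bnd β θ) := rfl
  have hψ : ∀ n, lop β θ ψ n = E * ψ n + ρ n := by
    intro n
    have h1 := ext_bop ζ hζ (bnd β θ) (bnd_per ps s θ) g n
    have h2 : lop β θ ψ n = lopb (bnd β θ) (ext s ζ g) n := rfl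
    rw [h2, h1, ← hfb]
    have h3 : bop (fb ps s θ ζ) g = (E : ℂ) • g + r := by
      rw [hr]
      unfold Fi
      abel
    rw [h3, hψdef, hρdef]
    unfold ext
    change _ * ((E : ℂ) * g _ + r _) = _
    ring
  -- periodicity
  have hz1 : ζ * conj ζ = 1 := by
    rw [Complex.mul_conj, Complex.normSq_eq_norm_sq, hζ]; simp
  have hper : ∀ (h : Rg s) (n : ℤ), ext s ζ h (n + s) = conj ζ * ext s ζ h n := by
    intro h n
    have := ext_add_period ζ hζ h n 1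
    rw [mul_one, zpow_one] at this
    exact this
  have hpern : ∀ (h : Rg s) (n : ℤ), ‖ext s ζ h (n + s)‖ = ‖ext s ζ h n‖ := by
    intro h n
    rw [hper, norm_mul, RCLike.norm_conj, hζ, one_mul]
  have hnorm : ∀ (h : Rg s) (k : ℤ), ∑ x : ZMod s, ‖ext s ζ h ((x.val : ℤ) + k)‖ ^ 2 = ‖h‖ ^ 2 := by
    intro h k
    rw [avg_per s (fun n => ‖ext s ζ h n‖ ^ 2) (fun n => by rw [hpern]) k, norm_sq_eq_sum]
    refine Finset.sum_congr rfl fun x _ => ?_
    rw [ext_val]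
  -- parameters
  set l : ℕ := ⌈(y : ℝ) ^ (3 / 2 : ℝ)⌉₊ with hl
  set T : ℝ := (y : ℝ) ^ (3 / 2 : ℝ) with hT
  have hT0 : 0 < T := Real.rpow_pos_of_pos hy0 _
  have hyT : (y : ℝ) ≤ T := by
    rw [hT]
    nth_rewrite 1 [← Real.rpow_one (y : ℝ)]
    exact Real.rpow_le_rpow_of_exponent_le hy1 (by norm_num)
  have hTl : T ≤ l := Nat.le_ceil _
  have hlT : (l : ℝ) < T + 1 := Nat.ceil_lt_add_one hT0.le
  have hl2 : 2 ≤ l := by
    have : (2 : ℝ) ≤ l := by nlinarith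
    exact_mod_cast this
  have hl0 : (0 : ℝ) < l := by linarith
  have hTw : T * w = 1 := by
    rw [hT, hw, ← Real.rpow_add hy0]
    norm_num
  set M : ℕ := 2 * l / y + 4 with hM
  have hMne : NeZero M := ⟨by rw [hM]; exact Nat.succ_ne_zero _⟩
  have hN1 : M * y ≤ 2 * l + 4 * y := by
    have := Nat.div_mul_le_self (2 * l) y
    rw [hM, add_mul]
    omega
  have hN2 : 2 * l + 3 * y ≤ M * y := by
    have := Nat.lt_div_mul_add (a := 2 * l) (show 0 < y by omega)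
    rw [hM, add_mul]
    omega
  have hNT : ((M * y : ℕ) : ℝ) ≤ 8 * T := by
    have h1 : ((M * y : ℕ) : ℝ) ≤ 2 * l + 4 * y := by exact_mod_cast hN1
    nlinarith
  set δ : ℝ := 51 * C0 * w with hδdef
  have hδ0 : 0 ≤ δ := by positivity
  have hβy : |β - py / y| = 1 / (y * s) := by
    have h2 : β - (py : ℝ) / y = ((-(py * s - ps * y) : ℤ) : ℝ) / (y * s) := by
      rw [hβ]
      push_cast
      field_simp
      ring
    rw [h2, abs_div, ← Int.cast_abs, abs_neg, hAdj.det, abs_of_pos (by positivity : (0 : ℝ) < y * s)]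
    norm_num
  have h1s : 1 / (s : ℝ) ≤ C0 / y ^ 2 := by
    rw [div_le_div_iff₀ hsR0 (by positivity)]
    linarith [hAdj.low]
  have hβy2 : |β - py / y| ≤ C0 / y ^ 3 := by
    rw [hβy]
    calc 1 / ((y : ℝ) * s) = 1 / y * (1 / s) := by field_simp
      _ ≤ 1 / y * (C0 / y ^ 2) := mul_le_mul_of_nonneg_left h1s (by positivity)
      _ = C0 / y ^ 3 := by field_simp
  have hδ : ∀ (θa : ℝ) (j : ℤ), 0 ≤ j → j ≤ ((M * y : ℕ) : ℤ) →
      ‖bnd β θa j - bnd (py / y) θa j‖ ≤ δ := by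
    intro θa j hj0 hjN
    unfold bnd
    have e1 : (1 : ℂ) - ex ((j : ℝ) * β + θa) - (1 - ex ((j : ℝ) * (py / y) + θa))
        = ex ((j : ℝ) * (py / y) + θa) - ex ((j : ℝ) * β + θa) := by ring
    rw [e1]
    refine (norm_ex_sub_ex _ _).trans ?_
    have e2 : (j : ℝ) * (py / y) + θa - ((j : ℝ) * β + θa) = -(j * (β - py / y)) := by ring
    rw [e2, abs_neg, abs_mul]
    have hj0' : (0 : ℝ) ≤ j := by exact_mod_cast hj0
    have hjN' : (j : ℝ) ≤ 8 * T := by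
      have : (j : ℝ) ≤ ((M * y : ℕ) : ℝ) := by exact_mod_cast hjN
      linarith
    rw [abs_of_nonneg hj0']
    have h3 : (j : ℝ) * |β - py / y| ≤ 8 * T * (C0 / y ^ 3) :=
      mul_le_mul hjN' hβy2 (abs_nonneg _) (by positivity)
    have h4 : T / y ^ 3 = w := by
      rw [hT, hw, ← Real.rpow_natCast (y : ℝ) 3, ← Real.rpow_sub hy0]
      norm_num
    have h5 : 8 * T * (C0 / y ^ 3) = 8 * C0 * w := by rw [← h4]; ring
    rw [h5] at h3
    calc 2 * Real.pi * ((j : ℝ) * |β - py / y|) ≤ 2 * Real.pi * (8 * C0 * w) :=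
          mul_le_mul_of_nonneg_left h3 (by positivity)
      _ = 16 * Real.pi * (C0 * w) := by ring
      _ ≤ 51 * (C0 * w) := by
          apply mul_le_mul_of_nonneg_right _ (by positivity)
          linarith [Real.pi_lt_d2]
      _ = δ := by rw [hδdef]; ring
  -- the functions of the centre
  have hch : ∀ x : ZMod s, ∃ (o : ℕ) (θa : ℝ) (m : ℤ), o < y ∧ |θa| ≤ 1 / y ∧
      ((((x.val : ℤ) - l - y : ℤ) : ℝ) + o) * β + θ = θa + m := by
    intro x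
    obtain ⟨o, θa, m, h1, h2, h3⟩ := hs0 py y β θ hys0 hAdj.cop hβy2 ((x.val : ℤ) - l - y)
    exact ⟨o, θa, m, h1, h2, h3⟩
  choose o θa m ho hθa hphase using hch
  let c : ZMod s → ℤ := fun x => (x.val : ℤ) - l - y + o x
  have hc : ∀ x, (c x : ℝ) * β + θ = θa x + m x := by
    intro x
    rw [← hphase x]
    simp only [c]
    push_cast
    ring
  set η : ℝ := 2 / (l : ℝ) + δ with hη
  let B : ZMod s → ℝ := fun x => ∑ k ∈ Finset.Icc (-(l : ℤ)) l, (2 * ‖ρ ((x.val : ℤ) + k)‖ ^ 2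
        + 4 * η ^ 2 * (‖ψ ((x.val : ℤ) + k - 1)‖ ^ 2 + ‖ψ ((x.val : ℤ) + k + 1)‖ ^ 2))
  let S1 : ZMod s → ℝ := fun x => ∑ k ∈ Finset.Icc (-(l : ℤ)) l,
    tent l k ^ 2 * ‖ψ ((x.val : ℤ) + k)‖ ^ 2
  let κ : ℤ → ℂ := fun n => conj (ψ n) * (Complex.I * bnd β θ n) * ψ (n - 1)
  let W : ZMod s → ℂ := fun x => ∑ k ∈ Finset.Icc (-(l : ℤ)) l,
    ((tent l k * tent l (k - 1) : ℝ) : ℂ) * κ ((x.val : ℤ) + k)
  have hpt : ∀ x, ‖W x + conj (W x)‖ ≤ (v0 + 2 * δ + 4 * Y) * S1 x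
      + 4 * (y : ℝ) ^ (23 / 8 : ℝ) * B x := by
    intro x
    have hox : ((o x : ℕ) : ℤ) < y := by exact_mod_cast ho x
    have hN2' : 2 * (l : ℤ) + 3 * y ≤ ((M * y : ℕ) : ℤ) := by exact_mod_cast hN2
    obtain ⟨i1, i2, i3⟩ := centre (M := M) (y := y) py β θ (θa x) E (c x) (m x) (hc x) δ
      (hδ (θa x)) l (by omega) (x.val : ℤ) (by simp only [c]; linarith)
      (by simp only [c]; linarith) ψ ρ hψ
    set G := trp M y (c x) (loc l (x.val : ℤ) ψ) with hG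
    obtain ⟨A, hA0, hA1, hA2⟩ := ring_est hB4 hG1 py (θa x) E D v0 hD0
      (fun ι' _ u' ev' h' => hyp M (θa x) ι' u' ev' (hθa x) h') G
    have i1' : ‖G‖ ^ 2 = S1 x := i1
    have i2' : ‖bop (rb (py / y) (θa x) (M * y)) G - (E : ℂ) • G‖ ^ 2 ≤ B x := i2
    have i3' : ‖inner ℂ G (bop (fun n => Complex.I * rb (py / y) (θa x) (M * y) n) G)
        - (W x + conj (W x))‖ ≤ 2 * δ * ‖G‖ ^ 2 := i3
    have hA3 : D ^ 2 * A ^ 2 ≤ B x := by
      rw [← mul_pow]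
      exact (pow_le_pow_left₀ (by positivity) hA1 2).trans i2'
    have hA4 : 8 * A * ‖G‖ ≤ 4 * (y : ℝ) ^ (1 / 8 : ℝ) * A ^ 2 + 4 * Y * ‖G‖ ^ 2 := by
      have hq : (y : ℝ) ^ (1 / 8 : ℝ) = ((y : ℝ) ^ (1 / 16 : ℝ)) ^ 2 := by
        rw [← Real.rpow_natCast ((y : ℝ) ^ (1 / 16 : ℝ)) 2, ← Real.rpow_mul hy0.le]
        norm_num
      have hq2 : Y = ((y : ℝ) ^ (-(1 / 16) : ℝ)) ^ 2 := by
        rw [hY, ← Real.rpow_natCast ((y : ℝ) ^ (-(1 / 16) : ℝ)) 2, ← Real.rpow_mul hy0.le]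
        norm_num
      have hq3 : (y : ℝ) ^ (1 / 16 : ℝ) * (y : ℝ) ^ (-(1 / 16) : ℝ) = 1 := by
        rw [← Real.rpow_add hy0]
        norm_num
      rw [hq, hq2]
      set α := (y : ℝ) ^ (1 / 16 : ℝ)
      set α' := (y : ℝ) ^ (-(1 / 16) : ℝ)
      have h1 : 8 * A * ‖G‖ = 8 * (α * A) * (α' * ‖G‖) := by
        calc 8 * A * ‖G‖ = 8 * A * ‖G‖ * (α * α') := by rw [hq3, mul_one]
          _ = _ := by ring
      rw [h1]
      nlinarith [sq_nonneg (α * A - α' * ‖G‖)]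
    have hA5 : 4 * (y : ℝ) ^ (1 / 8 : ℝ) * A ^ 2 ≤ 4 * (y : ℝ) ^ (23 / 8 : ℝ) * B x := by
      have hq : (y : ℝ) ^ (23 / 8 : ℝ) * D ^ 2 = (y : ℝ) ^ (1 / 8 : ℝ) := by
        rw [hD, ← Real.rpow_natCast ((y : ℝ) ^ (-(11 / 8) : ℝ)) 2, ← Real.rpow_mul hy0.le,
          ← Real.rpow_add hy0]
        norm_num
      rw [← hq]
      have h0 : 0 ≤ (y : ℝ) ^ (23 / 8 : ℝ) := Real.rpow_nonneg hy0.le _
      calc 4 * ((y : ℝ) ^ (23 / 8 : ℝ) * D ^ 2) * A ^ 2
          = 4 * (y : ℝ) ^ (23 / 8 : ℝ) * (D ^ 2 * A ^ 2) := by ring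
        _ ≤ _ := mul_le_mul_of_nonneg_left hA3 (by positivity)
    have hfin : ‖W x + conj (W x)‖ ≤
        ‖inner ℂ G (bop (fun n => Complex.I * rb (py / y) (θa x) (M * y) n) G)‖
        + 2 * δ * ‖G‖ ^ 2 := by
      have := norm_sub_norm_le (W x + conj (W x))
        (inner ℂ G (bop (fun n => Complex.I * rb (py / y) (θa x) (M * y) n) G))
      rw [norm_sub_rev] at this
      linarith
    rw [← i1']
    nlinarith
  -- sums over the centres
  have hS1 : ∑ x, S1 x ≤ 3 * l * ‖g‖ ^ 2 := by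
    simp only [S1]
    rw [Finset.sum_comm]
    have h1 : ∀ k ∈ Finset.Icc (-(l : ℤ)) l, ∑ x : ZMod s, tent l k ^ 2 * ‖ψ ((x.val : ℤ) + k)‖ ^ 2
        ≤ ‖g‖ ^ 2 := by
      intro k _
      rw [← Finset.mul_sum, hnorm g k]
      have := pow_le_one₀ (n := 2) (tent_nonneg l k) (tent_le_one l k)
      exact mul_le_of_le_one_left (sq_nonneg _) this
    refine (Finset.sum_le_sum h1).trans ?_
    rw [Finset.sum_const, Int.card_Icc, nsmul_eq_mul]
    apply mul_le_mul_of_nonneg_right _ (sq_nonneg _)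
    have : ((l : ℤ) + 1 - -(l : ℤ)).toNat = 2 * l + 1 := by omega
    rw [this]
    push_cast
    have : (1 : ℝ) ≤ l := by exact_mod_cast (show 1 ≤ l by omega)
    linarith
  have hB : ∑ x, B x ≤ 3 * l * ((2 * w ^ 2 + 8 * η ^ 2) * ‖g‖ ^ 2) := by
    simp only [B]
    rw [Finset.sum_comm]
    have h1 : ∀ k ∈ Finset.Icc (-(l : ℤ)) l, ∑ x : ZMod s, (2 * ‖ρ ((x.val : ℤ) + k)‖ ^ 2
        + 4 * η ^ 2 * (‖ψ ((x.val : ℤ) + k - 1)‖ ^ 2 + ‖ψ ((x.val : ℤ) + k + 1)‖ ^ 2))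
        ≤ (2 * w ^ 2 + 8 * η ^ 2) * ‖g‖ ^ 2 := by
      intro k _
      rw [Finset.sum_add_distrib, ← Finset.mul_sum, ← Finset.mul_sum, Finset.sum_add_distrib]
      have e1 := hnorm r k
      have e2 := hnorm g (k - 1)
      have e3 := hnorm g (k + 1)
      simp only [← add_sub_assoc] at e2
      simp only [← add_assoc] at e3
      rw [e1, e2, e3]
      have e4 : ‖r‖ ^ 2 ≤ w ^ 2 * ‖g‖ ^ 2 := by
        rw [← mul_pow]
        exact pow_le_pow_left₀ (norm_nonneg _) hrn 2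
      nlinarith
    refine (Finset.sum_le_sum h1).trans ?_
    rw [Finset.sum_const, Int.card_Icc, nsmul_eq_mul]
    apply mul_le_mul_of_nonneg_right _ (by positivity)
    have : ((l : ℤ) + 1 - -(l : ℤ)).toNat = 2 * l + 1 := by omega
    rw [this]
    push_cast
    have : (1 : ℝ) ≤ l := by exact_mod_cast (show 1 ≤ l by omega)
    linarith
  have hκper : ∀ n, κ (n + s) = κ n := by
    intro n
    simp only [κ]
    have e1 : ψ (n + s) = conj ζ * ψ n := hper g n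
    have e2 : ψ (n + s - 1) = conj ζ * ψ (n - 1) := by
      have : n + (s : ℤ) - 1 = n - 1 + s := by ring
      rw [this]
      exact hper g (n - 1)
    have e3 : bnd β θ (n + s) = bnd β θ n := bnd_per ps s θ n
    rw [e1, e2, e3, map_mul, Complex.conj_conj]
    calc ζ * conj (ψ n) * (Complex.I * bnd β θ n) * (conj ζ * ψ (n - 1))
        = (ζ * conj ζ) * (conj (ψ n) * (Complex.I * bnd β θ n) * ψ (n - 1)) := by ring
      _ = _ := by rw [hz1, one_mul]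
  set z : ℂ := ∑ x : ZMod s, κ (x.val : ℤ) with hz
  set S' : ℝ := ∑ k ∈ Finset.Icc (-(l : ℤ)) l, tent l k * tent l (k - 1) with hS'
  have hWsum : ∑ x, W x = (S' : ℂ) * z := by
    simp only [W]
    rw [Finset.sum_comm, hS']
    push_cast
    rw [Finset.sum_mul]
    refine Finset.sum_congr rfl fun k _ => ?_
    rw [← Finset.mul_sum, avg_per s κ hκper k]
  have hinner : inner ℂ g (bop (fun n => Complex.I * fb ps s θ ζ n) g) = z + conj z := by
    rw [inner_eq_sum]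
    have htw : (fun n => Complex.I * fb ps s θ ζ n) = tw s ζ (fun n => Complex.I * bnd β θ n) := by
      ext n
      rw [hfb]
      unfold tw
      ring
    have h1 : ∀ x : ZMod s, conj (g x) * (bop (fun n => Complex.I * fb ps s θ ζ n) g) x
        = κ (x.val : ℤ) + conj (κ ((x.val : ℤ) + 1)) := by
      intro x
      rw [htw]
      have e1 : (bop (tw s ζ (fun n => Complex.I * bnd β θ n)) g) x
          = lopb (fun n => Complex.I * bnd β θ n) (ext s ζ g) (x.val : ℤ) := by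
        rw [ext_bop ζ hζ (fun n => Complex.I * bnd β θ n) (fun n => by rw [hβ, bnd_per]) g]
        exact (ext_val ζ _ x).symm
      have e2 : g x = ψ (x.val : ℤ) := (ext_val ζ g x).symm
      rw [e1, e2]
      unfold lopb
      simp only [κ, map_mul, Complex.conj_conj, Complex.conj_I, add_sub_cancel_right]
      ring
    rw [Finset.sum_congr rfl fun x _ => h1 x, Finset.sum_add_distrib, ← map_sum,
      avg_per s κ hκper 1]
  -- conclusion
  have hS'l : (l : ℝ) / 16 ≤ S' := tent_sum l hl2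
  have hS'0 : 0 ≤ S' := by linarith
  have htot : S' * ‖z + conj z‖ ≤ (v0 + 2 * δ + 4 * Y) * (3 * l * ‖g‖ ^ 2)
      + 4 * (y : ℝ) ^ (23 / 8 : ℝ) * (3 * l * ((2 * w ^ 2 + 8 * η ^ 2) * ‖g‖ ^ 2)) := by
    have e1 : S' * ‖z + conj z‖ = ‖∑ x, (W x + conj (W x))‖ := by
      rw [Finset.sum_add_distrib, ← map_sum, hWsum, map_mul, Complex.conj_ofReal, ← mul_add,
        norm_mul, Complex.norm_real, Real.norm_eq_abs, abs_of_nonneg hS'0]
    rw [e1]
    refine (norm_sum_le _ _).trans ((Finset.sum_le_sum fun x _ => hpt x).trans ?_)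
    rw [Finset.sum_add_distrib, ← Finset.mul_sum, ← Finset.mul_sum]
    have h0 : 0 ≤ (y : ℝ) ^ (23 / 8 : ℝ) := Real.rpow_nonneg hy0.le _
    exact add_le_add (mul_le_mul_of_nonneg_left hS1 (by positivity))
      (mul_le_mul_of_nonneg_left hB (by positivity))
  have hηle : η ≤ 53 * C0 * w := by
    have h1 : 2 / (l : ℝ) ≤ 2 * w := by
      rw [div_le_iff₀ hl0]
      have : w * T ≤ w * l := mul_le_mul_of_nonneg_left hTl hw0.le
      nlinarith
    have h2 : 2 * w ≤ 2 * C0 * w := by nlinarith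
    rw [hη, hδdef]
    linarith
  have hη0 : 0 ≤ η := by positivity
  have h23 : (y : ℝ) ^ (23 / 8 : ℝ) * (2 * w ^ 2 + 8 * η ^ 2) ≤ 22474 * C0 ^ 2 * Y := by
    have e1 : η ^ 2 ≤ (53 * C0 * w) ^ 2 := pow_le_pow_left₀ hη0 hηle 2
    have e2 : 2 * w ^ 2 + 8 * η ^ 2 ≤ 22474 * C0 ^ 2 * w ^ 2 := by
      have : 2 * w ^ 2 ≤ 2 * (C0 ^ 2 * w ^ 2) := by nlinarith [sq_nonneg w]
      nlinarith
    have e3 : (y : ℝ) ^ (23 / 8 : ℝ) * w ^ 2 = Y := by
      rw [hw, hY, ← Real.rpow_natCast ((y : ℝ) ^ (-(3 / 2) : ℝ)) 2, ← Real.rpow_mul hy0.le,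
        ← Real.rpow_add hy0]
      norm_num
    have h0 : 0 ≤ (y : ℝ) ^ (23 / 8 : ℝ) := Real.rpow_nonneg hy0.le _
    calc (y : ℝ) ^ (23 / 8 : ℝ) * (2 * w ^ 2 + 8 * η ^ 2)
        ≤ (y : ℝ) ^ (23 / 8 : ℝ) * (22474 * C0 ^ 2 * w ^ 2) := mul_le_mul_of_nonneg_left e2 h0
      _ = 22474 * C0 ^ 2 * ((y : ℝ) ^ (23 / 8 : ℝ) * w ^ 2) := by ring
      _ = _ := by rw [e3]
  rw [hinner]
  set q : ℝ := ‖g‖ ^ 2 with hq
  have hq0 : 0 ≤ q := sq_nonneg _
  have h5 : (l : ℝ) / 16 * ‖z + conj z‖ ≤ (v0 + 2 * δ + 4 * Y) * (3 * l * q)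
      + 12 * l * (22474 * C0 ^ 2 * Y) * q := by
    have e1 := mul_le_mul_of_nonneg_right hS'l (norm_nonneg (z + conj z))
    have e2 : 4 * (y : ℝ) ^ (23 / 8 : ℝ) * (3 * l * ((2 * w ^ 2 + 8 * η ^ 2) * q))
        ≤ 12 * l * (22474 * C0 ^ 2 * Y) * q := by
      calc 4 * (y : ℝ) ^ (23 / 8 : ℝ) * (3 * l * ((2 * w ^ 2 + 8 * η ^ 2) * q))
          = 12 * l * ((y : ℝ) ^ (23 / 8 : ℝ) * (2 * w ^ 2 + 8 * η ^ 2)) * q := by ring
        _ ≤ _ := by
          apply mul_le_mul_of_nonneg_right _ hq0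
          exact mul_le_mul_of_nonneg_left h23 (by positivity)
    linarith
  have h6 : ‖z + conj z‖ ≤ (48 * (v0 + 2 * δ + 4 * Y) + 192 * (22474 * C0 ^ 2 * Y)) * q := by
    have e1 : (l : ℝ) / 16 * ‖z + conj z‖
        ≤ (l : ℝ) / 16 * ((48 * (v0 + 2 * δ + 4 * Y) + 192 * (22474 * C0 ^ 2 * Y)) * q) := by
      refine h5.trans (le_of_eq ?_)
      ring
    exact le_of_mul_le_mul_left e1 (by positivity)
  refine h6.trans ?_
  have h7 : 48 * (v0 + 2 * δ + 4 * Y) + 192 * (22474 * C0 ^ 2 * Y)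
      ≤ (10 ^ 7 * C0 ^ 2 + s0) * (Y + v0) := by
    have e1 : δ ≤ 51 * C0 ^ 2 * Y := by
      rw [hδdef]
      have : C0 * w ≤ C0 ^ 2 * Y := by
        calc C0 * w ≤ C0 * Y := mul_le_mul_of_nonneg_left hwY (by linarith)
          _ ≤ C0 ^ 2 * Y := mul_le_mul_of_nonneg_right (by nlinarith) hY0.le
      linarith
    have e2 : Y ≤ C0 ^ 2 * Y := by nlinarith
    have e3 : v0 ≤ C0 ^ 2 * v0 := by nlinarith
    have e4 : 0 ≤ (s0 : ℝ) * (Y + v0) := by positivity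
    have e5 : 0 ≤ C0 ^ 2 * Y := by positivity
    have e6 : 0 ≤ C0 ^ 2 * v0 := by positivity
    nlinarith
  calc (48 * (v0 + 2 * δ + 4 * Y) + 192 * (22474 * C0 ^ 2 * Y)) * q
      ≤ (10 ^ 7 * C0 ^ 2 + s0) * (Y + v0) * q := mul_le_mul_of_nonneg_right h7 hq0
    _ ≤ (10 ^ 7 * C0 ^ 2 + s0) * (Y + v0) * ‖f‖ ^ 2 := mul_le_mul_of_nonneg_left hgf (by positivity)

end Pool.Agent.H36.AM
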