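import Pool.Agent.H36.AM.Base

/-!
# Critical almost Mathieu operator (MP_29bb0a_mp), module K4: the rotation of a fibre (helper36)
-/

open scoped ComplexConjugate

noncomputable section

namespace Pool.Agent.H36.AM

open Pool.Agent.H98.AM

section sh
variable {N : ℕ} [NeZero N]

/-- weighted shift -/
def sh (a : ZMod N → ℂ) : Rg N →ₗ[ℂ] Rg N where
  toFun f := WithLp.toLp 2 fun n => a n * f (n - 1)
  map_add' f g := by
    ext n
    simp
    ring
  map_smul' c f := by
    ext n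
    simp
    ring

/-- its adjoint -/
def shs (a : ZMod N → ℂ) : Rg N →ₗ[ℂ] Rg N where
  toFun f := WithLp.toLp 2 fun n => conj (a (n + 1)) * f (n + 1)
  map_add' f g := by
    ext n
    simp
    ring
  map_smul' c f := by
    ext n
    simp
    ring

@[simp] theorem sh_apply (a : ZMod N → ℂ) (f : Rg N) (n : ZMod N) : sh a f n = a n * f (n - 1) := rfl

@[simp] theorem shs_apply (a : ZMod N → ℂ) (f : Rg N) (n : ZMod N) :
    shs a f n = conj (a (n + 1)) * f (n + 1) := rfl

theorem bop_eq (a : ZMod N → ℂ) (f : Rg N) : bop a f = sh a f + shs a f := by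
  ext n
  simp

theorem sh_adj (a : ZMod N → ℂ) (f g : Rg N) : inner ℂ (sh a f) g = inner ℂ f (shs a g) := by
  rw [inner_eq_sum, inner_eq_sum]
  rw [← sum_add_one (fun n => conj (sh a f n) * g n)]
  refine Finset.sum_congr rfl fun n _ => ?_
  simp only [sh_apply, shs_apply, map_mul, add_sub_cancel_right]
  ring

theorem shs_adj (a : ZMod N → ℂ) (f g : Rg N) : inner ℂ (shs a f) g = inner ℂ f (sh a g) := by
  rw [← inner_conj_symm, ← sh_adj, inner_conj_symm]

theorem sh_shs (a : ZMod N → ℂ) (ha : ∀ n, a n * conj (a n) = 1) (f : Rg N) : sh a (shs a f) = f := by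
  ext n
  simp only [sh_apply, shs_apply, sub_add_cancel]
  rw [← mul_assoc, ha, one_mul]

theorem shs_sh (a : ZMod N → ℂ) (ha : ∀ n, a n * conj (a n) = 1) (f : Rg N) : shs a (sh a f) = f := by
  ext n
  simp only [sh_apply, shs_apply, add_sub_cancel_right]
  rw [← mul_assoc, mul_comm (conj _), ha, one_mul]

theorem norm_sh (a : ZMod N → ℂ) (ha : ∀ n, a n * conj (a n) = 1) (f : Rg N) : ‖sh a f‖ = ‖f‖ := by
  have h : (inner ℂ (sh a f) (sh a f) : ℂ) = inner ℂ f f := by rw [sh_adj, shs_sh a ha]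
  rw [inner_self_eq_norm_sq_to_K, inner_self_eq_norm_sq_to_K] at h
  have h2 : ‖sh a f‖ ^ 2 = ‖f‖ ^ 2 := by exact_mod_cast h
  exact (sq_eq_sq₀ (norm_nonneg _) (norm_nonneg _)).mp h2

theorem norm_shs (a : ZMod N → ℂ) (ha : ∀ n, a n * conj (a n) = 1) (f : Rg N) : ‖shs a f‖ = ‖f‖ := by
  have := norm_sh a ha (shs a f)
  rw [sh_shs a ha] at this
  exact this.symm

end sh

theorem ex_eq_one_iff (t : ℝ) : ex t = 1 ↔ ∃ k : ℤ, t = k := by
  unfold ex
  rw [Complex.exp_eq_one_iff]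
  have h2 : (2 * (Real.pi : ℂ) * Complex.I) ≠ 0 := by
    simp [Real.pi_ne_zero]
  constructor
  · rintro ⟨k, hk⟩
    refine ⟨k, ?_⟩
    have h3 : (t : ℂ) * (2 * Real.pi * Complex.I) = k * (2 * Real.pi * Complex.I) := by
      rw [← hk]; ring
    have h4 := mul_right_cancel₀ h2 h3
    exact_mod_cast h4
  · rintro ⟨k, hk⟩
    refine ⟨k, ?_⟩
    rw [hk]
    push_cast
    ring

theorem exists_ex (z : ℂ) (hz : ‖z‖ = 1) : ∃ t : ℝ, ex t = z := by
  obtain ⟨t, ht⟩ := (Complex.norm_eq_one_iff z).mp hz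
  refine ⟨t / (2 * Real.pi), ?_⟩
  rw [← ht]
  unfold ex
  congr 1
  have : (Real.pi : ℂ) ≠ 0 := by exact_mod_cast Real.pi_ne_zero
  push_cast
  field_simp

/-- the twist -/
def twf (s : ℕ) (ζ : ℂ) (n : ZMod s) : ℂ := if n = 0 then ζ else 1

section rot
variable {s : ℕ} [NeZero s]

theorem val_add_one_of_ne (m : ZMod s) (h : m + 1 ≠ 0) : (m + 1).val = m.val + 1 := by
  have h1 := val_sub_one_of_ne (m + 1) h
  rw [add_sub_cancel_right] at h1
  have h2 : (m + 1).val ≠ 0 := by rwa [Ne, ZMod.val_eq_zero]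
  omega

theorem val_of_add_one_eq (m : ZMod s) (h : m + 1 = 0) : m.val = s - 1 := by
  have : m = 0 - 1 := by rw [← h]; ring
  rw [this, val_neg_one']

theorem mul_conj_of_norm (z : ℂ) (hz : ‖z‖ = 1) : z * conj z = 1 := by
  rw [Complex.mul_conj, Complex.normSq_eq_norm_sq, hz]; simp

theorem twf_unit (ζ : ℂ) (hζ : ‖ζ‖ = 1) (n : ZMod s) : twf s ζ n * conj (twf s ζ n) = 1 := by
  unfold twf
  split_ifs
  · exact mul_conj_of_norm ζ hζ
  · simp

theorem fub_eq (p : ℤ) (θ : ℝ) (ζ : ℂ) (n : ZMod s) :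
    fub p s θ ζ n = -(twf s ζ n * ex ((n.val : ℤ) * (p / s) + θ)) := by
  unfold fub twf
  ring

theorem fub_unit (p : ℤ) (θ : ℝ) (ζ : ℂ) (hζ : ‖ζ‖ = 1) (n : ZMod s) :
    fub p s θ ζ n * conj (fub p s θ ζ n) = 1 := by
  apply mul_conj_of_norm
  rw [fub_eq, norm_neg, norm_mul, norm_ex, mul_one]
  unfold twf
  split_ifs
  · exact hζ
  · simp

theorem fb_eq (p : ℤ) (θ : ℝ) (ζ : ℂ) (n : ZMod s) :
    fb p s θ ζ n = twf s ζ n + fub p s θ ζ n := by
  unfold fb fub twf bnd
  ring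

/-- commutation relation -/
theorem comm_rel (p : ℤ) (θ : ℝ) (ζ : ℂ) (f : Rg s) :
    sh (fub p s θ ζ) (sh (twf s ζ) f) = ex (p / s) • sh (twf s ζ) (sh (fub p s θ ζ) f) := by
  ext n
  change fub p s θ ζ n * (twf s ζ (n - 1) * f (n - 1 - 1))
    = ex (p / s) * (twf s ζ n * (fub p s θ ζ (n - 1) * f (n - 1 - 1)))
  rw [fub_eq, fub_eq]
  have h : ex (((n.val : ℤ) : ℝ) * (p / s) + θ)
      = ex (p / s) * ex ((((n - 1).val : ℤ) : ℝ) * (p / s) + θ) := by
    rw [← ex_add]
    have hs : (s : ℝ) ≠ 0 := by exact_mod_cast NeZero.ne s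
    by_cases h0 : n = 0
    · subst h0
      have e1 : (((0 : ZMod s) - 1).val) = s - 1 := val_neg_one'
      have hs1 : 1 ≤ s := Nat.one_le_iff_ne_zero.mpr (NeZero.ne s)
      rw [e1, ZMod.val_zero]
      have e2 : (p : ℝ) / s + ((((s - 1 : ℕ) : ℤ) : ℝ) * (p / s) + θ) = ((p : ℤ) : ℝ) + θ := by
        push_cast [Nat.cast_sub hs1]
        field_simp
        ring
      rw [e2, ex_int_add]
      simp
    · rw [val_sub_one_of_ne n h0]
      have h1 : 1 ≤ n.val := Nat.one_le_iff_ne_zero.mpr (by rwa [Ne, ZMod.val_eq_zero])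
      congr 1
      push_cast [Nat.cast_sub h1]
      ring
  rw [h]
  ring

/-- the rotated pair is a fibre pair in another orthonormal basis -/
theorem rotate (p : ℤ) (θ : ℝ) (ζ : ℂ) (hcop : IsCoprime p (s : ℤ)) (hs : 3 ≤ s) (hζ : ‖ζ‖ = 1) :
    ∃ (θ' : ℝ) (ζ' : ℂ) (F : OrthonormalBasis (ZMod s) ℂ (Rg s)), ‖ζ'‖ = 1 ∧
      (∀ n, shs (fub p s θ ζ) (F n) = twf s ζ' (n + 1) • F (n + 1)) ∧
      (∀ n, sh (twf s ζ) (F n) = fub p s θ' ζ' (n + 1) • F (n + 1)) := by
  set τ := twf s ζ with hτ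
  set υ := fub p s θ ζ with hυ
  have hτ1 : ∀ n, τ n * conj (τ n) = 1 := twf_unit ζ hζ
  have hυ1 : ∀ n, υ n * conj (υ n) = 1 := fub_unit p θ ζ hζ
  set β : ℝ := (p : ℝ) / s with hβ
  have hsR : (s : ℝ) ≠ 0 := by exact_mod_cast NeZero.ne s
  -- the diagonal operator
  let W : Rg s →ₗ[ℂ] Rg s := -(sh τ ∘ₗ sh υ)
  have hW : ∀ f, W f = -(sh τ (sh υ f)) := fun f => rfl
  have hWV : ∀ f, W (shs υ f) = ex β • shs υ (W f) := by
    intro f
    rw [hW, hW, sh_shs υ hυ1, map_neg, smul_neg]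
    have h1 : shs υ (sh υ (sh τ f)) = ex β • shs υ (sh τ (sh υ f)) := by
      rw [comm_rel p θ ζ f, map_smul]
    rw [shs_sh υ hυ1] at h1
    rw [← h1]
  have hWV' : ∀ f, W (shs υ f) = -(sh τ f) := by
    intro f
    rw [hW, sh_shs υ hυ1]
  have hWn : ∀ f, ‖W f‖ = ‖f‖ := by
    intro f
    rw [hW, norm_neg, norm_sh τ hτ1, norm_sh υ hυ1]
  have hWi : ∀ f g, inner ℂ (W f) (W g) = inner ℂ f g := by
    intro f g
    rw [hW, hW, inner_neg_neg, sh_adj, shs_sh τ hτ1, sh_adj, shs_sh υ hυ1]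
  have hnt : Nontrivial (Rg s) := by
    refine ⟨⟨WithLp.toLp 2 (fun _ => 1), 0, ?_⟩⟩
    intro h
    have := congrArg (fun f : Rg s => f 0) h
    simp at this
  obtain ⟨μ, hμ⟩ := Module.End.exists_eigenvalue W
  obtain ⟨f1, hf1⟩ := hμ.exists_hasEigenvector
  have hf1' : W f1 = μ • f1 := hf1.apply_eq_smul
  have hf10 : f1 ≠ 0 := hf1.2
  have hμ1 : ‖μ‖ = 1 := by
    have := hWn f1
    rw [hf1', norm_smul] at this
    have h2 : ‖f1‖ ≠ 0 := norm_ne_zero_iff.mpr hf10
    exact mul_right_cancel₀ h2 (by rw [this, one_mul])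
  obtain ⟨θ', hθ'⟩ := exists_ex μ hμ1
  obtain ⟨f0, hf0, hf0n⟩ : ∃ f0 : Rg s, W f0 = ex θ' • f0 ∧ ‖f0‖ = 1 := by
    refine ⟨((‖f1‖⁻¹ : ℝ) : ℂ) • f1, ?_, ?_⟩
    · rw [map_smul, hf1', hθ', smul_comm]
    · rw [norm_smul, Complex.norm_real, norm_inv, norm_norm]
      exact inv_mul_cancel₀ (norm_ne_zero_iff.mpr hf10)
  -- the orbit
  let G : ℕ → Rg s := fun n => ((shs υ)^[n]) f0
  have hGs : ∀ n, G (n + 1) = shs υ (G n) := fun n => Function.iterate_succ_apply' _ _ _
  have hG0 : G 0 = f0 := rfl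
  have hGn : ∀ n, ‖G n‖ = 1 := by
    intro n
    induction n with
    | zero => exact hf0n
    | succ n ih => rw [hGs, norm_shs υ hυ1, ih]
  have hGW : ∀ n : ℕ, W (G n) = ex ((n : ℝ) * β + θ') • G n := by
    intro n
    induction n with
    | zero => rw [hG0, hf0]; simp
    | succ n ih =>
      rw [hGs, hWV, ih, map_smul, smul_smul, ← ex_add]
      congr 2
      push_cast
      ring
  have hne : ∀ n m : ℕ, n < s → m < s → n ≠ m → ex (((n : ℝ) - m) * β) ≠ 1 := by
    intro n m hn hm hnm h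
    obtain ⟨k, hk⟩ := (ex_eq_one_iff _).mp h
    have h1 : ((n : ℤ) - m) * p = k * s := by
      have : ((n : ℝ) - m) * p = k * s := by
        rw [← hk, hβ]
        field_simp
      exact_mod_cast this
    have h2 : (s : ℤ) ∣ ((n : ℤ) - m) * p := ⟨k, by rw [h1]; ring⟩
    have h3 : (s : ℤ) ∣ ((n : ℤ) - m) := (hcop.symm).dvd_of_dvd_mul_right h2
    have h4 : (n : ℤ) - m = 0 := by
      apply Int.eq_zero_of_abs_lt_dvd h3
      rw [abs_lt]
      omega
    omega
  have horth : ∀ (n : ℕ) (g : Rg s) (t : ℝ), W g = ex t • g → ex (t - ((n : ℝ) * β + θ')) ≠ 1 →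
      inner ℂ (G n) g = 0 := by
    intro n g t hg hne1
    have h1 := hWi (G n) g
    rw [hGW, hg, inner_smul_left, inner_smul_right, conj_ex, ← mul_assoc, ← ex_add] at h1
    have h2 : (ex (-((n : ℝ) * β + θ') + t) - 1) * inner ℂ (G n) g = 0 := by
      rw [sub_mul, h1]; ring
    rcases mul_eq_zero.mp h2 with h3 | h3
    · exfalso
      apply hne1
      rw [← sub_eq_zero, ← h3]
      congr 2
      ring
    · exact h3
  have hortho : Orthonormal ℂ (fun n : ZMod s => G n.val) := by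
    refine ⟨fun n => hGn _, fun n m hnm => ?_⟩
    apply horth n.val (G m.val) (((m.val : ℕ) : ℝ) * β + θ') (hGW _)
    have := hne m.val n.val (ZMod.val_lt m) (ZMod.val_lt n)
      (fun h => hnm (ZMod.val_injective s h).symm)
    intro h
    apply this
    rw [← h]
    congr 1
    ring
  have hcard : Fintype.card (ZMod s) = Module.finrank ℂ (Rg s) := by
    rw [finrank_euclideanSpace]
  let Bs := basisOfOrthonormalOfCardEqFinrank hortho hcard
  have hBs : ⇑Bs = fun n : ZMod s => G n.val := coe_basisOfOrthonormalOfCardEqFinrank hortho hcard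
  let F : OrthonormalBasis (ZMod s) ℂ (Rg s) := Bs.toOrthonormalBasis (by rw [hBs]; exact hortho)
  have hF : ∀ n, F n = G n.val := by
    intro n
    change (Bs.toOrthonormalBasis _) n = _
    rw [Module.Basis.coe_toOrthonormalBasis, hBs]
  -- closing the orbit
  set ζ' : ℂ := inner ℂ (G 0) (G s) with hζ'
  have hclose : G s = ζ' • G 0 := by
    have h1 := F.sum_repr' (G s)
    rw [← h1]
    rw [Finset.sum_eq_single (0 : ZMod s)]
    · rw [hF, ZMod.val_zero]
    · intro n _ hn0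
      have : inner ℂ (F n) (G s) = 0 := by
        rw [hF]
        apply horth n.val (G s) ((s : ℝ) * β + θ') (hGW s)
        have hs0 : n.val ≠ 0 := by rwa [Ne, ZMod.val_eq_zero]
        have := hne 0 n.val (by omega) (ZMod.val_lt n) (Ne.symm hs0)
        intro h
        apply this
        have e : (s : ℝ) * β + θ' - ((n.val : ℝ) * β + θ') = ((p : ℤ) : ℝ) + (((0 : ℕ) : ℝ) - n.val) * β := by
          rw [hβ]
          push_cast
          field_simp
          ring
        rw [e, ex_int_add] at h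
        exact h
      rw [this, zero_smul]
    · intro h
      exact absurd (Finset.mem_univ _) h
  have hζ'1 : ‖ζ'‖ = 1 := by
    have := hGn s
    rw [hclose, norm_smul, hGn, mul_one] at this
    exact this
  have hV : ∀ n, shs υ (F n) = twf s ζ' (n + 1) • F (n + 1) := by
    intro n
    rw [hF, hF, ← hGs]
    unfold twf
    by_cases h : n + 1 = 0
    · rw [if_pos h, h, ZMod.val_zero]
      have h1 : n.val + 1 = s := by
        rw [val_of_add_one_eq n h]
        omega
      rw [h1, hclose]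
    · rw [if_neg h, one_smul, val_add_one_of_ne n h]
  refine ⟨θ', ζ', F, hζ'1, hV, fun n => ?_⟩
  have h1 := hWV' (F n)
  rw [hV, map_smul] at h1
  have h2 : W (F (n + 1)) = ex ((((n + 1).val : ℤ) : ℝ) * (p / s) + θ') • F (n + 1) := by
    rw [hF, hGW]
    rfl
  rw [h2] at h1
  rw [fub_eq, neg_smul, mul_smul, h1, neg_neg]

theorem k4 : T_K4 := by
  intro p s _ E D v hcop hs hyp θ ζ ι _ u ev hζ hEB f
  obtain ⟨θ', ζ', F, hζ', h1, h2⟩ := rotate p θ ζ hcop hs hζ
  set τ := twf s ζ with hτ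
  set υ := fub p s θ ζ with hυ
  set τ' := twf s ζ' with hτ'
  set υ' := fub p s θ' ζ' with hυ'
  have hτ1 : ∀ n, τ n * conj (τ n) = 1 := twf_unit ζ hζ
  have hυ1 : ∀ n, υ n * conj (υ n) = 1 := fub_unit p θ ζ hζ
  have hτ'1 : ∀ n, τ' n * conj (τ' n) = 1 := twf_unit ζ' hζ'
  have hυ'1 : ∀ n, υ' n * conj (υ' n) = 1 := fub_unit p θ' ζ' hζ'
  have h3 : ∀ n, sh υ (F n) = conj (τ' n) • F (n - 1) := by
    intro n
    have := congrArg (sh υ) (h1 (n - 1))
    rw [sub_add_cancel, sh_shs υ hυ1, map_smul] at this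
    rw [this, smul_smul, mul_comm (conj _), hτ'1, one_smul]
  have h4 : ∀ n, shs τ (F n) = conj (υ' n) • F (n - 1) := by
    intro n
    have := congrArg (shs τ) (h2 (n - 1))
    rw [sub_add_cancel, shs_sh τ hτ1, map_smul] at this
    rw [this, smul_smul, mul_comm (conj _), hυ'1, one_smul]
  have hfb : fb p s θ ζ = fun n => τ n + υ n := by
    ext n
    exact fb_eq p θ ζ n
  have hfb' : fb p s θ' ζ' = fun n => τ' n + υ' n := by
    ext n
    exact fb_eq p θ' ζ' n
  set R := F.repr with hR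
  have hRa : ∀ g n, (R g) n = inner ℂ (F n) g := fun g n => F.repr_apply_apply g n
  -- the Hamiltonian in the new basis
  have hH : ∀ g, R (Fi p s θ ζ g) = Fi p s θ' ζ' (R g) := by
    intro g
    ext n
    rw [hRa]
    unfold Fi
    rw [← bop_symm]
    have e1 : bop (fb p s θ ζ) (F n) = sh τ (F n) + shs τ (F n) + (sh υ (F n) + shs υ (F n)) := by
      ext m
      rw [hfb]
      simp only [bop_apply, PiLp.add_apply, sh_apply, shs_apply, map_add]
      ring
    rw [e1, h1, h2, h3, h4]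
    simp only [inner_add_left, inner_smul_left, Complex.conj_conj]
    rw [bop_apply, hRa, hRa, hfb']
    simp only [map_add]
    ring
  have hC : ∀ g, R (bop (fun n => Complex.I * (τ n - υ n)) g)
      = bop (fun n => Complex.I * fb p s θ' ζ' n) (R g) := by
    intro g
    ext n
    rw [hRa]
    rw [← bop_symm]
    have e1 : bop (fun n => Complex.I * (τ n - υ n)) (F n)
        = Complex.I • (sh τ (F n) - shs τ (F n) - (sh υ (F n) - shs υ (F n))) := by
      ext m
      simp only [bop_apply, PiLp.smul_apply, PiLp.sub_apply, sh_apply, shs_apply, map_sub, map_mul,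
        Complex.conj_I, smul_eq_mul]
      ring
    rw [e1, h1, h2, h3, h4]
    simp only [inner_sub_left, inner_smul_left, Complex.conj_conj, Complex.conj_I]
    rw [bop_apply, hRa, hRa, hfb']
    simp only [map_add, map_mul, Complex.conj_I]
    ring
  have hEB' : IsEB (Fi p s θ' ζ') (u.map R) ev := by
    intro i
    rw [OrthonormalBasis.map_apply, ← hH, hEB i, map_smul]
  have hpj : ∀ g, pj (u.map R) ev (win E D) (R g) = R (pj u ev (win E D) g) := by
    intro g
    unfold pj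
    rw [map_sum]
    refine Finset.sum_congr rfl fun i _ => ?_
    rw [OrthonormalBasis.map_apply, LinearIsometryEquiv.inner_map_map]
    split_ifs
    · rw [map_smul]
    · rw [map_zero]
  set g := pj u ev (win E D) f with hg
  have b1 := hyp θ ζ ι u ev hζ hEB f
  have b2 := hyp θ' ζ' ι (u.map R) ev hζ' hEB' (R f)
  rw [hpj, ← hg, ← hC, LinearIsometryEquiv.inner_map_map, LinearIsometryEquiv.norm_map] at b2
  rw [← hg] at b1
  have e : inner ℂ g (bop (fun n => Complex.I * υ n) g)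
      = (1 / 2 : ℂ) * (inner ℂ g (bop (fun n => Complex.I * fb p s θ ζ n) g)
        - inner ℂ g (bop (fun n => Complex.I * (τ n - υ n)) g)) := by
    rw [← inner_sub_right, ← inner_smul_right]
    congr 1
    ext n
    rw [hfb]
    simp only [bop_apply, PiLp.smul_apply, PiLp.sub_apply, map_sub, map_mul, map_add,
      Complex.conj_I, smul_eq_mul]
    ring
  rw [e, norm_mul]
  have hn : ‖(1 / 2 : ℂ)‖ = 1 / 2 := by norm_num
  rw [hn]
  have := norm_sub_le (inner ℂ g (bop (fun n => Complex.I * fb p s θ ζ n) g))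
    (inner ℂ g (bop (fun n => Complex.I * (τ n - υ n)) g))
  linarith

end rot

end Pool.Agent.H36.AM
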