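import Pool.Agent.H36.AM.Ext

/-!
# Critical almost Mathieu operator (MP_29bb0a_mp), module K5: from the fibres to the rings (helper36)
-/

open scoped ComplexConjugate

noncomputable section

namespace Pool.Agent.H36.AM

open Pool.Agent.H98.AM

/-- the norm of a symmetric operator is bounded by its numerical radius -/
theorem norm_le_of_numrad {𝓗 : Type} [NormedAddCommGroup 𝓗] [InnerProductSpace ℂ 𝓗]
    (A : 𝓗 →ₗ[ℂ] 𝓗) (hA : ∀ f g, inner ℂ (A f) g = inner ℂ f (A g)) (v : ℝ)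
    (hv : ∀ g, ‖inner ℂ g (A g)‖ ≤ v * ‖g‖ ^ 2) (f : 𝓗) : ‖A f‖ ≤ v * ‖f‖ := by
  have key : ∀ g : 𝓗, ‖g‖ = ‖f‖ → (inner ℂ (A f) g).re ≤ v * ‖f‖ ^ 2 := by
    intro g hg
    have h1 : inner ℂ (f + g) (A (f + g)) - inner ℂ (f - g) (A (f - g))
        = 2 * inner ℂ f (A g) + 2 * inner ℂ g (A f) := by
      simp only [map_add, map_sub, inner_add_left, inner_add_right, inner_sub_left, inner_sub_right]
      ring
    have h2 : inner ℂ g (A f) = conj (inner ℂ (A f) g) := (inner_conj_symm _ _).symm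
    have h3 : inner ℂ f (A g) = inner ℂ (A f) g := (hA f g).symm
    have h4 : (inner ℂ (f + g) (A (f + g)) - inner ℂ (f - g) (A (f - g))).re
        = 4 * (inner ℂ (A f) g).re := by
      rw [h1, h2, h3]
      simp only [Complex.add_re, Complex.mul_re, Complex.conj_re, Complex.re_ofNat,
        Complex.im_ofNat, zero_mul, sub_zero]
      ring
    have h5 : (inner ℂ (f + g) (A (f + g)) - inner ℂ (f - g) (A (f - g))).re
        ≤ v * ‖f + g‖ ^ 2 + v * ‖f - g‖ ^ 2 := by
      refine (Complex.re_le_norm _).trans ((norm_sub_le _ _).trans ?_)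
      exact add_le_add (hv _) (hv _)
    have h6 := parallelogram_law_with_norm ℂ f g
    rw [h4] at h5
    rw [hg] at h6
    have h7 : v * ‖f + g‖ ^ 2 + v * ‖f - g‖ ^ 2 = 4 * (v * ‖f‖ ^ 2) := by
      rw [← mul_add, h6]; ring
    linarith
  by_cases h0 : A f = 0
  · rw [h0, norm_zero]
    by_contra hneg
    push Not at hneg
    have hf : ‖f‖ ≠ 0 := by
      intro h
      rw [h, mul_zero] at hneg
      exact lt_irrefl _ hneg
    have hf' : 0 < ‖f‖ := lt_of_le_of_ne (norm_nonneg _) (Ne.symm hf)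
    have := hv f
    rw [h0, inner_zero_right, norm_zero] at this
    nlinarith
  · have hn : 0 < ‖A f‖ := norm_pos_iff.mpr h0
    have h1 := key (((‖f‖ / ‖A f‖ : ℝ) : ℂ) • A f) (by
      rw [norm_smul, Complex.norm_real, Real.norm_eq_abs, abs_of_nonneg (by positivity)]
      field_simp)
    rw [inner_smul_right, Complex.re_ofReal_mul] at h1
    have h2 : (inner ℂ (A f) (A f) : ℂ).re = ‖A f‖ ^ 2 := by
      have := inner_self_eq_norm_sq (𝕜 := ℂ) (A f)
      simpa using this
    rw [h2] at h1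
    have h3 : ‖f‖ / ‖A f‖ * ‖A f‖ ^ 2 = ‖f‖ * ‖A f‖ := by field_simp
    rw [h3] at h1
    by_cases hf : ‖f‖ = 0
    · have : f = 0 := norm_eq_zero.mp hf
      rw [this, map_zero] at h0
      exact absurd rfl h0
    · have hf' : 0 < ‖f‖ := lt_of_le_of_ne (norm_nonneg _) (Ne.symm hf)
      by_contra hc
      push Not at hc
      nlinarith

section k5
variable {M s : ℕ} [NeZero s] [NeZero M]

theorem ub_ring (p : ℤ) (θ : ℝ) :
    (fun n : ZMod (M * s) => Complex.I * ub (p / s) θ (M * s) n)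
      = fun n => (fun m : ℤ => Complex.I * (-ex ((m : ℝ) * (p / s) + θ))) (n.val : ℤ) := rfl

theorem fub_tw (p : ℤ) (θ : ℝ) (ζ : ℂ) :
    (fun n : ZMod s => Complex.I * fub p s θ ζ n)
      = tw s ζ (fun m : ℤ => Complex.I * (-ex ((m : ℝ) * (p / s) + θ))) := by
  ext n
  unfold fub tw
  push_cast
  ring

theorem k5 (hB4 : T_B4) (hF2 : T_F2) (hF3 : T_F3) (hG1 : T_G1) : T_K5 := by
  intro p s _ E D v hcop hs hv hyp M _ θ ι _ u ev hEB f
  classical
  -- the Bloch basis
  have hex : ∀ k : Fin M, ∃ (φ : OrthonormalBasis (Fin s) ℂ (Rg s)) (e : Fin s → ℝ),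
      IsEB (Fi p s θ (ex ((k : ℕ) / (M : ℝ)))) φ e := fun k => (hB4 s _).1
  choose φ e he using hex
  obtain ⟨w, hw, hwv⟩ := hF2 p s M θ φ e hs he
  have hM0 : (M : ℝ) ≠ 0 := by exact_mod_cast NeZero.ne M
  have hMpos : (0 : ℝ) < M := by exact_mod_cast Nat.pos_of_ne_zero (NeZero.ne M)
  set S := win E D with hS
  set ew : Fin M × Fin s → ℝ := fun x => e x.1 x.2 with hew
  obtain ⟨hpj, -⟩ := hF3 (M * s) _ ι (Fin M × Fin s) u ev w ew hEB hw S
  rw [hpj, hpj]
  obtain ⟨hadd, hsmul, hpp, hsym, hpyth, -, -, -, -, -⟩ := hG1 _ _ _ w ew hw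
  set Γ := Gam (p / s) θ (M * s) with hΓ
  -- the compressed operator
  let P : Rg (M * s) →ₗ[ℂ] Rg (M * s) :=
    { toFun := pj w ew S
      map_add' := hadd S
      map_smul' := hsmul S }
  have hΓsym : ∀ a b, inner ℂ (Γ a) b = inner ℂ a (Γ b) := fun a b => bop_symm _ a b
  have hidem : ∀ a, pj w ew S (pj w ew S a) = pj w ew S a := by
    intro a
    rw [hpp, Set.inter_self]
  have hnorm : ∀ a, ‖pj w ew S a‖ ≤ ‖a‖ := by
    intro a
    have := hpyth S a
    exact le_of_sq_le_sq (by nlinarith [sq_nonneg ‖pj w ew Sᶜ a‖]) (norm_nonneg _)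
  have main := norm_le_of_numrad (P ∘ₗ Γ ∘ₗ P) (by
    intro a b
    change inner ℂ (pj w ew S (Γ (pj w ew S a))) b = inner ℂ a (pj w ew S (Γ (pj w ew S b)))
    rw [hsym, hΓsym, hsym]) v ?_ f
  · exact main
  intro h
  change ‖inner ℂ h (pj w ew S (Γ (pj w ew S h)))‖ ≤ v * ‖h‖ ^ 2
  rw [← hsym]
  -- fibre components
  set c : Fin M × Fin s → ℂ := fun x => inner ℂ (w x) h with hc
  let fk : Fin M → Rg s := fun k => ∑ i, c (k, i) • φ k i
  have hfk : ∀ k, pj (φ k) (e k) S (fk k) = ∑ i, if e k i ∈ S then c (k, i) • φ k i else 0 := by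
    intro k
    unfold pj
    refine Finset.sum_congr rfl fun i _ => ?_
    congr 1
    congr 1
    simp only [fk]
    rw [inner_sum]
    simp only [inner_smul_right, orthonormal_iff_ite.mp (φ k).orthonormal]
    simp
  set gk : Fin M → Rg s := fun k => pj (φ k) (e k) S (fk k) with hgk
  -- the extension maps
  let X : Fin M → (Rg s →ₗ[ℂ] Rg (M * s)) := fun k =>
    ((1 / Real.sqrt M : ℝ) : ℂ) • ering M s (ex ((k : ℕ) / (M : ℝ)))
  have hXφ : ∀ k i, X k (φ k i) = w (k, i) := by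
    intro k i
    ext n
    rw [hwv]
    rfl
  have hζ : ∀ k : Fin M, ‖ex ((k : ℕ) / (M : ℝ))‖ = 1 := fun k => norm_ex _
  have hζM : ∀ k : Fin M, (ex ((k : ℕ) / (M : ℝ))) ^ M = 1 := by
    intro k
    have h1 : (ex ((k : ℕ) / (M : ℝ))) ^ M = ex (((k : ℕ) : ℤ) : ℝ) := by
      unfold ex
      rw [← Complex.exp_nat_mul]
      congr 1
      have hMC : (M : ℂ) ≠ 0 := by exact_mod_cast NeZero.ne M
      push_cast
      field_simp
    rw [h1, ex_int]
  set G : Fin M → (Rg s →ₗ[ℂ] Rg s) := fun k =>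
    bop (fun n => Complex.I * fub p s θ (ex ((k : ℕ) / (M : ℝ))) n) with hG
  have hΓX : ∀ k a, Γ (X k a) = X k (G k a) := by
    intro k a
    change Γ (((1 / Real.sqrt M : ℝ) : ℂ) • ering M s (ex ((k : ℕ) / (M : ℝ))) a) =
      ((1 / Real.sqrt M : ℝ) : ℂ) • ering M s (ex ((k : ℕ) / (M : ℝ))) (G k a)
    rw [map_smul]
    congr 1
    rw [hΓ, hG]
    unfold Gam
    rw [ub_ring]
    simp only [fub_tw]
    exact ering_bop _ (hζ k) (hζM k) (fun m : ℤ => Complex.I * (-ex ((m : ℝ) * (p / s) + θ)))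
      (fun m => by
        have := ex_per p s θ m
        rw [this]) a
  have hPh : pj w ew S h = ∑ k, X k (gk k) := by
    unfold pj
    rw [Fintype.sum_prod_type]
    refine Finset.sum_congr rfl fun k _ => ?_
    rw [hgk]
    simp only
    rw [hfk, map_sum]
    refine Finset.sum_congr rfl fun i _ => ?_
    by_cases hi : e k i ∈ S
    · have : ew (k, i) ∈ S := hi
      rw [if_pos this, if_pos hi, map_smul, hXφ]
    · have : ew (k, i) ∉ S := hi
      rw [if_neg this, if_neg hi, map_zero]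
  -- orthogonality
  have hXX : ∀ k l (a b : Rg s), inner ℂ (X k a) (X l b) = if k = l then inner ℂ a b else 0 := by
    intro k l a b
    have ha : X k a = ∑ i, (inner ℂ (φ k i) a) • w (k, i) := by
      conv_lhs => rw [← (φ k).sum_repr' a, map_sum]
      refine Finset.sum_congr rfl fun i _ => ?_
      rw [map_smul, hXφ]
    have hb : X l b = ∑ j, (inner ℂ (φ l j) b) • w (l, j) := by
      conv_lhs => rw [← (φ l).sum_repr' b, map_sum]
      refine Finset.sum_congr rfl fun i _ => ?_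
      rw [map_smul, hXφ]
    rw [ha, hb, sum_inner]
    simp only [inner_sum, inner_smul_left, inner_smul_right, orthonormal_iff_ite.mp w.orthonormal,
      Prod.mk.injEq]
    by_cases hkl : k = l
    · subst hkl
      rw [if_pos rfl]
      rw [← (φ k).sum_inner_mul_inner a b]
      simp only [true_and, mul_ite, mul_one, mul_zero]
      refine Finset.sum_congr rfl fun i _ => ?_
      rw [Finset.sum_ite_eq, if_pos (Finset.mem_univ _), inner_conj_symm, mul_comm]
    · simp [hkl]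
  have hin : inner ℂ (pj w ew S h) (Γ (pj w ew S h)) = ∑ k, inner ℂ (gk k) (G k (gk k)) := by
    rw [hPh, map_sum, sum_inner]
    refine Finset.sum_congr rfl fun k _ => ?_
    rw [inner_sum]
    simp only [hΓX, hXX]
    rw [Finset.sum_ite_eq, if_pos (Finset.mem_univ _)]
  have hnn : ∑ k, ‖fk k‖ ^ 2 = ‖h‖ ^ 2 := by
    have h1 : ∀ k, ‖fk k‖ ^ 2 = ∑ i, ‖c (k, i)‖ ^ 2 := by
      intro k
      rw [← (φ k).sum_sq_norm_inner_right (fk k)]
      refine Finset.sum_congr rfl fun i _ => ?_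
      congr 2
      simp only [fk]
      rw [inner_sum]
      simp only [inner_smul_right, orthonormal_iff_ite.mp (φ k).orthonormal]
      simp
    rw [Finset.sum_congr rfl fun k _ => h1 k, ← w.sum_sq_norm_inner_right h, Fintype.sum_prod_type]
  rw [hin]
  refine (norm_sum_le _ _).trans ?_
  rw [← hnn, Finset.mul_sum]
  refine Finset.sum_le_sum fun k _ => ?_
  exact hyp θ _ (Fin s) (φ k) (e k) (hζ k) (he k) (fk k)

end k5

end Pool.Agent.H36.AM
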