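import Pool.Agent.H98.AM.Targets

/-!
# Critical almost Mathieu operator (MP_29bb0a_mp), module K6: smallness of `Γ` (helper36)
-/

open scoped ComplexConjugate

noncomputable section

namespace Pool.Agent.H36.AM

open Pool.Agent.H98.AM

theorem k6 (hK1 : T_K1) (hK2 : T_K2) (hK3 : T_K3) (hK4 : T_K4) (hK5 : T_K5) : T_K6 := by
  intro C0 hC0
  obtain ⟨K1, hK1a, hK1b⟩ := hK1 C0 hC0
  obtain ⟨K3, hK3a, hK3b⟩ := hK3 C0 hC0
  have hK3pos : 0 < K3 := by linarith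
  refine ⟨K1 + K3 * (2 * C0 + 7 * K1) + K3 + C0 + 3, by nlinarith, ?_⟩
  intro px x py y ps s M _ _ θ E ι _ u ev hA1 hA2 hKx hNH hEB
  have hprod : 0 ≤ K3 * (2 * C0 + 7 * K1) := by positivity
  have hxK1 : K1 ≤ x := by linarith
  have hxK3 : K3 ≤ x := by linarith
  have hxC : C0 ≤ x := by linarith
  have hx3 : (3 : ℝ) ≤ x := by linarith
  have hx0 : (0 : ℝ) < x := by linarith
  have hxy : (x : ℝ) ≤ y := by
    have h1 := hA1.low
    by_contra hc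
    push Not at hc
    nlinarith
  have hy3 : (3 : ℝ) ≤ y := hx3.trans hxy
  have hy0 : (0 : ℝ) < y := by linarith
  have hy1 : (1 : ℝ) ≤ y := by linarith
  have hy3n : 3 ≤ y := by exact_mod_cast hy3
  have hys : (y : ℝ) ≤ s := by
    have h1 := hA2.low
    by_contra hc
    push Not at hc
    nlinarith
  have hs3 : 3 ≤ s := by
    have : (3 : ℝ) ≤ s := hy3.trans hys
    exact_mod_cast this
  have : NeZero y := ⟨by omega⟩
  set X : ℝ := (x : ℝ) ^ (-(1 / 4) : ℝ) with hX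
  have hX0 : 0 ≤ X := Real.rpow_nonneg hx0.le _
  set D : ℝ := (y : ℝ) ^ (-(11 / 8) : ℝ) with hD
  have hD0 : 0 ≤ D := Real.rpow_nonneg hy0.le _
  have hD1 : D ≤ 1 / y := by
    rw [hD, one_div, ← Real.rpow_neg_one]
    exact Real.rpow_le_rpow_of_exponent_le hy1 (by norm_num)
  have hDy : D * y = (y : ℝ) ^ (-(3 / 8) : ℝ) := by
    rw [hD]
    nth_rewrite 2 [← Real.rpow_one (y : ℝ)]
    rw [← Real.rpow_add hy0]
    norm_num
  have hY : (y : ℝ) ^ (-(1 / 8) : ℝ) ≤ C0 * X := by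
    have h1 : (x : ℝ) ^ 2 / C0 ≤ y := by
      rw [div_le_iff₀ (by linarith)]
      linarith [hA1.low]
    have h2 : (y : ℝ) ^ (-(1 / 8) : ℝ) ≤ ((x : ℝ) ^ 2 / C0) ^ (-(1 / 8) : ℝ) :=
      Real.rpow_le_rpow_of_nonpos (by positivity) h1 (by norm_num)
    refine h2.trans ?_
    rw [Real.div_rpow (by positivity) (by linarith), ← Real.rpow_natCast (x : ℝ) 2,
      ← Real.rpow_mul hx0.le, div_eq_mul_inv, ← Real.rpow_neg (by linarith), mul_comm]
    have h3 : ((2 : ℕ) : ℝ) * (-(1 / 8)) = -(1 / 4) := by norm_num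
    rw [h3, neg_neg]
    apply mul_le_mul_of_nonneg_right _ hX0
    calc C0 ^ (1 / 8 : ℝ) ≤ C0 ^ (1 : ℝ) := Real.rpow_le_rpow_of_exponent_le hC0 (by norm_num)
      _ = C0 := Real.rpow_one _
  have hY2 : (y : ℝ) ^ (-(3 / 8) : ℝ) ≤ C0 * X :=
    (Real.rpow_le_rpow_of_exponent_le hy1 (by norm_num)).trans hY
  set v0 : ℝ := (y : ℝ) ^ (-(3 / 8) : ℝ) + 7 * (K1 * X) with hv0
  have hv00 : 0 ≤ v0 := by
    have := Real.rpow_nonneg hy0.le (-(3 / 8) : ℝ)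
    positivity
  set v : ℝ := K3 * ((y : ℝ) ^ (-(1 / 8) : ℝ) + v0) with hv
  have hv' : 0 ≤ v := by
    have := Real.rpow_nonneg hy0.le (-(1 / 8) : ℝ)
    positivity
  have hvle : v ≤ (K1 + K3 * (2 * C0 + 7 * K1) + K3 + C0 + 3) * X := by
    have h1 : v ≤ K3 * ((2 * C0 + 7 * K1) * X) := by
      rw [hv]
      apply mul_le_mul_of_nonneg_left _ hK3pos.le
      rw [hv0]
      linarith
    have h2 : 0 ≤ (K1 + K3 + C0 + 3) * X := by
      apply mul_nonneg _ hX0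
      linarith
    nlinarith
  have step3 := hK3b py y ps s E v0 hA2 (hxK3.trans hxy) hv00 (by
    intro M' _ θ' ι' _ u' ev' hθ' hEB' f
    have h1 := hK1b px x py y M' θ' E D ι' u' ev' hA1 hxK1 hθ' hEB' hNH hD0 hD1 f
    have h2 := hK2 py y M' θ' E D ι' u' ev' hy3n hθ' hEB' hD0 f
    refine h2.trans ?_
    rw [hDy, hv0]
    nlinarith)
  have step4 := hK4 ps s E ((y : ℝ) ^ (-(3 / 2) : ℝ)) v hA2.cop' hs3 (fun θ' ζ ι' _ u' ev' hζ hEB' f =>
    step3 θ' ζ ι' u' ev' hζ hEB' f)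
  have step5 := hK5 ps s E ((y : ℝ) ^ (-(3 / 2) : ℝ)) v hA2.cop' hs3 hv' step4 M θ ι u ev hEB
  intro f
  exact (step5 f).trans (mul_le_mul_of_nonneg_right hvle (norm_nonneg _))

end Pool.Agent.H36.AM
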